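import Mathlib

/-!
# Local reverse Faber-Krahn inequality for the magnetic Neumann ground state: definitions

Convention of the frozen statement: `(∇ - i B A)`, `A = (-x₂, x₁)/2`.
-/

set_option autoImplicit false

namespace Pool.Agent.MFK

open MeasureTheory Set Filter Topology

/-- magnetic energy density (as in the frozen statement) -/
noncomputable def eden (B : ℝ) (u : ℝ × ℝ → ℂ) (x : ℝ × ℝ) : ℝ :=
  ‖fderiv ℝ u x ((1 : ℝ), (0 : ℝ)) - Complex.I * ((-(B * x.2 / 2) : ℝ) : ℂ) * u x‖ ^ 2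
    + ‖fderiv ℝ u x ((0 : ℝ), (1 : ℝ)) - Complex.I * ((B * x.1 / 2 : ℝ) : ℂ) * u x‖ ^ 2

/-- lowest magnetic Neumann eigenvalue of `Ω` (variational infimum, as in the frozen statement) -/
noncomputable def lamN (B : ℝ) (Ω : Set (ℝ × ℝ)) : ℝ :=
  sInf {q : ℝ | ∃ u : ℝ × ℝ → ℂ, ContDiffOn ℝ 1 u Ω ∧
      IntegrableOn (fun x => ‖u x‖ ^ 2) Ω ∧ IntegrableOn (fun x => eden B u x) Ω ∧
      (∫ x in Ω, ‖u x‖ ^ 2) = 1 ∧ q = ∫ x in Ω, eden B u x}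

/-- the unit disc -/
def disc : Set (ℝ × ℝ) := {x | x.1 ^ 2 + x.2 ^ 2 < 1}

/-- the domain `r < ρ(θ)` -/
noncomputable def polarDom (ρ : ℝ → ℝ) : Set (ℝ × ℝ) :=
  {x | x.1 ^ 2 + x.2 ^ 2 < ρ (Complex.arg (⟨x.1, x.2⟩ : ℂ)) ^ 2}

/-- radial part `r^|n| F(r²)` -/
noncomputable def radf (n : ℤ) (F : ℝ → ℝ) (r : ℝ) : ℝ := r ^ n.natAbs * F (r ^ 2)

/-- `n/r - B r/2` -/
noncomputable def qn (B : ℝ) (n : ℤ) (r : ℝ) : ℝ := n / r - B * r / 2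

/-- `r ↦ r^|n| F(r²)` is a positive regular solution of the radial equation of mode `n`, energy `lam` -/
structure Rad (B lam : ℝ) (n : ℤ) (F : ℝ → ℝ) : Prop where
  smooth : ContDiff ℝ 2 F
  pos : ∀ s, 0 ≤ s → 0 < F s
  ode : ∀ r, 0 < r → HasDerivAt (fun t => t * deriv (radf n F) t)
          (r * ((qn B n r) ^ 2 - lam) * radf n F r) r

/-- Dirichlet to Neumann number of mode `n` on the unit circle -/
noncomputable def dtn (F : ℤ → ℝ → ℝ) (n : ℤ) : ℝ := deriv (radf n (F n)) 1 / F n 1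

/-- spectral data of the unit disc: `lam` is the lowest eigenvalue, `m` a ground mode -/
structure Data (B lam : ℝ) (m : ℕ) (F : ℤ → ℝ → ℝ) : Prop where
  lam_pos : 0 < lam
  lam_lt : lam < B
  rad : ∀ n : ℤ, Rad B lam n (F n)
  nonneg : ∀ n : ℤ, 0 ≤ dtn F n
  zero : dtn F (m : ℤ) = 0

/-- the algebraic facts about `al k = D_(m-k)`, `be k = D_(m+k)` -/
structure Facts (p M lam : ℝ) (m : ℕ) (al be : ℕ → ℝ) : Prop where
  hp : 0 < p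
  hM : M = p + 2 * m
  lam_pos : 0 < lam
  lam_lt : lam < M + p
  al0 : al 0 = 0
  be0 : be 0 = 0
  al_nonneg : ∀ k, 0 ≤ al k
  be_nonneg : ∀ k, 0 ≤ be k
  al_den : ∀ k : ℕ, 0 < al k + M - k
  be_den : ∀ k : ℕ, 0 < M + k - be k
  al_rec : ∀ k : ℕ, al (k + 1) * (al k + M - k) = (M - k - 1) * al k + (p + k) * (p + k + 1) - lam
  be_rec : ∀ k : ℕ, be (k + 1) * (M + k - be k) = (1 + M + k) * be k - (k - p) * (k - p + 1) + lam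
  F4 : ∀ k : ℕ, be (k + 1) ≤ be k + 1
  F5b : ∀ k : ℕ, (be k + 1) ^ 2 ≤ (k + 1 - p) ^ 2 + (M + p) - lam
  F5a1 : ∀ k : ℕ, k ≤ m → (al k + 1) ^ 2 ≤ (k - 1 + p) ^ 2 + (M + p) - lam
  F5a2 : ∀ k : ℕ, m ≤ k → (al k + 1) ^ 2 ≤ (k + 1 + p) ^ 2 - (M + p) - lam
  al_le : ∀ k : ℕ, m ≤ k → al k ≤ p + k
  be_ge : ∀ k : ℕ, k - p ≤ be k

/-- the second variation form of mode `k` is negative for suitable amplitudes -/
def SNeg (p M lam : ℝ) (al be : ℕ → ℝ) (k : ℕ) : Prop :=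
  ∃ x y : ℝ, 2 * p * M + 2 * y * (p ^ 2 - lam - k * p) + 2 * x * (p ^ 2 - lam + k * p)
    + y ^ 2 * be k + x ^ 2 * al k < 0

/-- nearly circular profile, area `π`, centre of mass `0` -/
structure Near (ρ : ℝ → ℝ) (ε : ℝ) : Prop where
  cont : Continuous ρ
  per : ∀ θ, ρ (θ + 2 * Real.pi) = ρ θ
  close : ∀ θ, |ρ θ - 1| ≤ ε
  area : (∫ θ in (0 : ℝ)..(2 * Real.pi), ρ θ ^ 2) = 2 * Real.pi
  bar1 : (∫ θ in (0 : ℝ)..(2 * Real.pi), ρ θ ^ 3 * Real.cos θ) = 0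
  bar2 : (∫ θ in (0 : ℝ)..(2 * Real.pi), ρ θ ^ 3 * Real.sin θ) = 0

/-! ### main statements -/

/-- spectral data of the disc with all the algebraic facts -/
def StSpec : Prop :=
  ∀ B : ℝ, 0 < B → ∃ (lam : ℝ) (m : ℕ) (F : ℤ → ℝ → ℝ), Data B lam m F ∧
    Facts (B / 2 - m) (B / 2 + m) lam m (fun k => dtn F ((m : ℤ) - k)) (fun k => dtn F ((m : ℤ) + k))

/-- algebraic lemma -/
def StAL : Prop :=
  ∀ (p M lam : ℝ) (m : ℕ) (al be : ℕ → ℝ), Facts p M lam m al be → ∀ k : ℕ, 2 ≤ k →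
    SNeg p M lam al be k

/-- lower bound for the disc -/
def StLB : Prop :=
  ∀ (B lam : ℝ) (m : ℕ) (F : ℤ → ℝ → ℝ), 0 < B → Data B lam m F → lam ≤ lamN B disc

/-- upper bound for nearly circular domains -/
def StUB : Prop :=
  ∀ (B lam : ℝ) (m : ℕ) (F : ℤ → ℝ → ℝ), 0 < B → Data B lam m F → 0 < B / 2 - m →
    (∀ k : ℕ, 2 ≤ k → SNeg (B / 2 - m) (B / 2 + m) lam (fun k => dtn F ((m : ℤ) - k))
      (fun k => dtn F ((m : ℤ) + k)) k) →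
    ∃ ε > (0 : ℝ), ∃ c > (0 : ℝ), ∀ ρ : ℝ → ℝ, Near ρ ε →
      lamN B (polarDom ρ) ≤ lam - c * ∫ θ in (0 : ℝ)..(2 * Real.pi), (ρ θ - 1) ^ 2

/-- final theorem -/
def StMain : Prop :=
  ∀ B : ℝ, 0 < B → ∃ ε > (0 : ℝ), ∃ c > (0 : ℝ), ∀ ρ : ℝ → ℝ, Near ρ ε →
    lamN B (polarDom ρ) ≤ lamN B disc - c * ∫ θ in (0 : ℝ)..(2 * Real.pi), (ρ θ - 1) ^ 2

theorem main_of (h1 : StSpec) (h2 : StAL) (h3 : StLB) (h4 : StUB) : StMain := by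
  intro B hB
  obtain ⟨lam, m, F, hD, hF⟩ := h1 B hB
  obtain ⟨ε, hε, c, hc, h⟩ := h4 B lam m F hB hD hF.hp (fun k hk => h2 _ _ _ _ _ _ hF k hk)
  refine ⟨ε, hε, c, hc, fun ρ hρ => (h ρ hρ).trans ?_⟩
  linarith [h3 B lam m F hB hD]

end Pool.Agent.MFK
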