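import Pool.Agent.Work.MP_8826fd_mp.StmtsL

/-! # The test function and the upper bound for nearly circular domains (items U..) -/

set_option autoImplicit false

namespace Pool.Agent.MFK

open MeasureTheory Set Filter Topology

/-! ### Fourier part -/

noncomputable def fA (h : ℝ → ℝ) (k : ℕ) : ℝ :=
  (1 / Real.pi) * ∫ t in (0 : ℝ)..(2 * Real.pi), h t * Real.cos (k * t)
noncomputable def fB (h : ℝ → ℝ) (k : ℕ) : ℝ :=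
  (1 / Real.pi) * ∫ t in (0 : ℝ)..(2 * Real.pi), h t * Real.sin (k * t)
/-- `|h_k|²`, `h_k = (fA - i fB)/2` -/
noncomputable def hsq (h : ℝ → ℝ) (k : ℕ) : ℝ := (fA h k ^ 2 + fB h k ^ 2) / 4
/-- real part of `h_k e^{ikθ}` -/
noncomputable def Ck (h : ℝ → ℝ) (k : ℕ) (θ : ℝ) : ℝ :=
  (fA h k * Real.cos (k * θ) + fB h k * Real.sin (k * θ)) / 2
/-- imaginary part of `h_k e^{ikθ}` -/
noncomputable def Sk (h : ℝ → ℝ) (k : ℕ) (θ : ℝ) : ℝ :=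
  (fA h k * Real.sin (k * θ) - fB h k * Real.cos (k * θ)) / 2
noncomputable def hlow (h : ℝ → ℝ) (K : ℕ) (θ : ℝ) : ℝ := ∑ k ∈ Finset.Icc 1 K, 2 * Ck h k θ
noncomputable def hhigh (h : ℝ → ℝ) (K : ℕ) (θ : ℝ) : ℝ := h θ - hlow h K θ
noncomputable def Hprim (h : ℝ → ℝ) (K : ℕ) (θ : ℝ) : ℝ := ∫ t in (0 : ℝ)..θ, hhigh h K t
/-- periodic primitive of `hhigh` with mean zero -/
noncomputable def Hh (h : ℝ → ℝ) (K : ℕ) (θ : ℝ) : ℝ :=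
  Hprim h K θ - (1 / (2 * Real.pi)) * ∫ s in (0 : ℝ)..(2 * Real.pi), Hprim h K s

/-- continuous, periodic, mean zero -/
structure Adm (h : ℝ → ℝ) : Prop where
  cont : Continuous h
  per : ∀ θ, h (θ + 2 * Real.pi) = h θ
  mean : (∫ θ in (0 : ℝ)..(2 * Real.pi), h θ) = 0

def UFour1 : Prop := ∀ (h : ℝ → ℝ) (K : ℕ), Adm h →
  (∫ θ in (0 : ℝ)..(2 * Real.pi), h θ ^ 2)
    = 4 * Real.pi * (∑ k ∈ Finset.Icc 1 K, hsq h k) + ∫ θ in (0 : ℝ)..(2 * Real.pi), hhigh h K θ ^ 2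
def UFour2 : Prop := ∀ (h : ℝ → ℝ) (K : ℕ), Adm h →
  (∀ θ, HasDerivAt (Hh h K) (hhigh h K θ) θ) ∧ (∀ θ, Hh h K (θ + 2 * Real.pi) = Hh h K θ) ∧
  Continuous (hhigh h K) ∧ (∀ θ, hhigh h K (θ + 2 * Real.pi) = hhigh h K θ) ∧
  (∀ k ≤ K, (∫ θ in (0 : ℝ)..(2 * Real.pi), hhigh h K θ * Real.cos (k * θ)) = 0 ∧
    (∫ θ in (0 : ℝ)..(2 * Real.pi), hhigh h K θ * Real.sin (k * θ)) = 0 ∧
    (∫ θ in (0 : ℝ)..(2 * Real.pi), Hh h K θ * Real.cos (k * θ)) = 0 ∧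
    (∫ θ in (0 : ℝ)..(2 * Real.pi), Hh h K θ * Real.sin (k * θ)) = 0)
/-- Wirtinger inequality for the high modes -/
def UFour3 : Prop := ∀ (h : ℝ → ℝ) (K : ℕ), Adm h →
  ((K : ℝ) + 1) ^ 2 * (∫ θ in (0 : ℝ)..(2 * Real.pi), Hh h K θ ^ 2)
    ≤ ∫ θ in (0 : ℝ)..(2 * Real.pi), hhigh h K θ ^ 2
def UFour4 : Prop := ∀ (h : ℝ → ℝ) (K : ℕ), Adm h →
  (∀ k : ℕ, 1 ≤ k → (∫ θ in (0 : ℝ)..(2 * Real.pi), h θ * Ck h k θ) = 2 * Real.pi * hsq h k) ∧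
  (∫ θ in (0 : ℝ)..(2 * Real.pi), h θ * hhigh h K θ) = ∫ θ in (0 : ℝ)..(2 * Real.pi), hhigh h K θ ^ 2
/-- pointwise bounds -/
def UFour5 : Prop := ∀ (h : ℝ → ℝ) (K : ℕ), Adm h →
  (∀ (k : ℕ) (θ : ℝ), |Ck h k θ| ≤ Real.sqrt (hsq h k) ∧ |Sk h k θ| ≤ Real.sqrt (hsq h k)) ∧
  (∀ k : ℕ, 1 ≤ k → hsq h k ≤ ∫ θ in (0 : ℝ)..(2 * Real.pi), h θ ^ 2) ∧
  (∀ θ, |Hh h K θ| ≤ 4 * Real.sqrt (∫ θ in (0 : ℝ)..(2 * Real.pi), hhigh h K θ ^ 2))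

/-- quadratic form of the density in numbers -/
noncomputable def Q2 (q lam r v1r v2r v1 v2 v1t v2t : ℝ) : ℝ :=
  v1r ^ 2 + v2r ^ 2 + (v1t / r - q * v2) ^ 2 + (v2t / r + q * v1) ^ 2 - lam * (v1 ^ 2 + v2 ^ 2)

/-- angular integration (orthogonality) for fixed `r` -/
def UAng : Prop := ∀ (h : ℝ → ℝ) (K : ℕ) (ph ps ph' ps' : ℕ → ℝ) (G G' q lam r : ℝ), Adm h → r ≠ 0 →
  (∫ θ in (0 : ℝ)..(2 * Real.pi), Q2 q lam r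
      (∑ k ∈ Finset.Icc 2 K, ph' k * Ck h k θ) (∑ k ∈ Finset.Icc 2 K, ps' k * Sk h k θ + G' * Hh h K θ)
      (∑ k ∈ Finset.Icc 2 K, ph k * Ck h k θ) (∑ k ∈ Finset.Icc 2 K, ps k * Sk h k θ + G * Hh h K θ)
      (∑ k ∈ Finset.Icc 2 K, -(k * ph k * Sk h k θ))
      (∑ k ∈ Finset.Icc 2 K, k * ps k * Ck h k θ + G * hhigh h K θ))
  = (∑ k ∈ Finset.Icc 2 K, Real.pi * hsq h k * (ph' k ^ 2 + ps' k ^ 2 + (k * ph k / r + q * ps k) ^ 2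
        + (k * ps k / r + q * ph k) ^ 2 - lam * (ph k ^ 2 + ps k ^ 2)))
    + (G' ^ 2 + (q ^ 2 - lam) * G ^ 2) * (∫ θ in (0 : ℝ)..(2 * Real.pi), Hh h K θ ^ 2)
    + G ^ 2 / r ^ 2 * ∫ θ in (0 : ℝ)..(2 * Real.pi), hhigh h K θ ^ 2

/-! ### radial energy identities -/

def UEn : Prop := ∀ (B lam : ℝ) (n : ℤ) (F : ℝ → ℝ), Rad B lam n F →
  IntervalIntegrable (fun r => (deriv (radf n F) r ^ 2 + (qn B n r ^ 2 - lam) * radf n F r ^ 2) * r) volume 0 1 ∧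
  (∫ r in (0 : ℝ)..1, (deriv (radf n F) r ^ 2 + (qn B n r ^ 2 - lam) * radf n F r ^ 2) * r)
    = radf n F 1 * deriv (radf n F) 1

/-- cut-off version (ground state: `a'(1) = 0`) -/
def UPh : Prop := ∀ (B lam : ℝ) (n : ℤ) (F X : ℝ → ℝ) (s0 : ℝ), Rad B lam n F → deriv (radf n F) 1 = 0 →
  ContDiff ℝ 1 X → 0 < s0 → (∀ s ≤ s0, X s = 0) →
  IntervalIntegrable (fun r => (deriv (fun t => X (t ^ 2) * radf n F t) r ^ 2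
      + (qn B n r ^ 2 - lam) * (X (r ^ 2) * radf n F r) ^ 2) * r) volume 0 1 ∧
  (∫ r in (0 : ℝ)..1, (deriv (fun t => X (t ^ 2) * radf n F t) r ^ 2
      + (qn B n r ^ 2 - lam) * (X (r ^ 2) * radf n F r) ^ 2) * r)
    = ∫ r in (0 : ℝ)..1, (deriv (fun t => X (t ^ 2)) r) ^ 2 * radf n F r ^ 2 * r

/-! ### parameters of the test function -/

structure Par where
  B : ℝ
  lam : ℝ
  m : ℕ
  F : ℤ → ℝ → ℝ
  x : ℕ → ℝ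
  y : ℕ → ℝ
  K : ℕ
  X : ℝ → ℝ

namespace Par

variable (P : Par)

noncomputable def p : ℝ := P.B / 2 - P.m
noncomputable def M : ℝ := P.B / 2 + P.m
/-- normalised ground state -/
noncomputable def g (r : ℝ) : ℝ := radf P.m (P.F P.m) r / P.F P.m 1
noncomputable def bb (k : ℕ) (r : ℝ) : ℝ := radf (P.m + k) (P.F (P.m + k)) r / P.F (P.m + k) 1
noncomputable def aa (k : ℕ) (r : ℝ) : ℝ := radf (P.m - k) (P.F (P.m - k)) r / P.F (P.m - k) 1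
noncomputable def ph (k : ℕ) (r : ℝ) : ℝ := P.y k * P.bb k r + P.x k * P.aa k r
noncomputable def ps (k : ℕ) (r : ℝ) : ℝ := P.y k * P.bb k r - P.x k * P.aa k r
noncomputable def GG (r : ℝ) : ℝ := P.M * (P.X (r ^ 2) * P.g r)
noncomputable def V1 (h : ℝ → ℝ) (r θ : ℝ) : ℝ := ∑ k ∈ Finset.Icc 2 P.K, P.ph k r * Ck h k θ
noncomputable def V2 (h : ℝ → ℝ) (r θ : ℝ) : ℝ :=
  ∑ k ∈ Finset.Icc 2 P.K, P.ps k r * Sk h k θ + P.GG r * Hh h P.K θ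
noncomputable def V1r (h : ℝ → ℝ) (r θ : ℝ) : ℝ := ∑ k ∈ Finset.Icc 2 P.K, deriv (P.ph k) r * Ck h k θ
noncomputable def V2r (h : ℝ → ℝ) (r θ : ℝ) : ℝ :=
  ∑ k ∈ Finset.Icc 2 P.K, deriv (P.ps k) r * Sk h k θ + deriv P.GG r * Hh h P.K θ
noncomputable def V1t (h : ℝ → ℝ) (r θ : ℝ) : ℝ := ∑ k ∈ Finset.Icc 2 P.K, -(k * P.ph k r * Sk h k θ)
noncomputable def V2t (h : ℝ → ℝ) (r θ : ℝ) : ℝ :=
  ∑ k ∈ Finset.Icc 2 P.K, k * P.ps k r * Ck h k θ + P.GG r * hhigh h P.K θ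
noncomputable def q (r : ℝ) : ℝ := qn P.B P.m r

/-- `eden - lam |u|²` of the test function in polar coordinates -/
noncomputable def dens (h : ℝ → ℝ) (r θ : ℝ) : ℝ :=
  Q2 (P.q r) P.lam r (deriv P.g r + P.V1r h r θ) (P.V2r h r θ) (P.g r + P.V1 h r θ) (P.V2 h r θ)
    (P.V1t h r θ) (P.V2t h r θ)

/-- second variation form of mode `k` -/
noncomputable def form (k : ℕ) : ℝ :=
  2 * P.p * P.M + 2 * P.y k * (P.p ^ 2 - P.lam - k * P.p) + 2 * P.x k * (P.p ^ 2 - P.lam + k * P.p)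
    + P.y k ^ 2 * dtn P.F (P.m + k) + P.x k ^ 2 * dtn P.F (P.m - k)

noncomputable def I1 : ℝ := ∫ r in (0 : ℝ)..1, (deriv (fun t => P.X (t ^ 2)) r) ^ 2 * P.g r ^ 2 * r
noncomputable def I2 : ℝ := ∫ r in (0 : ℝ)..1, (P.X (r ^ 2) * P.g r) ^ 2 / r

structure Good : Prop where
  hB : 0 < P.B
  data : Data P.B P.lam P.m P.F
  hp : 0 < P.p
  Xs : ContDiff ℝ 2 P.X
  X0 : ∃ s0 > (0 : ℝ), ∀ s ≤ s0, P.X s = 0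
  X1 : ∃ s1 < (1 : ℝ), ∀ s ≥ s1, P.X s = 1
  neg : ∀ k ∈ Finset.Icc 2 P.K, P.form k < 0
  small : P.M ^ 2 * (P.I1 / ((P.K : ℝ) + 1) ^ 2 + P.I2) ≤ P.p * P.M / 2

end Par

/-- existence of good parameters -/
def UPar : Prop := ∀ (B lam : ℝ) (m : ℕ) (F : ℤ → ℝ → ℝ), 0 < B → Data B lam m F → 0 < B / 2 - m →
    (∀ k : ℕ, 2 ≤ k → SNeg (B / 2 - m) (B / 2 + m) lam (fun k => dtn F ((m : ℤ) - k))
      (fun k => dtn F ((m : ℤ) + k)) k) →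
    ∃ P : Par, P.Good ∧ P.B = B ∧ P.lam = lam

/-! ### the test function -/

/-- `r^|n| e^{inθ} F(r²)` as a function on the plane -/
noncomputable def wmode (n : ℤ) (F : ℝ → ℝ) (z : ℝ × ℝ) : ℂ :=
  (if 0 ≤ n then (⟨z.1, z.2⟩ : ℂ) ^ n.natAbs else (⟨z.1, -z.2⟩ : ℂ) ^ n.natAbs) * ((F (z.1 ^ 2 + z.2 ^ 2) : ℝ) : ℂ)

/-- cut-off times an angular function -/
noncomputable def wang (X H : ℝ → ℝ) (z : ℝ × ℝ) : ℝ :=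
  X (z.1 ^ 2 + z.2 ^ 2) * H (Complex.arg (⟨z.1, z.2⟩ : ℂ))

noncomputable def utest (P : Par) (h : ℝ → ℝ) (z : ℝ × ℝ) : ℂ :=
  wmode P.m (P.F P.m) z / (P.F P.m 1 : ℝ)
  + (∑ k ∈ Finset.Icc 2 P.K,
      ((P.y k : ℂ) * ((fA h k - Complex.I * fB h k) / 2) * (wmode (P.m + k) (P.F (P.m + k)) z / (P.F (P.m + k) 1 : ℝ))
      + (P.x k : ℂ) * ((fA h k + Complex.I * fB h k) / 2) * (wmode (P.m - k) (P.F (P.m - k)) z / (P.F (P.m - k) 1 : ℝ))))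
  + Complex.I * (P.M : ℂ) * (wang P.X (Hh h P.K) z : ℝ) * (wmode P.m (P.F P.m) z / (P.F P.m 1 : ℝ))

def UMode : Prop := ∀ (n : ℤ) (F : ℝ → ℝ), ContDiff ℝ 2 F → ContDiff ℝ 1 (wmode n F) ∧
  ∀ r θ : ℝ, 0 ≤ r → wmode n F (pt r θ) = ((radf n F r : ℝ) : ℂ) * Complex.exp (Complex.I * n * θ)

def UAngular : Prop := ∀ (X H H' : ℝ → ℝ) (s0 : ℝ), ContDiff ℝ 1 X → 0 < s0 → (∀ s ≤ s0, X s = 0) →
  (∀ θ, HasDerivAt H (H' θ) θ) → Continuous H' → (∀ θ, H (θ + 2 * Real.pi) = H θ) →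
  ContDiff ℝ 1 (wang X H) ∧ ∀ r θ : ℝ, 0 < r → wang X H (pt r θ) = X (r ^ 2) * H θ

/-- smoothness and polar form of the test function -/
def UTest : Prop := ∀ (P : Par) (h : ℝ → ℝ), P.Good → Adm h → ContDiff ℝ 1 (utest P h) ∧
  ∀ r θ : ℝ, 0 < r → utest P h (pt r θ) = Complex.exp (Complex.I * P.m * θ) *
    (((P.g r + P.V1 h r θ : ℝ) : ℂ) + Complex.I * ((P.V2 h r θ : ℝ) : ℂ))

/-- partial derivatives of the real functions -/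
def UDer : Prop := ∀ (P : Par) (h : ℝ → ℝ) (r θ : ℝ), P.Good → Adm h → 0 < r →
  HasDerivAt P.g (deriv P.g r) r ∧
  HasDerivAt (fun t => P.V1 h t θ) (P.V1r h r θ) r ∧ HasDerivAt (fun t => P.V2 h t θ) (P.V2r h r θ) r ∧
  HasDerivAt (fun t => P.V1 h r t) (P.V1t h r θ) θ ∧ HasDerivAt (fun t => P.V2 h r t) (P.V2t h r θ) θ

/-- the density of the test function -/
def UDens : Prop := ∀ (P : Par) (h : ℝ → ℝ) (r θ : ℝ), P.Good → Adm h → 0 < r →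
  eden P.B (utest P h) (pt r θ) - P.lam * ‖utest P h (pt r θ)‖ ^ 2 = P.dens h r θ

/-- `dens * r` is the restriction of a continuous function -/
def UCont : Prop := ∀ (P : Par) (h : ℝ → ℝ), P.Good → Adm h →
  ∃ f : ℝ × ℝ → ℝ, Continuous f ∧ ∀ r θ : ℝ, 0 < r → f (r, θ) = P.dens h r θ * r

/-- regularity of the density -/
def UInt : Prop := ∀ (P : Par) (h : ℝ → ℝ), P.Good → Adm h →
  (∀ θ t : ℝ, 0 ≤ t → IntervalIntegrable (fun r => P.dens h r θ * r) volume 0 t) ∧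
  (∀ ρ : ℝ → ℝ, Continuous ρ → (∀ θ, 0 ≤ ρ θ) →
    Continuous (fun θ => ∫ r in (0 : ℝ)..(ρ θ), P.dens h r θ * r))

/-- energy excess in polar coordinates -/
def UPolar : Prop := ∀ (P : Par) (ρ : ℝ → ℝ) (ε : ℝ) (h : ℝ → ℝ), P.Good → Near ρ ε → ε ≤ 1 / 2 → Adm h →
  IntegrableOn (fun x => ‖utest P h x‖ ^ 2) (polarDom ρ) ∧
  IntegrableOn (fun x => eden P.B (utest P h) x) (polarDom ρ) ∧
  (∫ x in polarDom ρ, eden P.B (utest P h) x) - P.lam * (∫ x in polarDom ρ, ‖utest P h x‖ ^ 2)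
    = ∫ θ in (0 : ℝ)..(2 * Real.pi), ∫ r in (0 : ℝ)..(ρ θ), P.dens h r θ * r

/-- angular integral of the density -/
def UDiscA : Prop := ∀ (P : Par) (h : ℝ → ℝ) (r : ℝ), P.Good → Adm h → 0 < r →
  (∫ θ in (0 : ℝ)..(2 * Real.pi), P.dens h r θ)
  = 2 * Real.pi * (deriv P.g r ^ 2 + (P.q r ^ 2 - P.lam) * P.g r ^ 2)
    + 2 * Real.pi * (∑ k ∈ Finset.Icc 2 P.K, hsq h k *
        (P.y k ^ 2 * (deriv (P.bb k) r ^ 2 + (qn P.B (P.m + k) r ^ 2 - P.lam) * P.bb k r ^ 2)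
          + P.x k ^ 2 * (deriv (P.aa k) r ^ 2 + (qn P.B (P.m - k) r ^ 2 - P.lam) * P.aa k r ^ 2)))
    + (deriv P.GG r ^ 2 + (P.q r ^ 2 - P.lam) * P.GG r ^ 2) * (∫ θ in (0 : ℝ)..(2 * Real.pi), Hh h P.K θ ^ 2)
    + P.GG r ^ 2 / r ^ 2 * ∫ θ in (0 : ℝ)..(2 * Real.pi), hhigh h P.K θ ^ 2

/-- exact value on the disc -/
def UDisc : Prop := ∀ (P : Par) (h : ℝ → ℝ), P.Good → Adm h →
  (∫ θ in (0 : ℝ)..(2 * Real.pi), ∫ r in (0 : ℝ)..1, P.dens h r θ * r)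
  = 2 * Real.pi * (∑ k ∈ Finset.Icc 2 P.K, hsq h k *
        (P.y k ^ 2 * dtn P.F (P.m + k) + P.x k ^ 2 * dtn P.F (P.m - k)))
    + P.M ^ 2 * (P.I1 * (∫ θ in (0 : ℝ)..(2 * Real.pi), Hh h P.K θ ^ 2)
        + P.I2 * ∫ θ in (0 : ℝ)..(2 * Real.pi), hhigh h P.K θ ^ 2)

/-- linear coefficient at the boundary -/
noncomputable def Par.lin (P : Par) (h : ℝ → ℝ) (θ : ℝ) : ℝ :=
  -P.p * P.V2t h 1 θ + (P.p ^ 2 - P.lam) * P.V1 h 1 θ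

/-- base term of the outer part -/
def UE0 : Prop := ∀ (P : Par), P.Good → ∃ C > (0 : ℝ), ∃ ε > (0 : ℝ), ∀ t : ℝ, |t - 1| ≤ ε →
  |(∫ r in (1 : ℝ)..t, (deriv P.g r ^ 2 + (P.q r ^ 2 - P.lam) * P.g r ^ 2) * r)
    - ((P.p ^ 2 - P.lam) * ((t ^ 2 - 1) / 2) + P.p * P.M * ((t ^ 2 - 1) / 2) ^ 2)|
    ≤ C * |(t ^ 2 - 1) / 2| ^ 3

/-- pointwise expansion of the outer part: `R` bounds the size of the corrector -/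
def UOutPt : Prop := ∀ (P : Par), P.Good → ∃ C > (0 : ℝ), ∃ ε > (0 : ℝ), ∀ (h : ℝ → ℝ) (θ t R : ℝ), Adm h →
  |t - 1| ≤ ε → 0 ≤ R → |hhigh h P.K θ| ≤ R → |Hh h P.K θ| ≤ R →
  (∀ k ∈ Finset.Icc 2 P.K, |Ck h k θ| ≤ R ∧ |Sk h k θ| ≤ R) →
  |(∫ r in (1 : ℝ)..t, P.dens h r θ * r)
    - ((P.p ^ 2 - P.lam) * ((t ^ 2 - 1) / 2) + P.p * P.M * ((t ^ 2 - 1) / 2) ^ 2
        + 2 * ((t ^ 2 - 1) / 2) * P.lin h θ)|
    ≤ C * (|(t ^ 2 - 1) / 2| ^ 3 + ((t ^ 2 - 1) / 2) ^ 2 * R + |(t ^ 2 - 1) / 2| * R ^ 2)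

/-- integrated expansion of the outer part, `h = (ρ² - 1)/2` -/
def UOut : Prop := ∀ (P : Par), P.Good → ∃ C > (0 : ℝ), ∃ ε > (0 : ℝ), ∀ (ρ : ℝ → ℝ) (η : ℝ), η ≤ ε → Near ρ η →
  |(∫ θ in (0 : ℝ)..(2 * Real.pi), ∫ r in (1 : ℝ)..(ρ θ), P.dens (fun s => (ρ s ^ 2 - 1) / 2) r θ * r)
    - (P.p * P.M * (∫ θ in (0 : ℝ)..(2 * Real.pi), ((ρ θ ^ 2 - 1) / 2) ^ 2)
        + 2 * ∫ θ in (0 : ℝ)..(2 * Real.pi), ((ρ θ ^ 2 - 1) / 2) * P.lin (fun s => (ρ s ^ 2 - 1) / 2) θ)|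
    ≤ C * η * ∫ θ in (0 : ℝ)..(2 * Real.pi), ((ρ θ ^ 2 - 1) / 2) ^ 2

/-- value of the linear term -/
def ULin : Prop := ∀ (P : Par) (h : ℝ → ℝ), P.Good → Adm h →
  (∫ θ in (0 : ℝ)..(2 * Real.pi), h θ * P.lin h θ)
  = 2 * Real.pi * (∑ k ∈ Finset.Icc 2 P.K, hsq h k *
        (P.y k * (P.p ^ 2 - P.lam - k * P.p) + P.x k * (P.p ^ 2 - P.lam + k * P.p)))
    - P.p * P.M * ∫ θ in (0 : ℝ)..(2 * Real.pi), hhigh h P.K θ ^ 2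

/-- area and barycentre -/
def UBary : Prop := ∃ C > (0 : ℝ), ∀ (ρ : ℝ → ℝ) (η : ℝ), η ≤ 1 / 2 → Near ρ η →
  Adm (fun s => (ρ s ^ 2 - 1) / 2) ∧
  hsq (fun s => (ρ s ^ 2 - 1) / 2) 1 ≤ C * η * ∫ θ in (0 : ℝ)..(2 * Real.pi), ((ρ θ ^ 2 - 1) / 2) ^ 2

/-- the energy excess is negative -/
def UJ : Prop := ∀ (P : Par), P.Good → ∃ ε > (0 : ℝ), ∃ c > (0 : ℝ), ∀ (ρ : ℝ → ℝ), Near ρ ε →
  (∫ θ in (0 : ℝ)..(2 * Real.pi), ∫ r in (0 : ℝ)..(ρ θ), P.dens (fun s => (ρ s ^ 2 - 1) / 2) r θ * r)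
    ≤ -c * ∫ θ in (0 : ℝ)..(2 * Real.pi), ((ρ θ ^ 2 - 1) / 2) ^ 2

/-- size of the test function -/
def UNorm : Prop := ∀ (P : Par), P.Good → ∃ C > (0 : ℝ), ∀ (ρ : ℝ → ℝ) (η : ℝ), η ≤ 1 / 2 → Near ρ η →
  0 < (∫ x in polarDom ρ, ‖utest P (fun s => (ρ s ^ 2 - 1) / 2) x‖ ^ 2) ∧
  (∫ x in polarDom ρ, ‖utest P (fun s => (ρ s ^ 2 - 1) / 2) x‖ ^ 2) ≤ C

/-- Rayleigh quotient -/
def URay : Prop := ∀ (B : ℝ) (Ω : Set (ℝ × ℝ)) (u : ℝ × ℝ → ℂ), ContDiffOn ℝ 1 u Ω → MeasurableSet Ω → IsOpen Ω →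
  IntegrableOn (fun x => ‖u x‖ ^ 2) Ω → IntegrableOn (fun x => eden B u x) Ω → 0 < (∫ x in Ω, ‖u x‖ ^ 2) →
  lamN B Ω ≤ (∫ x in Ω, eden B u x) / ∫ x in Ω, ‖u x‖ ^ 2

/-- `polarDom ρ` is open -/
def UOpen : Prop := ∀ ρ : ℝ → ℝ, Continuous ρ → (∀ θ, 0 < ρ θ) → (∀ θ, ρ (θ + 2 * Real.pi) = ρ θ) →
  IsOpen (polarDom ρ) ∧ Bornology.IsBounded (polarDom ρ)

end Pool.Agent.MFK
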