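import Pool.Agent.Work.MP_8826fd_mp.StmtsU

/-! # Item U18: base term of the outer part -/

set_option autoImplicit false

namespace Pool.Agent.MFK

open MeasureTheory Set Filter Topology

namespace U18

theorem cg {f g : ℝ → ℝ} {f' g' x : ℝ} (h : HasDerivAt f f' x) (hfg : ∀ y, g y = f y)
    (h' : g' = f') : HasDerivAt g g' x := by
  have : g = f := funext hfg
  rw [this, h']; exact h

/-- third order Taylor bound by three mean value inequalities -/
theorem taylor3 (D D1 D2 D3 : ℝ → ℝ) (C ε : ℝ) (hε : 0 ≤ ε)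
    (h0 : ∀ t, |t - 1| ≤ ε → HasDerivAt D (D1 t) t)
    (h1 : ∀ t, |t - 1| ≤ ε → HasDerivAt D1 (D2 t) t)
    (h2 : ∀ t, |t - 1| ≤ ε → HasDerivAt D2 (D3 t) t)
    (h3 : ∀ t, |t - 1| ≤ ε → |D3 t| ≤ C)
    (z0 : D 1 = 0) (z1 : D1 1 = 0) (z2 : D2 1 = 0) (t : ℝ) (ht : |t - 1| ≤ ε) :
    |D t| ≤ C * |t - 1| ^ 3 := by
  have hC : 0 ≤ C := (abs_nonneg _).trans (h3 1 (by simpa using hε))
  set δ := |t - 1| with hδ
  have hδ0 : 0 ≤ δ := abs_nonneg _
  have conv : Convex ℝ (Metric.closedBall (1 : ℝ) δ) := convex_closedBall _ _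
  have mem : ∀ s, s ∈ Metric.closedBall (1 : ℝ) δ ↔ |s - 1| ≤ δ := by
    intro s; rw [Metric.mem_closedBall, Real.dist_eq]
  have key : ∀ (f f' : ℝ → ℝ) (K : ℝ), (∀ s, |s - 1| ≤ δ → HasDerivAt f (f' s) s) →
      (∀ s, |s - 1| ≤ δ → |f' s| ≤ K) → f 1 = 0 → ∀ s, |s - 1| ≤ δ → |f s| ≤ K * |s - 1| := by
    intro f f' K hf hK hz s hs
    have := conv.norm_image_sub_le_of_norm_hasDerivWithin_le (f := f) (f' := f') (C := K)
      (fun x hx => (hf x ((mem x).1 hx)).hasDerivWithinAt)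
      (fun x hx => by simpa [Real.norm_eq_abs] using hK x ((mem x).1 hx))
      ((mem 1).2 (by simpa using hδ0)) ((mem s).2 hs)
    simpa [Real.norm_eq_abs, hz] using this
  have e2 : ∀ s, |s - 1| ≤ δ → |D2 s| ≤ C * δ := by
    intro s hs
    have := key D2 D3 C (fun s hs => h2 s (hs.trans ht)) (fun s hs => h3 s (hs.trans ht)) z2 s hs
    exact this.trans (mul_le_mul_of_nonneg_left hs hC)
  have e1 : ∀ s, |s - 1| ≤ δ → |D1 s| ≤ C * δ * δ := by
    intro s hs
    have := key D1 D2 (C * δ) (fun s hs => h1 s (hs.trans ht)) e2 z1 s hs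
    exact this.trans (mul_le_mul_of_nonneg_left hs (by positivity))
  have e0 := key D D1 (C * δ * δ) (fun s hs => h0 s (hs.trans ht)) e1 z0 t le_rfl
  calc |D t| ≤ C * δ * δ * |t - 1| := e0
    _ = C * δ ^ 3 := by rw [← hδ]; ring

end U18

open U18 in
theorem uE0 (h : RReg) : UE0 := by
  intro P hP
  set n : ℤ := (P.m : ℤ) with hn
  have hRad := hP.data.rad n
  obtain ⟨hd, -, hcont, hpos, hf1, hdd, -, -⟩ := h P.B P.lam n (P.F n) hRad
  set f : ℝ → ℝ := radf n (P.F n) with hf
  set c : ℝ := P.F n 1 with hc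
  have hc0 : 0 < c := hRad.pos 1 (by norm_num)
  set G : ℝ → ℝ := fun r => f r / c with hG
  set G1 : ℝ → ℝ := fun r => deriv f r / c with hG1
  have hPg : P.g = G := rfl
  have dG : ∀ r, HasDerivAt G (G1 r) r := fun r => (hd r).div_const c
  have hderiv : deriv P.g = G1 := by
    funext r; rw [hPg]; exact (dG r).deriv
  set m : ℝ := (P.m : ℝ) with hm
  set B := P.B with hB
  set lam := P.lam with hlam
  have hq : ∀ r, qn B n r = m / r - B * r / 2 := by
    intro r; simp [qn, hn, hm]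
  have hPq : ∀ r, P.q r = m / r - B * r / 2 := hq
  -- derivative of G1
  have dG1 : ∀ r, 0 < r → HasDerivAt G1 (((m / r - B * r / 2) ^ 2 - lam) * G r - G1 r / r) r := by
    intro r hr
    refine cg ((hdd r hr).div_const c) (fun y => rfl) ?_
    rw [hq]
    simp only [hG, hG1]
    field_simp
  have hG1c : Continuous G1 := hcont.div_const c
  have hGc : Continuous G := by
    rw [continuous_iff_continuousAt]; exact fun r => (dG r).continuousAt
  have g1 : G 1 = 1 := by simp only [hG]; rw [hf1]; exact div_self hc0.ne'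
  have gz : G1 1 = 0 := by
    have := hP.data.zero
    simp only [dtn] at this
    exact this
  -- auxiliary functions
  set p : ℝ := P.p with hp
  set M : ℝ := P.M with hM
  have hpdef : p = B / 2 - m := rfl
  have hMdef : M = B / 2 + m := rfl
  set a : ℝ := p ^ 2 - lam with ha
  let w : ℝ → ℝ := fun t => (m / t - B * t / 2) ^ 2 - lam
  let u : ℝ → ℝ := fun t => m ^ 2 / t - m * B * t + B ^ 2 * t ^ 3 / 4 - lam * t
  let u1 : ℝ → ℝ := fun t => -(m ^ 2) / t ^ 2 - m * B + 3 * B ^ 2 * t ^ 2 / 4 - lam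
  let u2 : ℝ → ℝ := fun t => 2 * m ^ 2 / t ^ 3 + 3 * B ^ 2 * t / 2
  have huw : ∀ t, 0 < t → u t = t * w t := by
    intro t ht
    simp only [u, w]
    field_simp
    ring
  have du : ∀ t, 0 < t → HasDerivAt u (u1 t) t := by
    intro t ht
    have h1 : HasDerivAt (fun t : ℝ => m ^ 2 / t) (-(m ^ 2) / t ^ 2) t := by
      refine cg ((hasDerivAt_inv ht.ne').const_mul (m ^ 2)) (fun y => by rw [div_eq_mul_inv]) ?_
      field_simp
    have h2 : HasDerivAt (fun t : ℝ => m * B * t) (m * B) t := by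
      simpa using (hasDerivAt_id t).const_mul (m * B)
    have h3 : HasDerivAt (fun t : ℝ => B ^ 2 * t ^ 3 / 4) (3 * B ^ 2 * t ^ 2 / 4) t := by
      refine cg (((hasDerivAt_pow 3 t).const_mul (B ^ 2)).div_const 4) (fun y => rfl) ?_
      norm_num; ring
    have h4 : HasDerivAt (fun t : ℝ => lam * t) lam t := by
      simpa using (hasDerivAt_id t).const_mul lam
    exact ((h1.sub h2).add h3).sub h4
  have du1 : ∀ t, 0 < t → HasDerivAt u1 (u2 t) t := by
    intro t ht
    have h1 : HasDerivAt (fun t : ℝ => -(m ^ 2) / t ^ 2) (2 * m ^ 2 / t ^ 3) t := by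
      refine cg (((hasDerivAt_pow 2 t).inv (pow_ne_zero 2 ht.ne')).const_mul (-(m ^ 2)))
        (fun y => by simp [div_eq_mul_inv]) ?_
      have := ht.ne'
      push_cast
      field_simp
    have h3 : HasDerivAt (fun t : ℝ => 3 * B ^ 2 * t ^ 2 / 4) (3 * B ^ 2 * t / 2) t := by
      refine cg (((hasDerivAt_pow 2 t).const_mul (3 * B ^ 2)).div_const 4) (fun y => rfl) ?_
      norm_num; ring
    have := ((h1.sub_const (m * B)).add h3).sub_const lam
    exact this
  -- the primitive and its derivatives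
  let E : ℝ → ℝ := fun t => t * (G t * G1 t)
  let E1 : ℝ → ℝ := fun t => t * G1 t ^ 2 + u t * G t ^ 2
  let G2 : ℝ → ℝ := fun t => w t * G t - G1 t / t
  let E2 : ℝ → ℝ := fun t => -(G1 t ^ 2) + 4 * (u t * (G t * G1 t)) + u1 t * G t ^ 2
  let E3 : ℝ → ℝ := fun t => -(2 * G1 t * G2 t)
    + 4 * (u1 t * (G t * G1 t) + u t * (G1 t * G1 t + G t * G2 t))
    + (u2 t * G t ^ 2 + u1 t * (2 * G t * G1 t))
  have dG1' : ∀ t, 0 < t → HasDerivAt G1 (G2 t) t := dG1
  have dE : ∀ t, 0 < t → HasDerivAt E (E1 t) t := by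
    intro t ht
    refine cg ((hasDerivAt_id t).mul ((dG t).mul (dG1' t ht))) (fun y => rfl) ?_
    simp only [E1, G2, id, Pi.mul_apply]
    rw [huw t ht]
    have := ht.ne'
    field_simp
    ring
  have dE1 : ∀ t, 0 < t → HasDerivAt E1 (E2 t) t := by
    intro t ht
    refine cg (((hasDerivAt_id t).mul ((dG1' t ht).pow 2)).add ((du t ht).mul ((dG t).pow 2)))
      (fun y => rfl) ?_
    simp only [E2, G2, id, Pi.pow_apply]
    rw [huw t ht]
    have := ht.ne'
    push_cast
    field_simp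
    ring
  have dE2 : ∀ t, 0 < t → HasDerivAt E2 (E3 t) t := by
    intro t ht
    refine cg (((((dG1' t ht).pow 2).neg).add (((du t ht).mul ((dG t).mul (dG1' t ht))).const_mul 4)).add
      ((du1 t ht).mul ((dG t).pow 2))) (fun y => rfl) ?_
    simp only [E3, G2, Pi.mul_apply, Pi.pow_apply]
    push_cast
    ring
  -- comparison polynomial
  let D : ℝ → ℝ := fun t => E t - (a * ((t ^ 2 - 1) / 2) + p * M * ((t ^ 2 - 1) / 2) ^ 2)
  let D1 : ℝ → ℝ := fun t => E1 t - (a * t + p * M * ((t ^ 2 - 1) * t))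
  let D2 : ℝ → ℝ := fun t => E2 t - (a + p * M * (3 * t ^ 2 - 1))
  let D3 : ℝ → ℝ := fun t => E3 t - p * M * (6 * t)
  have hH : ∀ t : ℝ, HasDerivAt (fun t : ℝ => (t ^ 2 - 1) / 2) t t := by
    intro t
    refine cg (((hasDerivAt_pow 2 t).sub_const 1).div_const 2) (fun y => rfl) ?_
    norm_num
  have dD : ∀ t, 0 < t → HasDerivAt D (D1 t) t := by
    intro t ht
    refine cg ((dE t ht).sub (((hH t).const_mul a).add (((hH t).pow 2).const_mul (p * M))))
      (fun y => rfl) ?_
    simp only [D1]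
    push_cast
    ring
  have dD1 : ∀ t, 0 < t → HasDerivAt D1 (D2 t) t := by
    intro t ht
    have e1 : HasDerivAt (fun t : ℝ => a * t) a t := by simpa using (hasDerivAt_id t).const_mul a
    have e2 : HasDerivAt (fun t : ℝ => p * M * ((t ^ 2 - 1) * t)) (p * M * (3 * t ^ 2 - 1)) t := by
      refine cg ((((hasDerivAt_pow 2 t).sub_const 1).mul (hasDerivAt_id t)).const_mul (p * M))
        (fun y => rfl) ?_
      simp only [id]
      push_cast
      ring
    exact (dE1 t ht).sub (e1.add e2)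
  have dD2 : ∀ t, 0 < t → HasDerivAt D2 (D3 t) t := by
    intro t ht
    have e2 : HasDerivAt (fun t : ℝ => a + p * M * (3 * t ^ 2 - 1)) (p * M * (6 * t)) t := by
      refine cg (((((hasDerivAt_pow 2 t).const_mul 3).sub_const 1).const_mul (p * M)).const_add a)
        (fun y => rfl) ?_
      push_cast
      ring
    exact (dE2 t ht).sub e2
  have z0 : D 1 = 0 := by simp only [D, E]; rw [gz]; norm_num
  have z1 : D1 1 = 0 := by
    simp only [D1, E1, u]; rw [gz, g1, ha, hpdef]; ring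
  have z2 : D2 1 = 0 := by
    simp only [D2, E2, u, u1]; rw [gz, g1, ha, hpdef, hMdef]; ring
  -- bound of the third derivative
  have hcw : ContinuousOn w (Icc (1 / 2) (3 / 2)) := by
    intro t ht
    have : t ≠ 0 := by have := ht.1; positivity
    apply ContinuousAt.continuousWithinAt
    simp only [w]
    fun_prop (disch := assumption)
  have hcu : ContinuousOn u (Icc (1 / 2) (3 / 2)) := fun t ht =>
    (du t (lt_of_lt_of_le (by norm_num) ht.1)).continuousAt.continuousWithinAt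
  have hcu1 : ContinuousOn u1 (Icc (1 / 2) (3 / 2)) := fun t ht =>
    (du1 t (lt_of_lt_of_le (by norm_num) ht.1)).continuousAt.continuousWithinAt
  have hcu2 : ContinuousOn u2 (Icc (1 / 2) (3 / 2)) := by
    intro t ht
    have h0 : t ≠ 0 := by have := ht.1; positivity
    have h1 : t ^ 3 ≠ 0 := pow_ne_zero 3 h0
    apply ContinuousAt.continuousWithinAt
    simp only [u2]
    fun_prop (disch := assumption)
  have hcG2 : ContinuousOn G2 (Icc (1 / 2) (3 / 2)) := by
    have hdiv : ContinuousOn (fun t => G1 t / t) (Icc (1 / 2) (3 / 2)) := by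
      apply hG1c.continuousOn.div continuousOn_id
      intro t ht
      have := ht.1
      simp only [id]
      positivity
    exact (hcw.mul hGc.continuousOn).sub hdiv
  have hcD3 : ContinuousOn D3 (Icc (1 / 2) (3 / 2)) := by
    have cG := hGc.continuousOn (s := Icc (1 / 2 : ℝ) (3 / 2))
    have cG1 := hG1c.continuousOn (s := Icc (1 / 2 : ℝ) (3 / 2))
    simp only [D3, E3]
    fun_prop
  obtain ⟨C, hC⟩ := isCompact_Icc.exists_bound_of_continuousOn hcD3
  have hC0 : 0 ≤ C := (norm_nonneg _).trans (hC 1 (by constructor <;> norm_num))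
  refine ⟨8 * C + 1, by positivity, 1 / 2, by norm_num, ?_⟩
  intro t ht
  have htb := abs_le.1 ht
  have hpos' : ∀ s : ℝ, |s - 1| ≤ 1 / 2 → 0 < s := by
    intro s hs; have := abs_le.1 hs; linarith
  have main : |D t| ≤ C * |t - 1| ^ 3 := taylor3 D D1 D2 D3 C (1 / 2) (by norm_num)
    (fun s hs => dD s (hpos' s hs)) (fun s hs => dD1 s (hpos' s hs)) (fun s hs => dD2 s (hpos' s hs))
    (fun s hs => by
      have h' := abs_le.1 hs
      have := hC s ⟨by linarith, by linarith⟩
      simpa [Real.norm_eq_abs] using this) z0 z1 z2 t ht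
  -- the integral
  have hint : (∫ r in (1 : ℝ)..t, (deriv P.g r ^ 2 + (P.q r ^ 2 - lam) * P.g r ^ 2) * r) = E t := by
    have hsub : ∀ s ∈ uIcc 1 t, 1 / 2 ≤ s ∧ s ≤ 3 / 2 := by
      intro s hs
      rw [uIcc, mem_Icc] at hs
      constructor
      · exact le_trans (le_min (by norm_num) (by linarith)) hs.1
      · exact hs.2.trans (max_le (by norm_num) (by linarith))
    have e : ∀ s ∈ uIcc 1 t, (deriv P.g s ^ 2 + (P.q s ^ 2 - lam) * P.g s ^ 2) * s = E1 s := by
      intro s hs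
      have hs0 : 0 < s := lt_of_lt_of_le (by norm_num) (hsub s hs).1
      rw [hderiv, hPg, hPq]
      simp only [E1]
      rw [huw s hs0]
      ring
    rw [intervalIntegral.integral_congr e]
    have hE1c : ContinuousOn E1 (uIcc 1 t) := by
      intro s hs
      exact (dE1 s (lt_of_lt_of_le (by norm_num) (hsub s hs).1)).continuousAt.continuousWithinAt
    rw [intervalIntegral.integral_eq_sub_of_hasDerivAt
      (fun s hs => dE s (lt_of_lt_of_le (by norm_num) (hsub s hs).1)) hE1c.intervalIntegrable]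
    have : E 1 = 0 := by simp only [E]; rw [gz]; ring
    rw [this, sub_zero]
  rw [hint]
  have hHb : |t - 1| ≤ 2 * |(t ^ 2 - 1) / 2| := by
    have : (t ^ 2 - 1) / 2 = (t - 1) * ((t + 1) / 2) := by ring
    rw [this, abs_mul, abs_of_pos (show 0 < (t + 1) / 2 by linarith)]
    nlinarith [abs_nonneg (t - 1)]
  have h3 : |t - 1| ^ 3 ≤ 8 * |(t ^ 2 - 1) / 2| ^ 3 := by
    calc |t - 1| ^ 3 ≤ (2 * |(t ^ 2 - 1) / 2|) ^ 3 := pow_le_pow_left₀ (abs_nonneg _) hHb 3
      _ = 8 * |(t ^ 2 - 1) / 2| ^ 3 := by ring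
  have hgoal : |E t - ((P.p ^ 2 - lam) * ((t ^ 2 - 1) / 2) + P.p * P.M * ((t ^ 2 - 1) / 2) ^ 2)| ≤ C * |t - 1| ^ 3 := main
  refine hgoal.trans ?_
  have hnn : 0 ≤ |(t ^ 2 - 1) / 2| ^ 3 := by positivity
  nlinarith [mul_le_mul_of_nonneg_left h3 hC0]

end Pool.Agent.MFK
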