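import Pool.Agent.Work.MP_8826fd_mp.StmtsU

/-! # U19: pointwise expansion of the outer part -/

set_option autoImplicit false

namespace Pool.Agent.MFK

open MeasureTheory Set Filter Topology

namespace U19

/-- the compact interval around `1` -/
def II : Set ℝ := Icc (1 / 2 : ℝ) (3 / 2)

lemma isub {t : ℝ} (ht : |t - 1| ≤ 1 / 2) : uIcc 1 t ⊆ II := by
  have h := abs_le.1 ht
  intro r hr
  rcases le_total 1 t with h1 | h1
  · rw [uIcc_of_le h1] at hr
    exact ⟨by linarith [hr.1], by linarith [hr.2]⟩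
  · rw [uIcc_of_ge h1] at hr
    exact ⟨by linarith [hr.1], by linarith [hr.2]⟩

lemma abs_sub_le {t r : ℝ} (hr : r ∈ uIoc 1 t) : |r - 1| ≤ |t - 1| := by
  rcases le_total 1 t with h1 | h1
  · rw [uIoc_of_le h1] at hr
    rw [abs_of_nonneg (by linarith [hr.1]), abs_of_nonneg (by linarith)]
    linarith [hr.2]
  · rw [uIoc_of_ge h1] at hr
    rw [abs_of_nonpos (by linarith [hr.2]), abs_of_nonpos (by linarith)]
    linarith [hr.1]

lemma tau_bd {t : ℝ} (ht : |t - 1| ≤ 1 / 2) : |t - 1| ≤ 2 * |(t ^ 2 - 1) / 2| := by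
  have h := abs_le.1 ht
  have e : (t ^ 2 - 1) / 2 = (t - 1) * ((t + 1) / 2) := by ring
  rw [e, abs_mul, abs_of_pos (show 0 < (t + 1) / 2 by linarith)]
  nlinarith [abs_nonneg (t - 1)]

lemma bdd_int (Q : ℝ → ℝ) (A t : ℝ) (ht : |t - 1| ≤ 1 / 2) (hQ : ∀ r ∈ II, |Q r| ≤ A) :
    |∫ r in (1 : ℝ)..t, Q r * r| ≤ A * 3 * |(t ^ 2 - 1) / 2| := by
  have hA : 0 ≤ A := le_trans (abs_nonneg _) (hQ 1 ⟨by norm_num, by norm_num⟩)
  have h1 : ‖∫ r in (1 : ℝ)..t, Q r * r‖ ≤ (A * (3 / 2)) * |t - 1| := by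
    apply intervalIntegral.norm_integral_le_of_norm_le_const
    intro r hr
    have hr' : r ∈ II := isub ht (uIoc_subset_uIcc hr)
    rw [Real.norm_eq_abs, abs_mul]
    have h2 : |r| ≤ 3 / 2 := by
      rw [abs_of_nonneg (by linarith [hr'.1])]; exact hr'.2
    exact mul_le_mul (hQ r hr') h2 (abs_nonneg _) hA
  rw [Real.norm_eq_abs] at h1
  refine h1.trans ?_
  have h3 := tau_bd ht
  nlinarith [mul_le_mul_of_nonneg_left h3 hA]

lemma lin_int (f : ℝ → ℝ) (hf : ContDiffOn ℝ 1 f II) :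
    ∃ C, 0 ≤ C ∧ ∀ t, |t - 1| ≤ 1 / 2 →
      |(∫ r in (1 : ℝ)..t, f r * r) - f 1 * ((t ^ 2 - 1) / 2)| ≤ C * ((t ^ 2 - 1) / 2) ^ 2 := by
  obtain ⟨L, hL⟩ := hf.exists_lipschitzOnWith one_ne_zero (convex_Icc _ _) isCompact_Icc
  refine ⟨(L : ℝ) * 6, by positivity, fun t ht => ?_⟩
  have hc : ContinuousOn f (uIcc 1 t) := hf.continuousOn.mono (isub ht)
  have hi1 : IntervalIntegrable (fun r => f r * r) volume 1 t :=
    (hc.mul continuousOn_id).intervalIntegrable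
  have hi2 : IntervalIntegrable (fun r : ℝ => f 1 * r) volume 1 t :=
    (continuous_const.mul continuous_id).intervalIntegrable _ _
  have e : (∫ r in (1 : ℝ)..t, f r * r) - f 1 * ((t ^ 2 - 1) / 2)
      = ∫ r in (1 : ℝ)..t, (f r - f 1) * r := by
    have e1 : (∫ r in (1 : ℝ)..t, f 1 * r) = f 1 * ((t ^ 2 - 1) / 2) := by
      rw [intervalIntegral.integral_const_mul, integral_id]; ring
    rw [← e1, ← intervalIntegral.integral_sub hi1 hi2]
    congr 1
    funext r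
    ring
  rw [e]
  have h1 : ‖∫ r in (1 : ℝ)..t, (f r - f 1) * r‖ ≤ ((L : ℝ) * |t - 1| * (3 / 2)) * |t - 1| := by
    apply intervalIntegral.norm_integral_le_of_norm_le_const
    intro r hr
    have hr' : r ∈ II := isub ht (uIoc_subset_uIcc hr)
    rw [Real.norm_eq_abs, abs_mul]
    have h2 : |r| ≤ 3 / 2 := by
      rw [abs_of_nonneg (by linarith [hr'.1])]; exact hr'.2
    have h3 : |f r - f 1| ≤ (L : ℝ) * |t - 1| := by
      have h4 := hL.dist_le_mul r hr' 1 ⟨by norm_num, by norm_num⟩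
      rw [Real.dist_eq, Real.dist_eq] at h4
      exact h4.trans (mul_le_mul_of_nonneg_left (abs_sub_le hr) L.2)
    exact mul_le_mul h3 h2 (abs_nonneg _) (by positivity)
  rw [Real.norm_eq_abs] at h1
  refine h1.trans ?_
  have h3 := tau_bd ht
  have h5 : |t - 1| * |t - 1| ≤ (2 * |(t ^ 2 - 1) / 2|) * (2 * |(t ^ 2 - 1) / 2|) :=
    mul_le_mul h3 h3 (abs_nonneg _) (by positivity)
  have h6 : |(t ^ 2 - 1) / 2| * |(t ^ 2 - 1) / 2| = ((t ^ 2 - 1) / 2) ^ 2 := by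
    rw [← abs_mul, abs_of_nonneg (mul_self_nonneg _)]; ring
  have hL0 : (0 : ℝ) ≤ L := L.2
  nlinarith [mul_le_mul_of_nonneg_left h5 hL0]

lemma sumbd (s : Finset ℕ) (f : ℕ → ℝ → ℝ) (hf : ∀ k, Continuous (f k)) :
    ∃ A, 0 ≤ A ∧ ∀ r ∈ II, ∀ (a : ℕ → ℝ) (R : ℝ), (∀ k ∈ s, |a k| ≤ R) →
      |∑ k ∈ s, f k r * a k| ≤ A * |R| := by
  obtain ⟨A, hA⟩ := (isCompact_Icc (a := (1 / 2 : ℝ)) (b := 3 / 2)).exists_bound_of_continuousOn
    (f := fun r => ∑ k ∈ s, |f k r|) (by fun_prop)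
  refine ⟨|A|, abs_nonneg _, fun r hr a R ha => ?_⟩
  have h1 : (∑ k ∈ s, |f k r|) ≤ |A| :=
    (le_abs_self _).trans ((hA r hr).trans (le_abs_self A))
  calc |∑ k ∈ s, f k r * a k| ≤ ∑ k ∈ s, |f k r * a k| := Finset.abs_sum_le_sum_abs _ _
    _ ≤ ∑ k ∈ s, |f k r| * |R| := by
        apply Finset.sum_le_sum
        intro k hk
        rw [abs_mul]
        exact mul_le_mul_of_nonneg_left ((ha k hk).trans (le_abs_self R)) (abs_nonneg _)
    _ = (∑ k ∈ s, |f k r|) * |R| := by rw [Finset.sum_mul]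
    _ ≤ |A| * |R| := mul_le_mul_of_nonneg_right h1 (abs_nonneg _)

lemma onebd (f : ℝ → ℝ) (hf : Continuous f) :
    ∃ A, 0 ≤ A ∧ ∀ r ∈ II, |f r| ≤ A := by
  obtain ⟨A, hA⟩ := (isCompact_Icc (a := (1 / 2 : ℝ)) (b := 3 / 2)).exists_bound_of_continuousOn
    (f := f) hf.continuousOn
  exact ⟨|A|, abs_nonneg _, fun r hr => (hA r hr).trans (le_abs_self A)⟩

lemma cd_deriv {f : ℝ → ℝ} (hf : ContDiff ℝ 2 f) : ContDiff ℝ 1 (deriv f) := by
  have h : ContDiff ℝ (1 + 1) f := by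
    have : (1 + 1 : WithTop ℕ∞) = 2 := one_add_one_eq_two
    rw [this]; exact hf
  exact (contDiff_succ_iff_deriv.1 h).2.2

variable {P : Par}

lemma cd_norm (h1 : RReg) (hP : P.Good) (n : ℤ) :
    ContDiff ℝ 2 (fun r => radf n (P.F n) r / P.F n 1) :=
  ((h1 P.B P.lam n (P.F n) (hP.data.rad n)).2.1).div_const _

lemma cd_g (h1 : RReg) (hP : P.Good) : ContDiff ℝ 2 P.g := cd_norm h1 hP P.m

lemma cd_ph (h1 : RReg) (hP : P.Good) (k : ℕ) : ContDiff ℝ 2 (P.ph k) :=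
  (contDiff_const.mul (cd_norm h1 hP (P.m + k))).add (contDiff_const.mul (cd_norm h1 hP (P.m - k)))

lemma cd_ps (h1 : RReg) (hP : P.Good) (k : ℕ) : ContDiff ℝ 2 (P.ps k) :=
  (contDiff_const.mul (cd_norm h1 hP (P.m + k))).sub (contDiff_const.mul (cd_norm h1 hP (P.m - k)))

lemma cd_GG (h1 : RReg) (hP : P.Good) : ContDiff ℝ 2 P.GG :=
  contDiff_const.mul ((hP.Xs.comp (contDiff_id.pow 2)).mul (cd_g h1 hP))

lemma cd_q : ContDiffOn ℝ 1 P.q II := by
  have h : ContDiffOn ℝ 1 (fun r : ℝ => (((P.m : ℤ) : ℝ)) / r - P.B * r / 2) II := by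
    apply ContDiffOn.sub
    · apply ContDiffOn.div contDiffOn_const contDiffOn_id
      intro x hx
      exact ne_of_gt (show (0 : ℝ) < x by linarith [hx.1])
    · exact ((contDiff_const.mul contDiff_id).div_const _).contDiffOn
  exact h

lemma q_one : P.q 1 = -P.p := by
  simp only [Par.q, Par.p, qn]
  push_cast
  ring

lemma g_one (h1 : RReg) (hP : P.Good) : P.g 1 = 1 := by
  have h := (h1 P.B P.lam P.m (P.F P.m) (hP.data.rad P.m))
  have hpos : 0 < P.F P.m 1 := (hP.data.rad P.m).pos 1 zero_le_one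
  simp only [Par.g]
  rw [h.2.2.2.2.1]
  exact div_self hpos.ne'

lemma dg_one (hP : P.Good) : deriv P.g 1 = 0 := by
  have h := hP.data.zero
  have e : P.g = fun r => radf P.m (P.F P.m) r / P.F P.m 1 := rfl
  rw [e, deriv_div_const]
  exact h

/-- cross coefficients -/
noncomputable def cc (P : Par) (k : ℕ) (r : ℝ) : ℝ :=
  deriv P.g r * deriv (P.ph k) r + P.q r * P.g r * (k * P.ps k r / r + P.q r * P.ph k r)
    - P.lam * P.g r * P.ph k r

noncomputable def cH (P : Par) (r : ℝ) : ℝ := P.q r * P.g r * (P.GG r / r)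

lemma cd_inv : ContDiffOn ℝ 1 (fun r : ℝ => r⁻¹) II :=
  contDiffOn_id.inv (fun x hx => ne_of_gt (show (0 : ℝ) < x by linarith [hx.1]))

lemma cd_cc (h1 : RReg) (hP : P.Good) (k : ℕ) : ContDiffOn ℝ 1 (cc P k) II := by
  have hg : ContDiffOn ℝ 1 P.g II := ((cd_g h1 hP).of_le one_le_two).contDiffOn
  have hdg : ContDiffOn ℝ 1 (deriv P.g) II := (cd_deriv (cd_g h1 hP)).contDiffOn
  have hph : ContDiffOn ℝ 1 (P.ph k) II := ((cd_ph h1 hP k).of_le one_le_two).contDiffOn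
  have hdph : ContDiffOn ℝ 1 (deriv (P.ph k)) II := (cd_deriv (cd_ph h1 hP k)).contDiffOn
  have hps : ContDiffOn ℝ 1 (P.ps k) II := ((cd_ps h1 hP k).of_le one_le_two).contDiffOn
  have hq : ContDiffOn ℝ 1 P.q II := cd_q
  have hi : ContDiffOn ℝ 1 (fun r : ℝ => k * P.ps k r / r) II := by
    have := (contDiffOn_const (c := (k : ℝ))).mul hps |>.mul cd_inv
    exact this
  exact ((hdg.mul hdph).add ((hq.mul hg).mul (hi.add (hq.mul hph)))).sub
    ((contDiffOn_const.mul hg).mul hph)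

lemma cd_cH (h1 : RReg) (hP : P.Good) : ContDiffOn ℝ 1 (cH P) II := by
  have hg : ContDiffOn ℝ 1 P.g II := ((cd_g h1 hP).of_le one_le_two).contDiffOn
  have hG : ContDiffOn ℝ 1 P.GG II := ((cd_GG h1 hP).of_le one_le_two).contDiffOn
  have hq : ContDiffOn ℝ 1 P.q II := cd_q
  have hi : ContDiffOn ℝ 1 (fun r : ℝ => P.GG r / r) II := hG.mul cd_inv
  exact (hq.mul hg).mul hi

/-- base density -/
noncomputable def e0 (P : Par) (r : ℝ) : ℝ := deriv P.g r ^ 2 + (P.q r ^ 2 - P.lam) * P.g r ^ 2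

lemma co_e0 (h1 : RReg) (hP : P.Good) : ContinuousOn (e0 P) II := by
  have hg : ContinuousOn P.g II := (cd_g h1 hP).continuous.continuousOn
  have hdg : ContinuousOn (deriv P.g) II := (cd_deriv (cd_g h1 hP)).continuous.continuousOn
  have hq : ContinuousOn P.q II := cd_q.continuousOn
  exact (hdg.pow 2).add (((hq.pow 2).sub continuousOn_const).mul (hg.pow 2))

/-- quadratic part -/
noncomputable def qd (P : Par) (h : ℝ → ℝ) (θ r : ℝ) : ℝ :=
  Q2 (P.q r) P.lam r (P.V1r h r θ) (P.V2r h r θ) (P.V1 h r θ) (P.V2 h r θ)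
    (P.V1t h r θ) (P.V2t h r θ)

lemma co_qd (h1 : RReg) (hP : P.Good) (h : ℝ → ℝ) (θ : ℝ) : ContinuousOn (qd P h θ) II := by
  have hq : ContinuousOn P.q II := cd_q.continuousOn
  have hi : ContinuousOn (fun r : ℝ => r⁻¹) II := cd_inv.continuousOn
  have hph : ∀ k, Continuous (P.ph k) := fun k => (cd_ph h1 hP k).continuous
  have hdph : ∀ k, Continuous (deriv (P.ph k)) := fun k => (cd_deriv (cd_ph h1 hP k)).continuous
  have hps : ∀ k, Continuous (P.ps k) := fun k => (cd_ps h1 hP k).continuous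
  have hdps : ∀ k, Continuous (deriv (P.ps k)) := fun k => (cd_deriv (cd_ps h1 hP k)).continuous
  have hG : Continuous P.GG := (cd_GG h1 hP).continuous
  have hdG : Continuous (deriv P.GG) := (cd_deriv (cd_GG h1 hP)).continuous
  have a1 : Continuous (fun r => P.V1r h r θ) :=
    continuous_finsetSum _ (fun k _ => (hdph k).mul continuous_const)
  have a2 : Continuous (fun r => P.V2r h r θ) :=
    (continuous_finsetSum _ (fun k _ => (hdps k).mul continuous_const)).add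
      (hdG.mul continuous_const)
  have a3 : Continuous (fun r => P.V1 h r θ) :=
    continuous_finsetSum _ (fun k _ => (hph k).mul continuous_const)
  have a4 : Continuous (fun r => P.V2 h r θ) :=
    (continuous_finsetSum _ (fun k _ => (hps k).mul continuous_const)).add
      (hG.mul continuous_const)
  have a5 : Continuous (fun r => P.V1t h r θ) :=
    continuous_finsetSum _ (fun k _ => ((continuous_const.mul (hph k)).mul continuous_const).neg)
  have a6 : Continuous (fun r => P.V2t h r θ) :=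
    (continuous_finsetSum _ (fun k _ => (continuous_const.mul (hps k)).mul continuous_const)).add
      (hG.mul continuous_const)
  have hd : ∀ f : ℝ → ℝ, Continuous f → ContinuousOn (fun r => f r / r) II :=
    fun f hf => hf.continuousOn.mul hi
  have r5 := hd _ a5
  have r6 := hd _ a6
  unfold qd Q2
  exact ((((a1.continuousOn.pow 2).add (a2.continuousOn.pow 2)).add
    ((r5.sub (hq.mul a4.continuousOn)).pow 2)).add
    ((r6.add (hq.mul a3.continuousOn)).pow 2)).sub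
    (continuousOn_const.mul ((a3.continuousOn.pow 2).add (a4.continuousOn.pow 2)))

lemma dens_split (P : Par) (h : ℝ → ℝ) (r θ : ℝ) :
    P.dens h r θ = e0 P r + 2 * (∑ k ∈ Finset.Icc 2 P.K, Ck h k θ * cc P k r)
      + 2 * (hhigh h P.K θ * cH P r) + qd P h θ r := by
  have e : (∑ k ∈ Finset.Icc 2 P.K, Ck h k θ * cc P k r)
      = deriv P.g r * P.V1r h r θ
        + P.q r * P.g r * ((∑ k ∈ Finset.Icc 2 P.K, k * P.ps k r * Ck h k θ) / r
        + P.q r * P.V1 h r θ) - P.lam * P.g r * P.V1 h r θ := by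
    simp only [Par.V1r, Par.V1, Finset.mul_sum, Finset.sum_div, ← Finset.sum_add_distrib,
      ← Finset.sum_sub_distrib, cc]
    apply Finset.sum_congr rfl
    intro k _
    ring
  rw [e]
  simp only [Par.dens, Q2, e0, qd, cH, Par.V2t]
  ring

lemma lin_split (h1 : RReg) (hP : P.Good) (h : ℝ → ℝ) (θ : ℝ) :
    P.lin h θ = (∑ k ∈ Finset.Icc 2 P.K, Ck h k θ * cc P k 1) + hhigh h P.K θ * cH P 1 := by
  have e : (∑ k ∈ Finset.Icc 2 P.K, Ck h k θ * cc P k 1)
      = deriv P.g 1 * P.V1r h 1 θ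
        + P.q 1 * P.g 1 * ((∑ k ∈ Finset.Icc 2 P.K, k * P.ps k 1 * Ck h k θ) / 1
        + P.q 1 * P.V1 h 1 θ) - P.lam * P.g 1 * P.V1 h 1 θ := by
    simp only [Par.V1r, Par.V1, Finset.mul_sum, Finset.sum_div, ← Finset.sum_add_distrib,
      ← Finset.sum_sub_distrib, cc]
    apply Finset.sum_congr rfl
    intro k _
    ring
  rw [e, dg_one hP, g_one h1 hP, q_one]
  simp only [Par.lin, cH, Par.V2t, q_one, g_one h1 hP]
  ring

lemma Q2_bd (q lam r a b c d e f T Qb : ℝ) (hr : 1 / 2 ≤ r) (ha : |a| ≤ T) (hb : |b| ≤ T)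
    (hc : |c| ≤ T) (hd : |d| ≤ T) (he : |e| ≤ T) (hf : |f| ≤ T) (hq : |q| ≤ Qb) :
    |Q2 q lam r a b c d e f| ≤ (2 + 2 * (2 + Qb) ^ 2 + 2 * |lam|) * T ^ 2 := by
  have hT : 0 ≤ T := (abs_nonneg _).trans ha
  have hQb : 0 ≤ Qb := (abs_nonneg _).trans hq
  have sq : ∀ x y : ℝ, |x| ≤ y → x ^ 2 ≤ y ^ 2 := fun x y hxy => by
    rw [← sq_abs]; exact pow_le_pow_left₀ (abs_nonneg _) hxy 2
  have hdiv : ∀ x : ℝ, |x| ≤ T → |x / r| ≤ 2 * T := fun x hx => by
    rw [abs_div, abs_of_pos (show 0 < r by linarith), div_le_iff₀ (by linarith)]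
    nlinarith
  have hmul : ∀ x : ℝ, |x| ≤ T → |q * x| ≤ Qb * T := fun x hx => by
    rw [abs_mul]; exact mul_le_mul hq hx (abs_nonneg _) hQb
  have t1 : |e / r - q * d| ≤ (2 + Qb) * T := by
    refine (abs_sub _ _).trans ?_
    linarith [hdiv e he, hmul d hd]
  have t2 : |f / r + q * c| ≤ (2 + Qb) * T := by
    refine (abs_add_le _ _).trans ?_
    linarith [hdiv f hf, hmul c hc]
  have s1 := sq _ _ ha
  have s2 := sq _ _ hb
  have s3 := sq _ _ hc
  have s4 := sq _ _ hd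
  have s5 := sq _ _ t1
  have s6 := sq _ _ t2
  have s7 : |lam * (c ^ 2 + d ^ 2)| ≤ |lam| * (2 * T ^ 2) := by
    rw [abs_mul]
    apply mul_le_mul_of_nonneg_left _ (abs_nonneg _)
    rw [abs_of_nonneg (by positivity)]
    linarith
  have s8 := abs_le.1 s7
  unfold Q2
  rw [abs_le]
  constructor
  · nlinarith [sq_nonneg a, sq_nonneg b, sq_nonneg (e / r - q * d), sq_nonneg (f / r + q * c),
      mul_nonneg (abs_nonneg lam) (sq_nonneg T), sq_nonneg T, sq_nonneg ((2 + Qb) * T)]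
  · nlinarith [sq_nonneg a, sq_nonneg b, sq_nonneg (e / r - q * d), sq_nonneg (f / r + q * c),
      mul_nonneg (abs_nonneg lam) (sq_nonneg T), sq_nonneg T, sq_nonneg ((2 + Qb) * T)]

lemma qd_bd (h1 : RReg) (hP : P.Good) : ∃ A, 0 ≤ A ∧ ∀ (h : ℝ → ℝ) (θ R : ℝ), 0 ≤ R →
    |hhigh h P.K θ| ≤ R → |Hh h P.K θ| ≤ R →
    (∀ k ∈ Finset.Icc 2 P.K, |Ck h k θ| ≤ R ∧ |Sk h k θ| ≤ R) →
    ∀ r ∈ II, |qd P h θ r| ≤ A * R ^ 2 := by
  have hph : ∀ k, Continuous (P.ph k) := fun k => (cd_ph h1 hP k).continuous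
  have hdph : ∀ k, Continuous (deriv (P.ph k)) := fun k => (cd_deriv (cd_ph h1 hP k)).continuous
  have hps : ∀ k, Continuous (P.ps k) := fun k => (cd_ps h1 hP k).continuous
  have hdps : ∀ k, Continuous (deriv (P.ps k)) := fun k => (cd_deriv (cd_ps h1 hP k)).continuous
  have hG : Continuous P.GG := (cd_GG h1 hP).continuous
  have hdG : Continuous (deriv P.GG) := (cd_deriv (cd_GG h1 hP)).continuous
  obtain ⟨A1, A1n, hA1⟩ := sumbd (Finset.Icc 2 P.K) (fun k => deriv (P.ph k)) hdph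
  obtain ⟨A2, A2n, hA2⟩ := sumbd (Finset.Icc 2 P.K) (fun k => deriv (P.ps k)) hdps
  obtain ⟨A3, A3n, hA3⟩ := sumbd (Finset.Icc 2 P.K) (fun k => P.ph k) hph
  obtain ⟨A4, A4n, hA4⟩ := sumbd (Finset.Icc 2 P.K) (fun k => P.ps k) hps
  obtain ⟨A5, A5n, hA5⟩ := sumbd (Finset.Icc 2 P.K) (fun k r => -(k * P.ph k r))
    (fun k => (continuous_const.mul (hph k)).neg)
  obtain ⟨A6, A6n, hA6⟩ := sumbd (Finset.Icc 2 P.K) (fun k r => k * P.ps k r)
    (fun k => continuous_const.mul (hps k))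
  obtain ⟨B1, B1n, hB1⟩ := onebd P.GG hG
  obtain ⟨B2, B2n, hB2⟩ := onebd (deriv P.GG) hdG
  obtain ⟨Qb, hQb⟩ := (isCompact_Icc (a := (1 / 2 : ℝ)) (b := 3 / 2)).exists_bound_of_continuousOn
    (f := P.q) (cd_q (P := P)).continuousOn
  set T := A1 + A2 + A3 + A4 + A5 + A6 + B1 + B2 with hT
  refine ⟨(2 + 2 * (2 + Qb) ^ 2 + 2 * |P.lam|) * T ^ 2, by positivity, ?_⟩
  intro h θ R hR hh hH hk r hr
  have hC : ∀ k ∈ Finset.Icc 2 P.K, |Ck h k θ| ≤ R := fun k hk' => (hk k hk').1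
  have hS : ∀ k ∈ Finset.Icc 2 P.K, |Sk h k θ| ≤ R := fun k hk' => (hk k hk').2
  have hR' : |R| = R := abs_of_nonneg hR
  have v1 := hA1 r hr _ R hC
  have v2 := hA2 r hr _ R hS
  have v3 := hA3 r hr _ R hC
  have v4 := hA4 r hr _ R hS
  have v5 := hA5 r hr _ R hS
  have v6 := hA6 r hr _ R hC
  rw [hR'] at v1 v2 v3 v4 v5 v6
  have w1 : |P.GG r * Hh h P.K θ| ≤ B1 * R := by
    rw [abs_mul]; exact mul_le_mul (hB1 r hr) hH (abs_nonneg _) B1n
  have w2 : |deriv P.GG r * Hh h P.K θ| ≤ B2 * R := by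
    rw [abs_mul]; exact mul_le_mul (hB2 r hr) hH (abs_nonneg _) B2n
  have w3 : |P.GG r * hhigh h P.K θ| ≤ B1 * R := by
    rw [abs_mul]; exact mul_le_mul (hB1 r hr) hh (abs_nonneg _) B1n
  have mono : ∀ x y : ℝ, y ≤ T → x ≤ y * R → x ≤ T * R := fun x y hy hx =>
    hx.trans (mul_le_mul_of_nonneg_right hy hR)
  have u1 : |P.V1r h r θ| ≤ T * R := by
    refine mono _ A1 (by linarith) ?_
    exact v1
  have u2 : |P.V2r h r θ| ≤ T * R := by
    refine mono _ (A2 + B2) (by linarith) ?_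
    refine (abs_add_le _ _).trans ?_
    rw [add_mul]
    exact add_le_add v2 w2
  have u3 : |P.V1 h r θ| ≤ T * R := by
    refine mono _ A3 (by linarith) ?_
    exact v3
  have u4 : |P.V2 h r θ| ≤ T * R := by
    refine mono _ (A4 + B1) (by linarith) ?_
    refine (abs_add_le _ _).trans ?_
    rw [add_mul]
    exact add_le_add v4 w1
  have u5 : |P.V1t h r θ| ≤ T * R := by
    refine mono _ A5 (by linarith) ?_
    have e : P.V1t h r θ = ∑ k ∈ Finset.Icc 2 P.K, -(k * P.ph k r) * Sk h k θ := by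
      simp only [Par.V1t, neg_mul]
    rw [e]
    exact v5
  have u6 : |P.V2t h r θ| ≤ T * R := by
    refine mono _ (A6 + B1) (by linarith) ?_
    refine (abs_add_le _ _).trans ?_
    rw [add_mul]
    exact add_le_add v6 w3
  have := Q2_bd (P.q r) P.lam r _ _ _ _ _ _ (T * R) Qb hr.1 u1 u2 u3 u4 u5 u6 (hQb r hr)
  refine this.trans (le_of_eq ?_)
  ring

end U19

theorem uOutPt (h1 : RReg) (h2 : UE0) : UOutPt := by
  intro P hP
  obtain ⟨C0, C0p, ε0, hε0, hE⟩ := h2 P hP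
  obtain ⟨A, hA0, hA⟩ := U19.qd_bd h1 hP
  choose Cc hCc0 hCc using fun k => U19.lin_int _ (U19.cd_cc h1 hP k)
  obtain ⟨CH, hCH0, hCH⟩ := U19.lin_int _ (U19.cd_cH h1 hP)
  have hsum0 : 0 ≤ ∑ k ∈ Finset.Icc 2 P.K, Cc k := Finset.sum_nonneg (fun k _ => hCc0 k)
  refine ⟨C0 + 2 * (∑ k ∈ Finset.Icc 2 P.K, Cc k) + 2 * CH + A * 3, by positivity,
    min ε0 (1 / 2), by positivity, ?_⟩
  intro h θ t R hh ht hR b1 b2 b3
  have ht0 : |t - 1| ≤ ε0 := ht.trans (min_le_left _ _)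
  have ht1 : |t - 1| ≤ 1 / 2 := ht.trans (min_le_right _ _)
  set τ := (t ^ 2 - 1) / 2 with hτ
  have hsub := U19.isub ht1
  have ci : ∀ f : ℝ → ℝ, ContinuousOn f U19.II → IntervalIntegrable (fun r => f r * r) volume 1 t :=
    fun f hf => ((hf.mono hsub).mul continuousOn_id).intervalIntegrable
  have i0 := ci _ (U19.co_e0 h1 hP)
  have ik : ∀ k, IntervalIntegrable (fun r => U19.cc P k r * r) volume 1 t :=
    fun k => ci _ (U19.cd_cc h1 hP k).continuousOn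
  have iH := ci _ (U19.cd_cH h1 hP).continuousOn
  have iq := ci _ (U19.co_qd h1 hP h θ)
  have isum : IntervalIntegrable
      (fun r => ∑ k ∈ Finset.Icc 2 P.K, Ck h k θ * (U19.cc P k r * r)) volume 1 t := by
    apply ContinuousOn.intervalIntegrable
    apply continuousOn_finsetSum
    intro k _
    exact continuousOn_const.mul
      (((U19.cd_cc h1 hP k).continuousOn.mono hsub).mul continuousOn_id)
  have e : (∫ r in (1 : ℝ)..t, P.dens h r θ * r)
      = (∫ r in (1 : ℝ)..t, U19.e0 P r * r)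
        + 2 * (∑ k ∈ Finset.Icc 2 P.K, Ck h k θ * ∫ r in (1 : ℝ)..t, U19.cc P k r * r)
        + 2 * (hhigh h P.K θ * ∫ r in (1 : ℝ)..t, U19.cH P r * r)
        + ∫ r in (1 : ℝ)..t, U19.qd P h θ r * r := by
    have e1 : (fun r => P.dens h r θ * r) = fun r => U19.e0 P r * r
        + 2 * (∑ k ∈ Finset.Icc 2 P.K, Ck h k θ * (U19.cc P k r * r))
        + 2 * (hhigh h P.K θ * (U19.cH P r * r)) + U19.qd P h θ r * r := by
      funext r
      rw [U19.dens_split]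
      have : (∑ k ∈ Finset.Icc 2 P.K, Ck h k θ * (U19.cc P k r * r))
          = (∑ k ∈ Finset.Icc 2 P.K, Ck h k θ * U19.cc P k r) * r := by
        rw [Finset.sum_mul]
        exact Finset.sum_congr rfl (fun k _ => by ring)
      rw [this]
      ring
    rw [e1, intervalIntegral.integral_add (((i0.add (isum.const_mul 2))).add
      ((iH.const_mul _).const_mul 2)) iq, intervalIntegral.integral_add
      (i0.add (isum.const_mul 2)) ((iH.const_mul _).const_mul 2),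
      intervalIntegral.integral_add i0 (isum.const_mul 2),
      intervalIntegral.integral_const_mul, intervalIntegral.integral_const_mul,
      intervalIntegral.integral_const_mul,
      intervalIntegral.integral_finsetSum (fun k _ => (ik k).const_mul _)]
    simp only [intervalIntegral.integral_const_mul]
  have eE := hE t ht0
  have eE' : (∫ r in (1 : ℝ)..t, U19.e0 P r * r)
      = ∫ r in (1 : ℝ)..t, (deriv P.g r ^ 2 + (P.q r ^ 2 - P.lam) * P.g r ^ 2) * r := rfl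
  rw [← eE'] at eE
  have eH := hCH t ht1
  have eQ := U19.bdd_int (U19.qd P h θ) (A * R ^ 2) t ht1 (hA h θ R hR b1 b2 b3)
  rw [← hτ] at eE eH eQ
  have eS : |(∑ k ∈ Finset.Icc 2 P.K, Ck h k θ * ∫ r in (1 : ℝ)..t, U19.cc P k r * r)
      - τ * ∑ k ∈ Finset.Icc 2 P.K, Ck h k θ * U19.cc P k 1|
      ≤ (∑ k ∈ Finset.Icc 2 P.K, Cc k) * (τ ^ 2 * R) := by
    rw [Finset.mul_sum, ← Finset.sum_sub_distrib, Finset.sum_mul]
    refine (Finset.abs_sum_le_sum_abs _ _).trans (Finset.sum_le_sum ?_)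
    intro k hk
    have e2 : Ck h k θ * (∫ r in (1 : ℝ)..t, U19.cc P k r * r) - τ * (Ck h k θ * U19.cc P k 1)
        = Ck h k θ * ((∫ r in (1 : ℝ)..t, U19.cc P k r * r) - U19.cc P k 1 * τ) := by ring
    rw [e2, abs_mul]
    have e3 := hCc k t ht1
    rw [← hτ] at e3
    calc |Ck h k θ| * |(∫ r in (1 : ℝ)..t, U19.cc P k r * r) - U19.cc P k 1 * τ|
        ≤ R * (Cc k * τ ^ 2) := mul_le_mul (b3 k hk).1 e3 (abs_nonneg _) hR
      _ = Cc k * (τ ^ 2 * R) := by ring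
  have eHH : |hhigh h P.K θ * (∫ r in (1 : ℝ)..t, U19.cH P r * r) - τ * (hhigh h P.K θ * U19.cH P 1)|
      ≤ CH * (τ ^ 2 * R) := by
    have e2 : hhigh h P.K θ * (∫ r in (1 : ℝ)..t, U19.cH P r * r)
        - τ * (hhigh h P.K θ * U19.cH P 1)
        = hhigh h P.K θ * ((∫ r in (1 : ℝ)..t, U19.cH P r * r) - U19.cH P 1 * τ) := by ring
    rw [e2, abs_mul]
    calc |hhigh h P.K θ| * |(∫ r in (1 : ℝ)..t, U19.cH P r * r) - U19.cH P 1 * τ|
        ≤ R * (CH * τ ^ 2) := mul_le_mul b1 eH (abs_nonneg _) hR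
      _ = CH * (τ ^ 2 * R) := by ring
  rw [e, U19.lin_split h1 hP]
  have n1 : 0 ≤ |τ| ^ 3 := by positivity
  have n2 : 0 ≤ τ ^ 2 * R := by positivity
  have n3 : 0 ≤ |τ| * R ^ 2 := by positivity
  have k1 := abs_le.1 eE
  have k2 := abs_le.1 eS
  have k3 := abs_le.1 eHH
  have k4 := abs_le.1 eQ
  have m1 : C0 * |τ| ^ 3 + 2 * ((∑ k ∈ Finset.Icc 2 P.K, Cc k) * (τ ^ 2 * R))
      + 2 * (CH * (τ ^ 2 * R)) + A * R ^ 2 * 3 * |τ|
      ≤ (C0 + 2 * (∑ k ∈ Finset.Icc 2 P.K, Cc k) + 2 * CH + A * 3)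
        * (|τ| ^ 3 + τ ^ 2 * R + |τ| * R ^ 2) := by
    have z1 := mul_nonneg C0p.le n2
    have z2 := mul_nonneg C0p.le n3
    have z3 := mul_nonneg hsum0 n1
    have z4 := mul_nonneg hsum0 n3
    have z5 := mul_nonneg hCH0 n1
    have z6 := mul_nonneg hCH0 n3
    have z7 := mul_nonneg hA0 n1
    have z8 := mul_nonneg hA0 n2
    nlinarith
  refine le_trans ?_ m1
  rw [abs_le]
  constructor
  · nlinarith [k1.1, k2.1, k3.1, k4.1]
  · nlinarith [k1.2, k2.2, k3.2, k4.2]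

end Pool.Agent.MFK
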