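import Pool.Agent.Work.MP_8826fd_mp.StmtsU

/-! # Size of the test function (item U24) -/

set_option autoImplicit false

namespace Pool.Agent.MFK

open MeasureTheory Set Filter Topology

namespace U24

lemma cont_wmode (n : ℤ) (F : ℝ → ℝ) (hF : Continuous F) : Continuous (wmode n F) := by
  have h1 : Continuous fun z : ℝ × ℝ => ((F (z.1 ^ 2 + z.2 ^ 2) : ℝ) : ℂ) := by fun_prop
  have ha : Continuous fun z : ℝ × ℝ => (⟨z.1, z.2⟩ : ℂ) := by
    have : (fun z : ℝ × ℝ => (⟨z.1, z.2⟩ : ℂ)) = fun z => (z.1 : ℂ) + z.2 * Complex.I := by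
      funext z; exact Complex.mk_eq_add_mul_I _ _
    rw [this]; fun_prop
  have hb : Continuous fun z : ℝ × ℝ => (⟨z.1, -z.2⟩ : ℂ) := by
    have : (fun z : ℝ × ℝ => (⟨z.1, -z.2⟩ : ℂ)) = fun z => (z.1 : ℂ) + ((-z.2 : ℝ) : ℂ) * Complex.I := by
      funext z; exact Complex.mk_eq_add_mul_I _ _
    rw [this]; fun_prop
  unfold wmode
  by_cases hn : 0 ≤ n
  · simp only [hn, if_true]; exact (ha.pow _).mul h1
  · simp only [hn, if_false]; exact (hb.pow _).mul h1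

/-- the box of half side `3/2` -/
def D : Set (ℝ × ℝ) := Metric.closedBall (0 : ℝ × ℝ) (3 / 2)

lemma D_compact : IsCompact D := isCompact_closedBall _ _

lemma bd_wmode (n : ℤ) (F : ℝ → ℝ) (hF : Continuous F) (c : ℝ) :
    ∃ C : ℝ, 0 ≤ C ∧ ∀ z ∈ D, ‖wmode n F z / (c : ℝ)‖ ≤ C := by
  obtain ⟨C, hC⟩ := D_compact.exists_bound_of_continuousOn
    (f := fun z => wmode n F z / ((c : ℝ) : ℂ)) (((cont_wmode n F hF).div_const _).continuousOn)
  exact ⟨max C 0, le_max_right _ _, fun z hz => (hC z hz).trans (le_max_left _ _)⟩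

lemma bd_X (X : ℝ → ℝ) (hX : Continuous X) :
    ∃ C : ℝ, 0 ≤ C ∧ ∀ z ∈ D, |X (z.1 ^ 2 + z.2 ^ 2)| ≤ C := by
  obtain ⟨C, hC⟩ := D_compact.exists_bound_of_continuousOn
    (f := fun z : ℝ × ℝ => X (z.1 ^ 2 + z.2 ^ 2)) (by fun_prop)
  exact ⟨max C 0, le_max_right _ _, fun z hz => (hC z hz).trans (le_max_left _ _)⟩

lemma polarDom_sub (ρ : ℝ → ℝ) (η : ℝ) (hη : η ≤ 1 / 2) (hρ : Near ρ η) : polarDom ρ ⊆ D := by
  intro z hz
  have h1 := abs_le.1 (hρ.close (Complex.arg (⟨z.1, z.2⟩ : ℂ)))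
  simp only [polarDom, mem_ofPred_eq] at hz
  have h2 : ρ (Complex.arg (⟨z.1, z.2⟩ : ℂ)) ^ 2 ≤ (3 / 2) ^ 2 := by
    apply pow_le_pow_left₀ <;> linarith
  simp only [D, Metric.mem_closedBall, dist_zero_right, Prod.norm_def, Real.norm_eq_abs]
  apply max_le
  · exact abs_le_of_sq_le_sq (b := (3 / 2 : ℝ)) (by nlinarith [sq_nonneg z.2]) (by norm_num)
  · exact abs_le_of_sq_le_sq (b := (3 / 2 : ℝ)) (by nlinarith [sq_nonneg z.1]) (by norm_num)

lemma h_bd (ρ : ℝ → ℝ) (η : ℝ) (hη : η ≤ 1 / 2) (hρ : Near ρ η) (t : ℝ) :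
    |(ρ t ^ 2 - 1) / 2| ≤ 1 := by
  have h1 := abs_le.1 (hρ.close t)
  rw [abs_le]
  constructor <;> nlinarith

lemma fA_bd (h : ℝ → ℝ) (hc : Continuous h) (hb : ∀ t, |h t| ≤ 1) (k : ℕ) : |fA h k| ≤ 2 := by
  have h1 : ‖∫ t in (0 : ℝ)..(2 * Real.pi), h t * Real.cos (k * t)‖ ≤ 1 * |2 * Real.pi - 0| := by
    apply intervalIntegral.norm_integral_le_of_norm_le_const
    intro x _
    rw [norm_mul, Real.norm_eq_abs, Real.norm_eq_abs]
    exact mul_le_one₀ (hb x) (abs_nonneg _) (Real.abs_cos_le_one _)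
  rw [Real.norm_eq_abs, sub_zero, abs_of_pos Real.two_pi_pos, one_mul] at h1
  unfold fA
  rw [abs_mul, abs_of_pos (by positivity : (0 : ℝ) < 1 / Real.pi)]
  calc 1 / Real.pi * |∫ t in (0 : ℝ)..(2 * Real.pi), h t * Real.cos (k * t)|
      ≤ 1 / Real.pi * (2 * Real.pi) := by gcongr
    _ = 2 := by field_simp

lemma fB_bd (h : ℝ → ℝ) (hc : Continuous h) (hb : ∀ t, |h t| ≤ 1) (k : ℕ) : |fB h k| ≤ 2 := by
  have h1 : ‖∫ t in (0 : ℝ)..(2 * Real.pi), h t * Real.sin (k * t)‖ ≤ 1 * |2 * Real.pi - 0| := by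
    apply intervalIntegral.norm_integral_le_of_norm_le_const
    intro x _
    rw [norm_mul, Real.norm_eq_abs, Real.norm_eq_abs]
    exact mul_le_one₀ (hb x) (abs_nonneg _) (Real.abs_sin_le_one _)
  rw [Real.norm_eq_abs, sub_zero, abs_of_pos Real.two_pi_pos, one_mul] at h1
  unfold fB
  rw [abs_mul, abs_of_pos (by positivity : (0 : ℝ) < 1 / Real.pi)]
  calc 1 / Real.pi * |∫ t in (0 : ℝ)..(2 * Real.pi), h t * Real.sin (k * t)|
      ≤ 1 / Real.pi * (2 * Real.pi) := by gcongr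
    _ = 2 := by field_simp

lemma Ck_bd (h : ℝ → ℝ) (hc : Continuous h) (hb : ∀ t, |h t| ≤ 1) (k : ℕ) (θ : ℝ) :
    |Ck h k θ| ≤ 2 := by
  unfold Ck
  have h1 := fA_bd h hc hb k
  have h2 := fB_bd h hc hb k
  have h3 := Real.abs_cos_le_one (k * θ)
  have h4 := Real.abs_sin_le_one (k * θ)
  rw [abs_div, abs_two]
  have h5 : |fA h k * Real.cos (k * θ) + fB h k * Real.sin (k * θ)| ≤ 2 * 1 + 2 * 1 := by
    refine (abs_add_le _ _).trans ?_
    rw [abs_mul, abs_mul]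
    gcongr
  linarith

lemma hhigh_bd (h : ℝ → ℝ) (hc : Continuous h) (hb : ∀ t, |h t| ≤ 1) (K : ℕ) (θ : ℝ) :
    |hhigh h K θ| ≤ 1 + 4 * K := by
  unfold hhigh hlow
  have h1 : |∑ k ∈ Finset.Icc 1 K, 2 * Ck h k θ| ≤ ∑ k ∈ Finset.Icc 1 K, (4 : ℝ) := by
    refine (Finset.abs_sum_le_sum_abs _ _).trans (Finset.sum_le_sum fun k _ => ?_)
    rw [abs_mul, abs_two]
    linarith [Ck_bd h hc hb k θ]
  rw [Finset.sum_const, Nat.card_Icc, nsmul_eq_mul, Nat.add_sub_cancel] at h1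
  have h2 := abs_sub (h θ) (∑ k ∈ Finset.Icc 1 K, 2 * Ck h k θ)
  linarith [hb θ]

lemma Hh_bd (h4 : UFour5) (h : ℝ → ℝ) (ha : Adm h) (hb : ∀ t, |h t| ≤ 1) (K : ℕ) (θ : ℝ) :
    |Hh h K θ| ≤ 4 * Real.sqrt (2 * Real.pi * (1 + 4 * K) ^ 2) := by
  refine ((h4 h K ha).2.2 θ).trans ?_
  have h1 : ‖∫ t in (0 : ℝ)..(2 * Real.pi), hhigh h K t ^ 2‖ ≤ (1 + 4 * (K : ℝ)) ^ 2 * |2 * Real.pi - 0| := by
    apply intervalIntegral.norm_integral_le_of_norm_le_const
    intro x _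
    rw [norm_pow, Real.norm_eq_abs]
    exact pow_le_pow_left₀ (abs_nonneg _) (hhigh_bd h ha.cont hb K x) 2
  rw [Real.norm_eq_abs, sub_zero, abs_of_pos Real.two_pi_pos] at h1
  have h2 := (le_abs_self _).trans h1
  have h3 : Real.sqrt (∫ t in (0 : ℝ)..(2 * Real.pi), hhigh h K t ^ 2)
      ≤ Real.sqrt (2 * Real.pi * (1 + 4 * K) ^ 2) := by
    apply Real.sqrt_le_sqrt
    linarith
  linarith

/-- uniform bound of the test function on the box -/
lemma bd_utest (h4 : UFour5) (P : Par) (hP : P.Good) : ∃ C : ℝ, 0 ≤ C ∧ ∀ h : ℝ → ℝ, Adm h →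
    (∀ t, |h t| ≤ 1) → ∀ z ∈ D, ‖utest P h z‖ ≤ C := by
  have hF : ∀ n : ℤ, Continuous (P.F n) := fun n => (hP.data.rad n).smooth.continuous
  obtain ⟨C0, hC0, hb0⟩ := bd_wmode P.m (P.F P.m) (hF _) (P.F P.m 1)
  have hk1 : ∀ k : ℕ, ∃ C : ℝ, 0 ≤ C ∧ ∀ z ∈ D,
      ‖wmode (P.m + k) (P.F (P.m + k)) z / (P.F (P.m + k) 1 : ℝ)‖ ≤ C :=
    fun k => bd_wmode _ _ (hF _) _
  have hk2 : ∀ k : ℕ, ∃ C : ℝ, 0 ≤ C ∧ ∀ z ∈ D,
      ‖wmode (P.m - k) (P.F (P.m - k)) z / (P.F (P.m - k) 1 : ℝ)‖ ≤ C :=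
    fun k => bd_wmode _ _ (hF _) _
  choose C1 hC1 hb1 using hk1
  choose C2 hC2 hb2 using hk2
  obtain ⟨CX, hCX, hbX⟩ := bd_X P.X hP.Xs.continuous
  set CH : ℝ := 4 * Real.sqrt (2 * Real.pi * (1 + 4 * P.K) ^ 2) with hCH
  have hCH0 : 0 ≤ CH := by positivity
  refine ⟨C0 + (∑ k ∈ Finset.Icc 2 P.K, (|P.y k| * 2 * C1 k + |P.x k| * 2 * C2 k))
    + |P.M| * (CX * CH) * C0, ?_, ?_⟩
  · have : 0 ≤ ∑ k ∈ Finset.Icc 2 P.K, (|P.y k| * 2 * C1 k + |P.x k| * 2 * C2 k) :=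
      Finset.sum_nonneg fun k _ => by
        have := hC1 k; have := hC2 k; positivity
    positivity
  intro h ha hb z hz
  unfold utest
  refine (norm_add_le _ _).trans (add_le_add ((norm_add_le _ _).trans (add_le_add (hb0 z hz) ?_)) ?_)
  · refine (norm_sum_le _ _).trans (Finset.sum_le_sum fun k _ => ?_)
    have hfa := fA_bd h ha.cont hb k
    have hfb := fB_bd h ha.cont hb k
    have e1 : ‖((fA h k : ℂ) - Complex.I * fB h k) / 2‖ ≤ 2 := by
      rw [norm_div]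
      have : ‖((fA h k : ℂ) - Complex.I * fB h k)‖ ≤ 2 + 2 := by
        refine (norm_sub_le _ _).trans (add_le_add ?_ ?_)
        · rw [Complex.norm_real]; exact hfa
        · rw [norm_mul, Complex.norm_I, one_mul, Complex.norm_real]; exact hfb
      have e2 : ‖(2 : ℂ)‖ = 2 := by simp
      rw [e2]; linarith
    have e2 : ‖((fA h k : ℂ) + Complex.I * fB h k) / 2‖ ≤ 2 := by
      rw [norm_div]
      have : ‖((fA h k : ℂ) + Complex.I * fB h k)‖ ≤ 2 + 2 := by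
        refine (norm_add_le _ _).trans (add_le_add ?_ ?_)
        · rw [Complex.norm_real]; exact hfa
        · rw [norm_mul, Complex.norm_I, one_mul, Complex.norm_real]; exact hfb
      have e2 : ‖(2 : ℂ)‖ = 2 := by simp
      rw [e2]; linarith
    refine (norm_add_le _ _).trans (add_le_add ?_ ?_)
    · rw [norm_mul, norm_mul, Complex.norm_real, Real.norm_eq_abs]
      have := hb1 k z hz
      have := hC1 k
      gcongr
    · rw [norm_mul, norm_mul, Complex.norm_real, Real.norm_eq_abs]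
      have := hb2 k z hz
      have := hC2 k
      gcongr
  · rw [norm_mul, norm_mul, norm_mul, Complex.norm_I, one_mul, Complex.norm_real, Complex.norm_real,
      Real.norm_eq_abs, Real.norm_eq_abs]
    have e1 := hb0 z hz
    have e2 : |wang P.X (Hh h P.K) z| ≤ CX * CH := by
      unfold wang
      rw [abs_mul]
      exact mul_le_mul (hbX z hz) (Hh_bd h4 h ha hb P.K _) (abs_nonneg _) hCX
    gcongr

lemma int_Ck (h : ℝ → ℝ) (k : ℕ) (hk : 1 ≤ k) :
    (∫ θ in (0 : ℝ)..(2 * Real.pi), Ck h k θ) = 0 := by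
  have hk0 : (k : ℝ) ≠ 0 := by positivity
  have e1 : (∫ θ in (0 : ℝ)..(2 * Real.pi), Real.cos (k * θ)) = 0 := by
    rw [intervalIntegral.integral_comp_mul_left (fun x => Real.cos x) hk0, integral_cos]
    have : Real.sin (k * (2 * Real.pi)) = 0 := by
      have := Real.sin_nat_mul_pi (2 * k)
      push_cast at this
      rw [← this]; congr 1; ring
    simp [this]
  have e2 : (∫ θ in (0 : ℝ)..(2 * Real.pi), Real.sin (k * θ)) = 0 := by
    rw [intervalIntegral.integral_comp_mul_left (fun x => Real.sin x) hk0, integral_sin]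
    have : Real.cos (k * (2 * Real.pi)) = 1 := Real.cos_nat_mul_two_pi k
    simp [this]
  have e3 : (fun θ => Ck h k θ) = fun θ => (fA h k / 2) * Real.cos (k * θ) + (fB h k / 2) * Real.sin (k * θ) := by
    funext θ; unfold Ck; ring
  rw [e3, intervalIntegral.integral_add, intervalIntegral.integral_const_mul,
    intervalIntegral.integral_const_mul, e1, e2]
  · simp
  · apply Continuous.intervalIntegrable; fun_prop
  · apply Continuous.intervalIntegrable; fun_prop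

lemma cont_Ck (h : ℝ → ℝ) (k : ℕ) : Continuous (fun θ => Ck h k θ) := by
  unfold Ck; fun_prop

lemma exists_ne (P : Par) (h : ℝ → ℝ) (r : ℝ) (hg : 0 < P.g r) :
    ∃ θ : ℝ, P.g r + P.V1 h r θ ≠ 0 := by
  by_contra hcon
  push Not at hcon
  have e1 : (∫ θ in (0 : ℝ)..(2 * Real.pi), (P.g r + P.V1 h r θ)) = 0 := by
    simp [hcon]
  have e2 : (∫ θ in (0 : ℝ)..(2 * Real.pi), P.V1 h r θ) = 0 := by
    unfold Par.V1
    rw [intervalIntegral.integral_finsetSum]
    · apply Finset.sum_eq_zero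
      intro k hk
      rw [intervalIntegral.integral_const_mul, int_Ck h k (by have := (Finset.mem_Icc.1 hk).1; omega), mul_zero]
    · intro k _
      exact ((cont_Ck h k).const_mul _).intervalIntegrable _ _
  have hc : Continuous fun θ => P.V1 h r θ := by
    unfold Par.V1
    exact continuous_finsetSum _ fun k _ => (cont_Ck h k).const_mul _
  rw [intervalIntegral.integral_add (by apply Continuous.intervalIntegrable; fun_prop)
    (hc.intervalIntegrable _ _), e2, intervalIntegral.integral_const] at e1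
  simp only [sub_zero, smul_eq_mul, add_zero] at e1
  have := Real.pi_pos
  rcases mul_eq_zero.1 e1 with h | h <;> linarith

lemma pt_mem (ρ : ℝ → ℝ) (η : ℝ) (hη : η ≤ 1 / 2) (hρ : Near ρ η) (θ : ℝ) :
    pt (1 / 4) θ ∈ polarDom ρ := by
  simp only [polarDom, pt, mem_ofPred_eq]
  set a := ρ (Complex.arg (⟨1 / 4 * Real.cos θ, 1 / 4 * Real.sin θ⟩ : ℂ)) with ha
  have h1 : |a - 1| ≤ η := hρ.close _
  have h2 := abs_le.1 h1
  have h3 := Real.sin_sq_add_cos_sq θ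
  nlinarith

lemma norm_utest (h1 : UTest) (P : Par) (h : ℝ → ℝ) (hP : P.Good) (ha : Adm h) (r θ : ℝ) (hr : 0 < r) :
    ‖utest P h (pt r θ)‖ ^ 2 = (P.g r + P.V1 h r θ) ^ 2 + P.V2 h r θ ^ 2 := by
  rw [(h1 P h hP ha).2 r θ hr, norm_mul]
  have e1 : ‖Complex.exp (Complex.I * P.m * θ)‖ = 1 := by
    have : Complex.I * P.m * θ = ((P.m * θ : ℝ) : ℂ) * Complex.I := by push_cast; ring
    rw [this, Complex.norm_exp_ofReal_mul_I]
  rw [e1, one_mul, ← Complex.normSq_eq_norm_sq, mul_comm Complex.I, Complex.normSq_add_mul_I]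

end U24

open U24 in
theorem uNorm (h1 : UTest) (h2 : PInt) (h3 : UFour2) (h4 : UFour5) (h5 : RReg) (h6 : UOpen)
    (h7 : UBary) : UNorm := by
  intro P hP
  obtain ⟨C, hC0, hC⟩ := bd_utest h4 P hP
  refine ⟨C ^ 2 * (volume D).toReal + 1, by positivity, ?_⟩
  intro ρ η hη hρ
  obtain ⟨Cb, hCb, hbary⟩ := h7
  set h : ℝ → ℝ := fun s => (ρ s ^ 2 - 1) / 2 with hh
  have ha : Adm h := (hbary ρ η hη hρ).1
  have hb : ∀ t, |h t| ≤ 1 := h_bd ρ η hη hρ
  have hcont : Continuous (utest P h) := (h1 P h hP ha).1.continuous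
  have hfc : Continuous fun x => ‖utest P h x‖ ^ 2 := by fun_prop
  have hsub := polarDom_sub ρ η hη hρ
  have hpos : ∀ θ, 0 < ρ θ := fun θ => by
    have := abs_le.1 (hρ.close θ); linarith
  have hopen := (h6 ρ hρ.cont hpos hρ.per).1
  have hint : IntegrableOn (fun x => ‖utest P h x‖ ^ 2) (polarDom ρ) :=
    (hfc.continuousOn.integrableOn_compact D_compact).mono_set hsub
  have hDfin : volume D < ⊤ := D_compact.measure_lt_top
  constructor
  · rw [setIntegral_pos_iff_support_of_nonneg_ae (Filter.Eventually.of_forall fun x => by positivity) hint]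
    have hg : 0 < P.g (1 / 4) := by
      unfold Par.g
      have e1 := (h5 P.B P.lam P.m (P.F P.m) (hP.data.rad _)).2.2.2.1 (1 / 4) (by norm_num)
      have e2 := (hP.data.rad P.m).pos 1 zero_le_one
      positivity
    obtain ⟨θ, hθ⟩ := exists_ne P h (1 / 4) hg
    have hso : IsOpen (Function.support (fun x => ‖utest P h x‖ ^ 2) ∩ polarDom ρ) :=
      (hfc.isOpen_support).inter hopen
    refine hso.measure_pos volume ⟨pt (1 / 4) θ, ?_, pt_mem ρ η hη hρ θ⟩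
    rw [Function.mem_support, norm_utest h1 P h hP ha _ _ (by norm_num)]
    have := sq_nonneg (P.V2 h (1 / 4) θ)
    have := pow_pos (abs_pos.2 hθ) 2
    rw [sq_abs] at this
    linarith
  · have e1 : ‖∫ x in polarDom ρ, ‖utest P h x‖ ^ 2‖ ≤ C ^ 2 * volume.real (polarDom ρ) := by
      apply norm_setIntegral_le_of_norm_le_const ((measure_mono hsub).trans_lt hDfin)
      intro x hx
      rw [norm_pow, norm_norm]
      exact pow_le_pow_left₀ (norm_nonneg _) (hC h ha hb x (hsub hx)) 2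
    have e2 : volume.real (polarDom ρ) ≤ (volume D).toReal :=
      ENNReal.toReal_mono hDfin.ne (measure_mono hsub)
    have e3 := (le_abs_self _).trans e1
    have e4 : C ^ 2 * volume.real (polarDom ρ) ≤ C ^ 2 * (volume D).toReal := by gcongr
    linarith

end Pool.Agent.MFK
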