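import Pool.Agent.Work.MP_8826fd_mp.Bd.B04
import Pool.Agent.Work.MP_8826fd_mp.Bd.B01
import Pool.Agent.Work.MP_8826fd_mp.Bd.B02
import Pool.Agent.Work.MP_8826fd_mp.Bd.B03
import Pool.Agent.Work.MP_8826fd_mp.U18
import Pool.Agent.Work.MP_8826fd_mp.U19
import Pool.Agent.Work.MP_8826fd_mp.U24

/-! # Assembly: everything except the algebraic lemma -/

set_option autoImplicit false

namespace Pool.Agent.MFK

namespace Asm

theorem kUp : KUp := (kUpDown kSum).1
theorem kDown : KDown := (kUpDown kSum).2
theorem kDer' : KDer := kDer kSum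
theorem kDer2' : KDer2 := kDer2 kDer'
theorem kSmooth' : KSmooth := kSmooth kDer'
theorem kOde' : KOde := kOde kUp kDown kDer' kDer2'
theorem kPos : KPos := (kPosBd kSum kUp).1
theorem kBd : KBd := (kPosBd kSum kUp).2
theorem kCont' : KCont := kCont kSum
theorem kF4 : KF4 := (kCS kSum).1
theorem kF5 : KF5 := (kCS kSum).2
theorem rRad' : RRad := rRad kSmooth' kPos kOde' kDer' kDer2'
theorem rVal' : RVal := rVal kDer' kPos
theorem rUp' : RUp := rUp kDer' kUp
theorem rDown' : RDown := rDown kDer' kDown
theorem rSign' : RSign := rSign rVal' kPos kBd kUp rRad' rReg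
theorem rCont' : RCont := rCont rVal' kCont'
theorem rGround' : RGround := rGround rSign' rCont'
theorem rF' : RF := rF rVal' kPos kBd kOde' kF4 kF5

/-- spectral data -/
theorem stSpec : StSpec := spec rRad' rUp' rDown' (rRec rReg).1 (rRec rReg).2 rGround' rF'

/-- lower bound -/
theorem stLB : StLB :=
  lB (lFun pDens pIntD lBessel lPars lCoef lZero (lRad rReg (lPicone rReg)) rReg)

theorem uTest' : UTest := uTest uMode uAngular uFour2
theorem uDer' : UDer := uDer rReg uFour2
theorem uDens' : UDens := uDens uTest' uDer' pDens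
theorem uCont' : UCont := uCont uTest' uDens'
theorem uInt' : UInt := uInt uCont'
theorem uPolar' : UPolar := uPolar uTest' uDens' pInt uOpen
theorem uFour3' : UFour3 := uFour3 uFour2 lPars
theorem uFour5' : UFour5 := uFour5 uFour1 uFour2
theorem uDisc' : UDisc := uDisc uCont' (uDiscA (uAng uFour2) uFour2 rReg) (uEn rReg) (uPh rReg) rReg
theorem uOut' : UOut := uOut (uOutPt rReg (uE0 rReg)) uFour5' uInt' uBary uFour1 uFour2
theorem uJ' : UJ := uJ uDisc' uOut' (uLin uFour4 uFour2) uBary uFour1 uFour3' uInt'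
theorem uNorm' : UNorm := uNorm uTest' pInt uFour2 uFour5' rReg uOpen uBary

/-- upper bound -/
theorem stUB : StUB := uB (uPar rReg) uPolar' uJ' uNorm' uRay uOpen uBary uTest'

theorem main (h : StAL) : StMain := main_of stSpec h stLB stUB

end Asm

end Pool.Agent.MFK
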