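import Pool.Agent.Work.MP_8826fd_mp.Defs

/-!
# [8826fd Sc] scaling and translation of the lowest magnetic Neumann eigenvalue
-/

set_option autoImplicit false

namespace Pool.Agent.MFK

open MeasureTheory Set Filter Topology
open scoped Pointwise

namespace Sc

/-- the set of the values of the energy -/
def S (B : ℝ) (Ω : Set (ℝ × ℝ)) : Set ℝ :=
  {q : ℝ | ∃ u : ℝ × ℝ → ℂ, ContDiffOn ℝ 1 u Ω ∧
      IntegrableOn (fun x => ‖u x‖ ^ 2) Ω ∧ IntegrableOn (fun x => eden B u x) Ω ∧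
      (∫ x in Ω, ‖u x‖ ^ 2) = 1 ∧ q = ∫ x in Ω, eden B u x}

/-- the affine map -/
def aff (x0 : ℝ × ℝ) (R : ℝ) (x : ℝ × ℝ) : ℝ × ℝ := x0 + R • x

/-- the phase -/
noncomputable def ph (B : ℝ) (x0 x : ℝ × ℝ) : ℂ :=
  Complex.exp (Complex.I * ((B / 2 * (x0.1 * x.2 - x0.2 * x.1) : ℝ) : ℂ))

/-- the transplanted function -/
noncomputable def gau (B R : ℝ) (x0 : ℝ × ℝ) (v : ℝ × ℝ → ℂ) (x : ℝ × ℝ) : ℂ :=
  ((R⁻¹ : ℝ) : ℂ) * (ph B x0 x * v (R⁻¹ • (x - x0)))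

theorem norm_ph (B : ℝ) (x0 x : ℝ × ℝ) : ‖ph B x0 x‖ = 1 := by
  unfold ph
  rw [mul_comm, Complex.norm_exp_ofReal_mul_I]

theorem aff_inv {R : ℝ} (hR : 0 < R) (x0 x : ℝ × ℝ) : R⁻¹ • (aff x0 R x - x0) = x := by
  unfold aff
  rw [add_sub_cancel_left, inv_smul_smul₀ hR.ne']

theorem aff_inj {R : ℝ} (hR : 0 < R) (x0 : ℝ × ℝ) : Function.Injective (aff x0 R) := by
  intro x y h
  have h1 := congrArg (fun z => R⁻¹ • (z - x0)) h
  simpa only [aff_inv hR] using h1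

theorem aff_image {R : ℝ} (hR : 0 < R) (x0 : ℝ × ℝ) (Om : Set (ℝ × ℝ)) :
    aff x0 R '' Om = (fun x => R⁻¹ • (x - x0)) ⁻¹' Om := by
  ext x
  constructor
  · rintro ⟨y, hy, rfl⟩
    show R⁻¹ • (aff x0 R y - x0) ∈ Om
    rw [aff_inv hR]
    exact hy
  · intro hx
    refine ⟨R⁻¹ • (x - x0), hx, ?_⟩
    unfold aff
    rw [smul_inv_smul₀ hR.ne', add_sub_cancel]

theorem hasFDeriv_gau (B R : ℝ) (x0 : ℝ × ℝ) (v : ℝ × ℝ → ℂ) (x : ℝ × ℝ)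
    (hv : DifferentiableAt ℝ v (R⁻¹ • (x - x0))) (w : ℝ × ℝ) :
    fderiv ℝ (gau B R x0 v) x w = ((R⁻¹ : ℝ) : ℂ) *
      (ph B x0 x * fderiv ℝ v (R⁻¹ • (x - x0)) (R⁻¹ • w) +
        v (R⁻¹ • (x - x0)) * (ph B x0 x *
          (Complex.I * ((B / 2 * (x0.1 * w.2 - x0.2 * w.1) : ℝ) : ℂ)))) := by
  have h1 : HasFDerivAt (fun x : ℝ × ℝ => B / 2 * (x0.1 * x.2 - x0.2 * x.1))
      ((B / 2) • (x0.1 • ContinuousLinearMap.snd ℝ ℝ ℝ - x0.2 • ContinuousLinearMap.fst ℝ ℝ ℝ)) x :=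
    ((hasFDerivAt_snd.const_mul x0.1).sub (hasFDerivAt_fst.const_mul x0.2)).const_mul (B / 2)
  have h2 := (Complex.ofRealCLM.hasFDerivAt (x := B / 2 * (x0.1 * x.2 - x0.2 * x.1))).comp x h1
  have h3 := h2.const_mul Complex.I
  have h4 := h3.cexp
  have h5 : HasFDerivAt (fun x : ℝ × ℝ => R⁻¹ • (x - x0))
      (R⁻¹ • ContinuousLinearMap.id ℝ (ℝ × ℝ)) x := ((hasFDerivAt_id x).sub_const x0).const_smul R⁻¹
  have h6 := hv.hasFDerivAt.comp x h5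
  have h7 := (h4.mul h6).const_mul ((R⁻¹ : ℝ) : ℂ)
  have h8 : HasFDerivAt (gau B R x0 v) _ x := h7
  rw [h8.fderiv]
  simp only [Function.comp_apply, _root_.smul_apply, _root_.add_apply,
    ContinuousLinearMap.comp_apply, _root_.sub_apply, ContinuousLinearMap.coe_fst',
    ContinuousLinearMap.coe_snd', ContinuousLinearMap.id_apply, smul_eq_mul,
    Complex.ofRealCLM_apply, ph]

theorem eden_gau (B R : ℝ) (hR : 0 < R) (x0 : ℝ × ℝ) (v : ℝ × ℝ → ℂ) (y : ℝ × ℝ)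
    (hv : DifferentiableAt ℝ v y) :
    eden B (gau B R x0 v) (aff x0 R y) = (R ^ 2)⁻¹ ^ 2 * eden (B * R ^ 2) v y := by
  have hR' : (R : ℂ) ≠ 0 := by exact_mod_cast hR.ne'
  have hv' : DifferentiableAt ℝ v (R⁻¹ • (aff x0 R y - x0)) := by rw [aff_inv hR]; exact hv
  unfold eden
  rw [hasFDeriv_gau B R x0 v _ hv', hasFDeriv_gau B R x0 v _ hv']
  rw [map_smul, map_smul]
  simp only [aff_inv hR, gau]
  generalize fderiv ℝ v y (1, 0) = v1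
  generalize fderiv ℝ v y (0, 1) = v2
  have e1 : ((R⁻¹ : ℝ) : ℂ) * (ph B x0 (aff x0 R y) * (R⁻¹ • v1) + v y *
      (ph B x0 (aff x0 R y) * (Complex.I * ((B / 2 * (x0.1 * (0 : ℝ) - x0.2 * 1) : ℝ) : ℂ)))) -
      Complex.I * ((-(B * (aff x0 R y).2 / 2) : ℝ) : ℂ) *
        (((R⁻¹ : ℝ) : ℂ) * (ph B x0 (aff x0 R y) * v y)) =
      (((R ^ 2)⁻¹ : ℝ) : ℂ) * ph B x0 (aff x0 R y) *
        (v1 - Complex.I * ((-(B * R ^ 2 * y.2 / 2) : ℝ) : ℂ) * v y) := by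
    have h2 : (aff x0 R y).2 = x0.2 + R * y.2 := rfl
    rw [h2, Complex.real_smul]
    push_cast
    field_simp
    ring
  have e2 : ((R⁻¹ : ℝ) : ℂ) * (ph B x0 (aff x0 R y) * (R⁻¹ • v2) + v y *
      (ph B x0 (aff x0 R y) * (Complex.I * ((B / 2 * (x0.1 * 1 - x0.2 * (0 : ℝ)) : ℝ) : ℂ)))) -
      Complex.I * ((B * (aff x0 R y).1 / 2 : ℝ) : ℂ) *
        (((R⁻¹ : ℝ) : ℂ) * (ph B x0 (aff x0 R y) * v y)) =
      (((R ^ 2)⁻¹ : ℝ) : ℂ) * ph B x0 (aff x0 R y) *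
        (v2 - Complex.I * ((B * R ^ 2 * y.1 / 2 : ℝ) : ℂ) * v y) := by
    have h2 : (aff x0 R y).1 = x0.1 + R * y.1 := rfl
    rw [h2, Complex.real_smul]
    push_cast
    field_simp
    ring
  rw [e1, e2, norm_mul, norm_mul, norm_mul, norm_mul, norm_ph, Complex.norm_real,
    Real.norm_of_nonneg (by positivity)]
  ring

theorem norm_gau (B R : ℝ) (hR : 0 < R) (x0 : ℝ × ℝ) (v : ℝ × ℝ → ℂ) (y : ℝ × ℝ) :
    ‖gau B R x0 v (aff x0 R y)‖ ^ 2 = (R ^ 2)⁻¹ * ‖v y‖ ^ 2 := by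
  unfold gau
  rw [aff_inv hR, norm_mul, norm_mul, norm_ph, Complex.norm_real,
    Real.norm_of_nonneg (by positivity)]
  rw [one_mul, mul_pow, inv_pow]

theorem hasFDeriv_aff (x0 : ℝ × ℝ) (R : ℝ) (s : Set (ℝ × ℝ)) (x : ℝ × ℝ) :
    HasFDerivWithinAt (aff x0 R) (R • ContinuousLinearMap.id ℝ (ℝ × ℝ)) s x :=
  (((hasFDerivAt_id x).const_smul R).const_add x0).hasFDerivWithinAt

theorem det_aff (R : ℝ) (hR : 0 < R) :
    |(R • ContinuousLinearMap.id ℝ (ℝ × ℝ)).det| = R ^ 2 := by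
  have h1 : (R • ContinuousLinearMap.id ℝ (ℝ × ℝ)).det = R ^ 2 := by
    show LinearMap.det ((R • ContinuousLinearMap.id ℝ (ℝ × ℝ) : (ℝ × ℝ) →L[ℝ] (ℝ × ℝ)) :
      (ℝ × ℝ) →ₗ[ℝ] (ℝ × ℝ)) = R ^ 2
    have h2 : ((R • ContinuousLinearMap.id ℝ (ℝ × ℝ) : (ℝ × ℝ) →L[ℝ] (ℝ × ℝ)) :
      (ℝ × ℝ) →ₗ[ℝ] (ℝ × ℝ)) = R • LinearMap.id := rfl
    rw [h2, LinearMap.det_smul]
    simp
  rw [h1, abs_of_pos (by positivity)]

theorem step (B R : ℝ) (x0 : ℝ × ℝ) (Om : Set (ℝ × ℝ)) (hR : 0 < R) (hO : IsOpen Om) (q : ℝ)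
    (hq : q ∈ S (B * R ^ 2) Om) : (R ^ 2)⁻¹ * q ∈ S B (aff x0 R '' Om) := by
  obtain ⟨v, hv1, hv2, hv3, hv4, rfl⟩ := hq
  have hR2 : (R ^ 2) ≠ 0 := by positivity
  have hd : ∀ y ∈ Om, DifferentiableAt ℝ v y := fun y hy =>
    (hv1.differentiableOn one_ne_zero).differentiableAt (hO.mem_nhds hy)
  have hint : ∀ g : ℝ × ℝ → ℝ, (IntegrableOn g (aff x0 R '' Om) ↔
      IntegrableOn (fun y => R ^ 2 * g (aff x0 R y)) Om) ∧
      ∫ x in aff x0 R '' Om, g x = ∫ y in Om, R ^ 2 * g (aff x0 R y) := by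
    intro g
    have h1 := integrableOn_image_iff_integrableOn_abs_det_fderiv_smul (volume : Measure (ℝ × ℝ))
      hO.measurableSet (fun x _ => hasFDeriv_aff x0 R Om x) (aff_inj hR x0).injOn g
    have h2 := integral_image_eq_integral_abs_det_fderiv_smul (volume : Measure (ℝ × ℝ))
      hO.measurableSet (fun x _ => hasFDeriv_aff x0 R Om x) (aff_inj hR x0).injOn g
    simp only [det_aff R hR, smul_eq_mul] at h1 h2
    exact ⟨h1, h2⟩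
  have hn : ∀ y, R ^ 2 * ‖gau B R x0 v (aff x0 R y)‖ ^ 2 = ‖v y‖ ^ 2 := by
    intro y
    rw [norm_gau B R hR, ← mul_assoc, mul_inv_cancel₀ hR2, one_mul]
  have he : EqOn (fun y => R ^ 2 * eden B (gau B R x0 v) (aff x0 R y))
      (fun y => (R ^ 2)⁻¹ * eden (B * R ^ 2) v y) Om := by
    intro y hy
    show R ^ 2 * eden B (gau B R x0 v) (aff x0 R y) = (R ^ 2)⁻¹ * eden (B * R ^ 2) v y
    rw [eden_gau B R hR x0 v y (hd y hy)]
    field_simp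
  refine ⟨gau B R x0 v, ?_, ?_, ?_, ?_, ?_⟩
  · rw [aff_image hR]
    have h1 : ContDiff ℝ 1 (fun x : ℝ × ℝ => R⁻¹ • (x - x0)) := by fun_prop
    have h2 : ContDiff ℝ 1 (fun x : ℝ × ℝ => ph B x0 x) := by
      unfold ph
      apply ContDiff.cexp
      apply ContDiff.mul contDiff_const
      have h4 : ContDiff ℝ 1 (fun x : ℝ × ℝ => B / 2 * (x0.1 * x.2 - x0.2 * x.1)) :=
        contDiff_const.mul ((contDiff_const.mul contDiff_snd).sub (contDiff_const.mul contDiff_fst))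
      exact Complex.ofRealCLM.contDiff.comp h4
    have h3 : ContDiffOn ℝ 1 (fun x : ℝ × ℝ => v (R⁻¹ • (x - x0)))
        ((fun x => R⁻¹ • (x - x0)) ⁻¹' Om) := hv1.comp h1.contDiffOn (fun x hx => hx)
    exact contDiffOn_const.mul (h2.contDiffOn.mul h3)
  · rw [(hint _).1]
    simp only [hn]
    exact hv2
  · rw [(hint _).1, integrableOn_congr_fun he hO.measurableSet]
    exact hv3.const_mul _
  · rw [(hint _).2]
    simp only [hn]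
    exact hv4
  · rw [(hint _).2, setIntegral_congr_fun hO.measurableSet he, integral_const_mul]

end Sc

theorem sc (B R : ℝ) (x0 : ℝ × ℝ) (Om : Set (ℝ × ℝ)) (hR : 0 < R) (hO : IsOpen Om) :
    lamN B ((fun x => x0 + R • x) '' Om) = (R ^ 2)⁻¹ * lamN (B * R ^ 2) Om := by
  have hR2 : (R ^ 2) ≠ 0 := by positivity
  have hO' : IsOpen (Sc.aff x0 R '' Om) := by
    rw [Sc.aff_image hR]
    exact hO.preimage (by fun_prop)
  have h1 : Sc.S B (Sc.aff x0 R '' Om) = (R ^ 2)⁻¹ • Sc.S (B * R ^ 2) Om := by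
    ext q
    rw [Set.mem_smul_set]
    constructor
    · intro hq
      refine ⟨R ^ 2 * q, ?_, ?_⟩
      · have h2 := Sc.step (B * R ^ 2) R⁻¹ (-(R⁻¹ • x0)) (Sc.aff x0 R '' Om) (inv_pos.2 hR) hO' q
          (by
            have : B * R ^ 2 * R⁻¹ ^ 2 = B := by field_simp
            rw [this]
            exact hq)
        have h3 : Sc.aff (-(R⁻¹ • x0)) R⁻¹ '' (Sc.aff x0 R '' Om) = Om := by
          rw [← Set.image_comp]
          have h4 : (Sc.aff (-(R⁻¹ • x0)) R⁻¹ ∘ Sc.aff x0 R) = id := by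
            funext x
            show -(R⁻¹ • x0) + R⁻¹ • (x0 + R • x) = x
            rw [smul_add, inv_smul_smul₀ hR.ne', neg_add_cancel_left]
          rw [h4, Set.image_id]
        rw [h3] at h2
        have h5 : (R⁻¹ ^ 2)⁻¹ = R ^ 2 := by rw [inv_pow, inv_inv]
        rw [h5] at h2
        exact h2
      · rw [smul_eq_mul, ← mul_assoc, inv_mul_cancel₀ hR2, one_mul]
    · rintro ⟨p, hp, rfl⟩
      exact Sc.step B R x0 Om hR hO p hp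
  show sInf (Sc.S B (Sc.aff x0 R '' Om)) = (R ^ 2)⁻¹ * sInf (Sc.S (B * R ^ 2) Om)
  rw [h1, Real.sInf_smul_of_nonneg (by positivity), smul_eq_mul]

end Pool.Agent.MFK
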