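import Pool.Agent.Work.MP_8826fd_mp.StmtsF
import Pool.Agent.Work.MP_8826fd_mp.Sc

/-! # From star-shaped domains about the barycentre to domains star-shaped about a disc (item F3) -/

set_option autoImplicit false

namespace Pool.Agent.MFK

open MeasureTheory Set Filter Topology

namespace F3

/-- the point as a complex number -/
def zz (x : ℝ × ℝ) : ℂ := ⟨x.1, x.2⟩

theorem norm_zz_sq (x a : ℝ × ℝ) : ‖zz x - zz a‖ ^ 2 = (x.1 - a.1) ^ 2 + (x.2 - a.2) ^ 2 := by
  rw [Complex.sq_norm, Complex.normSq_apply]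
  simp only [zz, Complex.sub_re, Complex.sub_im]
  ring

theorem mem_edisc {a x : ℝ × ℝ} {r : ℝ} (hr : 0 ≤ r) : x ∈ edisc a r ↔ ‖zz x - zz a‖ < r := by
  unfold edisc
  rw [mem_ofPred_eq, ← norm_zz_sq]
  exact sq_lt_sq₀ (norm_nonneg _) hr

theorem edisc_sub {a b : ℝ × ℝ} {r s : ℝ} (hr : 0 ≤ r) (hs : 0 ≤ s)
    (h : r + ‖zz a - zz b‖ ≤ s) : edisc a r ⊆ edisc b s := by
  intro x hx
  rw [mem_edisc hr] at hx
  rw [mem_edisc hs]
  calc ‖zz x - zz b‖ = ‖(zz x - zz a) + (zz a - zz b)‖ := by congr 1; ring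
    _ ≤ ‖zz x - zz a‖ + ‖zz a - zz b‖ := norm_add_le _ _
    _ < s := by linarith

theorem isOpen_edisc (a : ℝ × ℝ) (r : ℝ) : IsOpen (edisc a r) := by
  unfold edisc
  exact isOpen_lt (by fun_prop) continuous_const

theorem vol_edisc (a : ℝ × ℝ) {r : ℝ} (hr : 0 ≤ r) :
    volume (edisc a r) = ENNReal.ofReal (Real.pi * r ^ 2) := by
  have h1 : edisc a r = Complex.measurableEquivRealProd.symm ⁻¹' (Metric.ball (zz a) r) := by
    ext x
    rw [mem_edisc hr, mem_preimage, mem_ball_iff_norm]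
    rfl
  rw [h1, (Complex.volume_preserving_equiv_real_prod.symm).measure_preimage
    Metric.isOpen_ball.measurableSet.nullMeasurableSet, Complex.volume_ball,
    ENNReal.ofReal_mul Real.pi_pos.le, ENNReal.ofReal_pow hr, mul_comm]
  congr 1
  rw [← NNReal.coe_real_pi, ENNReal.ofReal_coe_nnreal]

theorem real_edisc (a : ℝ × ℝ) {r : ℝ} (hr : 0 ≤ r) :
    volume.real (edisc a r) = Real.pi * r ^ 2 := by
  unfold Measure.real
  rw [vol_edisc a hr, ENNReal.toReal_ofReal (by positivity)]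

theorem vol_lt_top (a : ℝ × ℝ) (r : ℝ) : volume (edisc a r) < ⊤ := by
  rcases le_total 0 r with h | h
  · rw [vol_edisc a h]; exact ENNReal.ofReal_lt_top
  · have : edisc a r = edisc a (-r) := by unfold edisc; simp
    rw [this, vol_edisc a (by linarith)]; exact ENNReal.ofReal_lt_top

theorem coord_le {a x : ℝ × ℝ} {r : ℝ} (hr : 0 ≤ r) (hx : x ∈ edisc a r) :
    |x.1 - a.1| ≤ r ∧ |x.2 - a.2| ≤ r := by
  rw [mem_edisc hr] at hx
  constructor
  · have := Complex.abs_re_le_norm (zz x - zz a)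
    simp only [zz, Complex.sub_re] at this
    simp only [zz] at hx
    linarith
  · have := Complex.abs_im_le_norm (zz x - zz a)
    simp only [zz, Complex.sub_im] at this
    simp only [zz] at hx
    linarith

/-- bounded continuous functions are integrable on subsets of a disc -/
theorem intOn {Om : Set (ℝ × ℝ)} {p : ℝ × ℝ} {r : ℝ} (hOm : MeasurableSet Om)
    (hs : Om ⊆ edisc p r) (f : ℝ × ℝ → ℝ) (hf : Continuous f) (C : ℝ)
    (hC : ∀ x ∈ Om, |f x| ≤ C) : IntegrableOn f Om := by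
  refine Measure.integrableOn_of_bounded (M := C) ?_ hf.aestronglyMeasurable ?_
  · exact ((measure_mono hs).trans_lt (vol_lt_top p r)).ne
  · rw [ae_restrict_iff' hOm]
    exact Eventually.of_forall (fun x hx => hC x hx)

/-- odd functions have integral zero over a disc -/
theorem odd_int (p : ℝ × ℝ) (r : ℝ) (f : ℝ × ℝ → ℝ)
    (hodd : ∀ x : ℝ × ℝ, f ((p + p) - x) = - f x) : ∫ x in edisc p r, f x = 0 := by
  have hm := (isOpen_edisc p r).measurableSet
  rw [← integral_indicator hm]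
  set g : ℝ × ℝ → ℝ := (edisc p r).indicator f with hg
  have h1 : (∫ x, g ((p + p) - x)) = ∫ x, g x := integral_sub_left_eq_self g volume (p + p)
  have h2 : (fun x => g ((p + p) - x)) = fun x => - g x := by
    funext x
    have hmem : (p + p) - x ∈ edisc p r ↔ x ∈ edisc p r := by
      unfold edisc
      simp only [mem_ofPred_eq, Prod.fst_sub, Prod.snd_sub, Prod.fst_add, Prod.snd_add]
      have e : (p.1 + p.1 - x.1 - p.1) ^ 2 + (p.2 + p.2 - x.2 - p.2) ^ 2
          = (x.1 - p.1) ^ 2 + (x.2 - p.2) ^ 2 := by ring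
      rw [e]
    by_cases h : x ∈ edisc p r
    · rw [hg, indicator_of_mem (hmem.2 h), indicator_of_mem h, hodd]
    · rw [hg, indicator_of_notMem (fun hc => h (hmem.1 hc)), indicator_of_notMem h, neg_zero]
  rw [h2, integral_neg] at h1
  linarith

/-- bound of the moments -/
theorem moment {Om : Set (ℝ × ℝ)} {p : ℝ × ℝ} {R ε : ℝ} (hO : IsOpen Om) (hR : 0 < R)
    (hε : 0 < ε) (hεR : ε ≤ R) (hvol : volume Om = volume (edisc p R))
    (h1 : edisc p (R - ε) ⊆ Om) (h2 : Om ⊆ edisc p (R + ε)) (f : ℝ × ℝ → ℝ) (hf : Continuous f)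
    (hb : ∀ x ∈ edisc p (R + ε), |f x| ≤ R + ε)
    (hodd : ∀ x : ℝ × ℝ, f ((p + p) - x) = - f x) :
    |∫ x in Om, f x| ≤ 4 * ε * (Real.pi * R ^ 2) := by
  have hm := hO.measurableSet
  have hmd := (isOpen_edisc p (R - ε)).measurableSet
  have hi : IntegrableOn f Om := intOn hm h2 f hf (R + ε) (fun x hx => hb x (h2 hx))
  have hsplit : ∫ x in Om, f x = ∫ x in Om \ edisc p (R - ε), f x := by
    have h3 : (Om \ edisc p (R - ε)) ∪ edisc p (R - ε) = Om := by
      rw [sdiff_union_self, union_eq_left.2 h1]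
    rw [← h3, setIntegral_union disjoint_sdiff_left hmd (hi.mono_set sdiff_subset)
      (hi.mono_set h1), odd_int p _ f hodd, add_zero, h3]
  rw [hsplit]
  have hfin : volume (Om \ edisc p (R - ε)) < ⊤ :=
    (measure_mono (sdiff_subset.trans h2)).trans_lt (vol_lt_top _ _)
  have h3 := norm_setIntegral_le_of_norm_le_const (μ := volume) (f := f) (C := R + ε) hfin
    (fun x hx => hb x (h2 hx.1))
  rw [Real.norm_eq_abs] at h3
  have h4 : volume.real (Om \ edisc p (R - ε)) = Real.pi * R ^ 2 - Real.pi * (R - ε) ^ 2 := by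
    rw [measureReal_sdiff h1 hmd (((measure_mono h2).trans_lt (vol_lt_top _ _)).ne)]
    rw [real_edisc p (by linarith)]
    unfold Measure.real
    rw [hvol, vol_edisc p hR.le, ENNReal.toReal_ofReal (by positivity)]
  rw [h4] at h3
  refine h3.trans ?_
  have hpi := Real.pi_pos
  have e : (R + ε) * (Real.pi * R ^ 2 - Real.pi * (R - ε) ^ 2)
      = Real.pi * ((R + ε) * (ε * (2 * R - ε))) := by ring
  rw [e]
  have h5 : (R + ε) * (ε * (2 * R - ε)) ≤ 4 * ε * R ^ 2 := by
    have : 0 ≤ ε * ((R - ε) * (2 * R + ε) + ε ^ 2 * 1) := by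
      apply mul_nonneg hε.le
      have : 0 ≤ (R - ε) * (2 * R + ε) := mul_nonneg (by linarith) (by linarith)
      nlinarith [sq_nonneg ε]
    nlinarith
  calc Real.pi * ((R + ε) * (ε * (2 * R - ε))) ≤ Real.pi * (4 * ε * R ^ 2) :=
        mul_le_mul_of_nonneg_left h5 hpi.le
    _ = 4 * ε * (Real.pi * R ^ 2) := by ring

/-- translation of the disc -/
theorem lam_edisc (B : ℝ) {R : ℝ} (hR : 0 < R) (a : ℝ × ℝ) :
    lamN B (edisc a R) = (R ^ 2)⁻¹ * lamN (B * R ^ 2) disc := by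
  have hd : IsOpen disc := by
    unfold disc
    exact isOpen_lt (by fun_prop) continuous_const
  rw [← sc B R a disc hR hd]
  congr 1
  ext x
  unfold edisc disc
  simp only [mem_ofPred_eq, mem_image]
  constructor
  · intro hx
    refine ⟨R⁻¹ • (x - a), ?_, ?_⟩
    · simp only [Prod.smul_fst, Prod.smul_snd, Prod.fst_sub, Prod.snd_sub, smul_eq_mul]
      have e : (R⁻¹ * (x.1 - a.1)) ^ 2 + (R⁻¹ * (x.2 - a.2)) ^ 2
          = ((x.1 - a.1) ^ 2 + (x.2 - a.2) ^ 2) / R ^ 2 := by field_simp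
      rw [e, div_lt_one (by positivity)]
      exact hx
    · rw [smul_inv_smul₀ hR.ne', add_sub_cancel]
  · rintro ⟨y, hy, rfl⟩
    simp only [Prod.fst_add, Prod.snd_add, Prod.smul_fst, Prod.smul_snd, smul_eq_mul]
    have e : (a.1 + R * y.1 - a.1) ^ 2 + (a.2 + R * y.2 - a.2) ^ 2
        = R ^ 2 * (y.1 ^ 2 + y.2 ^ 2) := by ring
    rw [e]
    nlinarith [sq_nonneg R, mul_pos hR hR]

/-- area in polar coordinates -/
theorem polar_area (h : PInt) (σ : ℝ → ℝ) (hc : Continuous σ) (hpos : ∀ θ, 0 < σ θ)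
    (hper : ∀ θ, σ (θ + 2 * Real.pi) = σ θ) (M : ℝ) (hM : ∀ θ, σ θ ≤ M) :
    polarDom σ ⊆ edisc 0 M ∧
    volume.real (polarDom σ) = ∫ θ in (0 : ℝ)..(2 * Real.pi), σ θ ^ 2 / 2 := by
  have hsub : polarDom σ ⊆ edisc 0 M := by
    intro x hx
    unfold polarDom at hx
    unfold edisc
    simp only [mem_ofPred_eq, Prod.fst_zero, Prod.snd_zero, sub_zero] at hx ⊢
    refine hx.trans_le ?_
    exact pow_le_pow_left₀ (hpos _).le (hM _) 2
  refine ⟨hsub, ?_⟩
  have hfin : volume (polarDom σ) ≠ ⊤ := ((measure_mono hsub).trans_lt (vol_lt_top _ _)).ne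
  have hi : IntegrableOn (fun _ : ℝ × ℝ => (1 : ℝ)) (polarDom σ) := integrableOn_const hfin
  have h1 := (h σ (fun _ => 1) hc hpos hper hi).2.2
  rw [setIntegral_const, smul_eq_mul, mul_one] at h1
  rw [h1]
  congr 1
  funext θ
  simp only [one_mul]
  rw [integral_id]
  ring

theorem meas_polarDom {ρ : ℝ → ℝ} (hρ : Continuous ρ) : MeasurableSet (polarDom ρ) := by
  unfold polarDom
  refine measurableSet_lt (by fun_prop) ?_
  have h1 : Measurable fun x : ℝ × ℝ => (⟨x.1, x.2⟩ : ℂ) :=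
    Complex.measurableEquivRealProd.symm.measurable
  exact (hρ.measurable.comp (Complex.measurable_arg.comp h1)).pow_const 2

theorem cs (g : ℝ → ℝ) (hg : Continuous g) :
    (∫ θ in (0 : ℝ)..(2 * Real.pi), |g θ|) ^ 2
      ≤ 2 * Real.pi * ∫ θ in (0 : ℝ)..(2 * Real.pi), g θ ^ 2 := by
  set I := ∫ θ in (0 : ℝ)..(2 * Real.pi), |g θ| with hI
  have hpi := Real.pi_pos
  have h0 : 0 ≤ ∫ θ in (0 : ℝ)..(2 * Real.pi), (|g θ| - I / (2 * Real.pi)) ^ 2 :=
    intervalIntegral.integral_nonneg (by positivity) (fun _ _ => sq_nonneg _)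
  have e : ∀ θ, (|g θ| - I / (2 * Real.pi)) ^ 2
      = (g θ ^ 2 - (I / Real.pi) * |g θ|) + (I / (2 * Real.pi)) ^ 2 := by
    intro θ
    rw [← sq_abs (g θ)]
    field_simp
    ring
  simp_rw [e] at h0
  rw [intervalIntegral.integral_add (Continuous.intervalIntegrable (by fun_prop) _ _)
    (Continuous.intervalIntegrable (by fun_prop) _ _),
    intervalIntegral.integral_sub (Continuous.intervalIntegrable (by fun_prop) _ _)
    (Continuous.intervalIntegrable (by fun_prop) _ _),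
    intervalIntegral.integral_const_mul, intervalIntegral.integral_const, ← hI] at h0
  simp only [sub_zero, smul_eq_mul] at h0
  have e2 : 2 * Real.pi * (I / (2 * Real.pi)) ^ 2 = I ^ 2 / (2 * Real.pi) := by field_simp
  have e3 : I / Real.pi * I = 2 * (I ^ 2 / (2 * Real.pi)) := by field_simp
  rw [e2, e3] at h0
  have h1 : I ^ 2 / (2 * Real.pi) ≤ ∫ θ in (0 : ℝ)..(2 * Real.pi), g θ ^ 2 := by linarith
  rw [div_le_iff₀ (by positivity)] at h1
  linarith

theorem symm_bound (h : PInt) (a : ℝ × ℝ) (ρ : ℝ → ℝ) {R ε : ℝ} (hR : 0 < R) (hε : ε ≤ R / 2)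
    (hc : Continuous ρ) (hper : ∀ θ, ρ (θ + 2 * Real.pi) = ρ θ) (hcl : ∀ θ, |ρ θ - R| ≤ ε) :
    (volume (symmDiff (starDom a ρ) (edisc a R))).toReal ^ 2
      ≤ (9 * R ^ 2 / 4 * (2 * Real.pi)) * ∫ θ in (0 : ℝ)..(2 * Real.pi), (ρ θ - R) ^ 2 := by
  have hpi := Real.pi_pos
  have hlo : ∀ θ, R / 2 ≤ ρ θ := fun θ => by linarith [(abs_le.1 (hcl θ)).1]
  have hhi : ∀ θ, ρ θ ≤ 2 * R := fun θ => by linarith [(abs_le.1 (hcl θ)).2]
  have h1 : starDom a ρ = (fun x => x - a) ⁻¹' polarDom ρ := rfl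
  have h2 : edisc a R = (fun x => x - a) ⁻¹' polarDom (fun _ => R) := rfl
  have m1 := meas_polarDom hc
  have m2 := meas_polarDom (ρ := fun _ => R) continuous_const
  have h3 : volume (symmDiff (starDom a ρ) (edisc a R))
      = volume (symmDiff (polarDom ρ) (polarDom (fun _ => R))) := by
    rw [h1, h2, ← preimage_symmDiff]
    exact (measurePreserving_sub_right volume a).measure_preimage
      (m1.symmDiff m2).nullMeasurableSet
  rw [h3]
  have cM : Continuous (fun θ => max (ρ θ) R) := hc.max continuous_const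
  have cm : Continuous (fun θ => min (ρ θ) R) := hc.min continuous_const
  obtain ⟨s1, a1⟩ := polar_area h (fun θ => max (ρ θ) R) cM
    (fun θ => lt_of_lt_of_le hR (le_max_right _ _)) (fun θ => by simp only [hper]) (2 * R)
    (fun θ => max_le (hhi θ) (by linarith))
  obtain ⟨s2, a2⟩ := polar_area h (fun θ => min (ρ θ) R) cm
    (fun θ => lt_min (by linarith [hlo θ]) hR) (fun θ => by simp only [hper]) (2 * R)
    (fun θ => (min_le_left _ _).trans (hhi θ))
  have hsub : symmDiff (polarDom ρ) (polarDom (fun _ => R))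
      ⊆ polarDom (fun θ => max (ρ θ) R) \ polarDom (fun θ => min (ρ θ) R) := by
    intro x hx
    unfold polarDom at hx ⊢
    rw [mem_symmDiff] at hx
    simp only [mem_ofPred_eq, Set.mem_sdiff, not_lt] at hx ⊢
    set t := Complex.arg (⟨x.1, x.2⟩ : ℂ)
    have ht := hlo t
    have hmin0 : 0 ≤ min (ρ t) R := le_min (by linarith) hR.le
    rcases hx with ⟨h4, h5⟩ | ⟨h4, h5⟩
    · exact ⟨h4.trans_le (pow_le_pow_left₀ (by linarith) (le_max_left _ _) 2),
        (pow_le_pow_left₀ hmin0 (min_le_right _ _) 2).trans h5⟩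
    · exact ⟨h4.trans_le (pow_le_pow_left₀ hR.le (le_max_right _ _) 2),
        (pow_le_pow_left₀ hmin0 (min_le_left _ _) 2).trans h5⟩
  have hmM : polarDom (fun θ => min (ρ θ) R) ⊆ polarDom (fun θ => max (ρ θ) R) := by
    intro x hx
    unfold polarDom at hx ⊢
    simp only [mem_ofPred_eq] at hx ⊢
    set t := Complex.arg (⟨x.1, x.2⟩ : ℂ)
    have ht := hlo t
    have hmin0 : 0 ≤ min (ρ t) R := le_min (by linarith) hR.le
    exact hx.trans_le (pow_le_pow_left₀ hmin0 ((min_le_right _ _).trans (le_max_right _ _)) 2)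
  have hMfin : volume (polarDom (fun θ => max (ρ θ) R)) ≠ ⊤ :=
    ((measure_mono s1).trans_lt (vol_lt_top _ _)).ne
  have h6 : (volume (symmDiff (polarDom ρ) (polarDom (fun _ => R)))).toReal
      ≤ 3 * R / 2 * ∫ θ in (0 : ℝ)..(2 * Real.pi), |ρ θ - R| := by
    have h7 : (volume (symmDiff (polarDom ρ) (polarDom (fun _ => R)))).toReal
        ≤ volume.real (polarDom (fun θ => max (ρ θ) R) \ polarDom (fun θ => min (ρ θ) R)) :=
      measureReal_mono hsub ((measure_mono sdiff_subset).trans_lt hMfin.lt_top).ne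
    refine h7.trans ?_
    rw [measureReal_sdiff hmM (meas_polarDom cm) hMfin, a1, a2,
      ← intervalIntegral.integral_sub (Continuous.intervalIntegrable (by fun_prop) _ _)
      (Continuous.intervalIntegrable (by fun_prop) _ _), ← intervalIntegral.integral_const_mul]
    refine intervalIntegral.integral_mono_on (by positivity)
      (Continuous.intervalIntegrable (by fun_prop) _ _)
      (Continuous.intervalIntegrable (by fun_prop) _ _) ?_
    intro θ _
    have h8 : max (ρ θ) R + min (ρ θ) R = ρ θ + R := max_add_min _ _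
    have h9 : max (ρ θ) R - min (ρ θ) R = |ρ θ - R| := max_sub_min_eq_abs' _ _
    have e : max (ρ θ) R ^ 2 / 2 - min (ρ θ) R ^ 2 / 2
        = (max (ρ θ) R + min (ρ θ) R) * (max (ρ θ) R - min (ρ θ) R) / 2 := by ring
    rw [e, h8, h9]
    have h10 : (ρ θ + R) * |ρ θ - R| ≤ 3 * R * |ρ θ - R| :=
      mul_le_mul_of_nonneg_right (by linarith [hhi θ]) (abs_nonneg _)
    linarith
  have h11 := cs (fun θ => ρ θ - R) (by fun_prop)
  have h12 : 0 ≤ ∫ θ in (0 : ℝ)..(2 * Real.pi), |ρ θ - R| :=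
    intervalIntegral.integral_nonneg (by positivity) (fun _ _ => abs_nonneg _)
  calc (volume (symmDiff (polarDom ρ) (polarDom (fun _ => R)))).toReal ^ 2
      ≤ (3 * R / 2 * ∫ θ in (0 : ℝ)..(2 * Real.pi), |ρ θ - R|) ^ 2 :=
        pow_le_pow_left₀ ENNReal.toReal_nonneg h6 2
    _ = 9 * R ^ 2 / 4 * (∫ θ in (0 : ℝ)..(2 * Real.pi), |ρ θ - R|) ^ 2 := by ring
    _ ≤ 9 * R ^ 2 / 4 * (2 * Real.pi * ∫ θ in (0 : ℝ)..(2 * Real.pi), (ρ θ - R) ^ 2) :=
        mul_le_mul_of_nonneg_left h11 (by positivity)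
    _ = _ := by ring

/-- a continuous periodic function with zero `L²` distance to `R` is constant -/
theorem const_of_int (ρ : ℝ → ℝ) (R : ℝ) (hc : Continuous ρ)
    (hper : ∀ θ, ρ (θ + 2 * Real.pi) = ρ θ)
    (h0 : (∫ θ in (0 : ℝ)..(2 * Real.pi), (ρ θ - R) ^ 2) ≤ 0) : ∀ θ, ρ θ = R := by
  have hpi := Real.pi_pos
  have h1 : ∀ θ ∈ Icc (0 : ℝ) (2 * Real.pi), ρ θ = R := by
    intro θ hθ
    by_contra hne
    have hpos : 0 < ∫ θ in (0 : ℝ)..(2 * Real.pi), (ρ θ - R) ^ 2 := by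
      refine intervalIntegral.integral_pos (by positivity)
        (Continuous.continuousOn (by fun_prop)) (fun _ _ => sq_nonneg _) ⟨θ, hθ, ?_⟩
      have : ρ θ - R ≠ 0 := sub_ne_zero.2 hne
      positivity
    linarith
  intro θ
  obtain ⟨y, hy, hy2⟩ := (show Function.Periodic ρ (2 * Real.pi) from hper).exists_mem_Ico₀
    (by positivity) θ
  rw [hy2]
  exact h1 y ⟨hy.1, hy.2.le⟩

end F3

open F3 in
theorem finB (h : StFA) (h1 : StFRep) (h2 : PInt) : StFB := by
  intro B R κ hB hR hκ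
  obtain ⟨ε0, hε0, c1, hc1, H⟩ := h B R hB hR
  have hpi := Real.pi_pos
  obtain ⟨ε1, hε1, hε10, hε1R⟩ : ∃ ε1 : ℝ, 0 < ε1 ∧ ε1 ≤ ε0 ∧ ε1 ≤ R / 2 :=
    ⟨min ε0 (R / 2), lt_min hε0 (by linarith), min_le_left _ _, min_le_right _ _⟩
  obtain ⟨ε, hε, hεR, hε9, hεκ⟩ : ∃ ε : ℝ, 0 < ε ∧ ε ≤ R ∧ 9 * ε ≤ ε1 ∧ 8 * ε ≤ κ / 2 := by
    refine ⟨min R (min (ε1 / 9) (κ / 16)), lt_min hR (lt_min (by linarith) (by linarith)),
      min_le_left _ _, ?_, ?_⟩
    · have := (min_le_right R (min (ε1 / 9) (κ / 16))).trans (min_le_left _ _)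
      linarith
    · have := (min_le_right R (min (ε1 / 9) (κ / 16))).trans (min_le_right _ _)
      linarith
  have hK : 0 < 9 * R ^ 2 / 4 * (2 * Real.pi) := by positivity
  refine ⟨ε, hε, c1 / (9 * R ^ 2 / 4 * (2 * Real.pi)), by positivity, ?_⟩
  intro Om p hO hstar hvol hin hout
  have hA : 0 < Real.pi * R ^ 2 := by positivity
  set m1 := ∫ x in Om, (x.1 - p.1) with hm1
  set m2 := ∫ x in Om, (x.2 - p.2) with hm2
  have b1 : |m1| ≤ 4 * ε * (Real.pi * R ^ 2) :=
    moment hO hR hε hεR hvol hin hout (fun x => x.1 - p.1) (by fun_prop)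
      (fun x hx => (coord_le (by linarith) hx).1) (fun x => by
        simp only [Prod.fst_sub, Prod.fst_add]; ring)
  have b2 : |m2| ≤ 4 * ε * (Real.pi * R ^ 2) :=
    moment hO hR hε hεR hvol hin hout (fun x => x.2 - p.2) (by fun_prop)
      (fun x hx => (coord_le (by linarith) hx).2) (fun x => by
        simp only [Prod.snd_sub, Prod.snd_add]; ring)
  set x0 : ℝ × ℝ := (p.1 + m1 / (Real.pi * R ^ 2), p.2 + m2 / (Real.pi * R ^ 2)) with hx0
  have d1 : |m1 / (Real.pi * R ^ 2)| ≤ 4 * ε := by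
    rw [abs_div, abs_of_pos hA, div_le_iff₀ hA]; exact b1
  have d2 : |m2 / (Real.pi * R ^ 2)| ≤ 4 * ε := by
    rw [abs_div, abs_of_pos hA, div_le_iff₀ hA]; exact b2
  have hδ : ‖zz x0 - zz p‖ ≤ 8 * ε := by
    refine (Complex.norm_le_abs_re_add_abs_im _).trans ?_
    have e1 : (zz x0 - zz p).re = m1 / (Real.pi * R ^ 2) := by
      simp only [zz, hx0, Complex.sub_re]; ring
    have e2 : (zz x0 - zz p).im = m2 / (Real.pi * R ^ 2) := by
      simp only [zz, hx0, Complex.sub_im]; ring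
    rw [e1, e2]; linarith
  have hδ' : ‖zz p - zz x0‖ ≤ 8 * ε := by rw [norm_sub_rev]; exact hδ
  have hin' : edisc x0 (R - ε1) ⊆ Om :=
    (edisc_sub (by linarith) (by linarith) (by linarith)).trans hin
  have hout' : Om ⊆ edisc x0 (R + ε1) :=
    hout.trans (edisc_sub (by linarith) (by linarith) (by linarith))
  have hst' : ∀ q ∈ edisc x0 (κ / 2), StarConvex ℝ q Om := fun q hq =>
    hstar q (edisc_sub (by linarith) (by linarith) (by linarith) hq)
  obtain ⟨ρ, hc, hper, hb, hOm⟩ := h1 Om x0 (κ / 2) (R - ε1) (R + ε1) hO (by linarith)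
    (by linarith) hst' hin' hout' (by linarith)
  have hcl : ∀ θ, |ρ θ - R| ≤ ε1 := fun θ => abs_le.2 ⟨by linarith [(hb θ).1], by linarith [(hb θ).2]⟩
  have hv0 : volume (edisc x0 R) = volume (edisc p R) := by rw [vol_edisc x0 hR.le, vol_edisc p hR.le]
  have hvr : volume.real Om = Real.pi * R ^ 2 := by
    unfold Measure.real
    rw [hvol, vol_edisc p hR.le, ENNReal.toReal_ofReal (by positivity)]
  have hfin : volume Om ≠ ⊤ := by rw [hvol]; exact (vol_lt_top _ _).ne
  have bar : ∀ (f : ℝ × ℝ → ℝ) (m : ℝ), IntegrableOn f Om → (∫ x in Om, f x) = m →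
      (∫ x in Om, (f x - m / (Real.pi * R ^ 2))) = 0 := by
    intro f m hf hm
    rw [integral_sub hf (integrableOn_const hfin), hm, setIntegral_const, hvr, smul_eq_mul]
    field_simp
    ring
  have i1 : IntegrableOn (fun x : ℝ × ℝ => x.1 - p.1) Om :=
    intOn hO.measurableSet hout _ (by fun_prop) (R + ε)
      (fun x hx => (coord_le (by linarith) (hout hx)).1)
  have i2 : IntegrableOn (fun x : ℝ × ℝ => x.2 - p.2) Om :=
    intOn hO.measurableSet hout _ (by fun_prop) (R + ε)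
      (fun x hx => (coord_le (by linarith) (hout hx)).2)
  have bar1 : (∫ x in starDom x0 ρ, (x.1 - x0.1)) = 0 := by
    rw [← hOm, ← bar (fun x => x.1 - p.1) m1 i1 rfl]
    congr 1
    funext x
    simp only [hx0]; ring
  have bar2 : (∫ x in starDom x0 ρ, (x.2 - x0.2)) = 0 := by
    rw [← hOm, ← bar (fun x => x.2 - p.2) m2 i2 rfl]
    congr 1
    funext x
    simp only [hx0]; ring
  have hmain := H x0 ρ hc hper (fun θ => (hcl θ).trans hε10)
    (by rw [← hOm, hvol, hv0]) bar1 bar2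
  rw [← hOm, lam_edisc B hR x0, ← lam_edisc B hR p] at hmain
  have hsym := symm_bound h2 x0 ρ hR hε1R hc hper hcl
  rw [← hOm] at hsym
  refine ⟨x0, ?_, ?_⟩
  · refine hmain.trans ?_
    have h3 : c1 / (9 * R ^ 2 / 4 * (2 * Real.pi)) * (volume (symmDiff Om (edisc x0 R))).toReal ^ 2
        ≤ c1 * ∫ θ in (0 : ℝ)..(2 * Real.pi), (ρ θ - R) ^ 2 := by
      calc c1 / (9 * R ^ 2 / 4 * (2 * Real.pi)) * (volume (symmDiff Om (edisc x0 R))).toReal ^ 2
          ≤ c1 / (9 * R ^ 2 / 4 * (2 * Real.pi)) * ((9 * R ^ 2 / 4 * (2 * Real.pi)) *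
            ∫ θ in (0 : ℝ)..(2 * Real.pi), (ρ θ - R) ^ 2) :=
            mul_le_mul_of_nonneg_left hsym (by positivity)
        _ = _ := by field_simp
    linarith
  · intro heq
    rw [heq] at hmain
    have h3 : (∫ θ in (0 : ℝ)..(2 * Real.pi), (ρ θ - R) ^ 2) ≤ 0 := by
      by_contra hne
      have := mul_pos hc1 (not_le.1 hne)
      linarith
    have h4 := const_of_int ρ R hc hper h3
    rw [hOm]
    unfold starDom edisc
    simp only [h4]

end Pool.Agent.MFK
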