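import Pool.Agent.Work.MP_8826fd_mp.StmtsF

/-! # F1: polar representation of a set that is star-shaped with respect to a disc -/

set_option autoImplicit false

namespace Pool.Agent.MFK

open MeasureTheory Set Filter Topology Pointwise

namespace F1

/-- star-shaped about every point of a small sup norm ball -/
def SC (S : Set (ℝ × ℝ)) (k : ℝ) : Prop := ∀ v : ℝ × ℝ, ‖v‖ < k → StarConvex ℝ v S

theorem absorb (S : Set (ℝ × ℝ)) (hS : IsOpen S) (h0 : (0 : ℝ × ℝ) ∈ S) : Absorbent ℝ S :=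
  absorbent_nhds_zero (hS.mem_nhds h0)

theorem lt_one_iff (S : Set (ℝ × ℝ)) (k : ℝ) (hk : 0 < k) (hS : IsOpen S) (h0 : (0 : ℝ × ℝ) ∈ S)
    (hsc : SC S k) (x : ℝ × ℝ) : gauge S x < 1 ↔ x ∈ S := by
  constructor
  · intro h
    obtain ⟨b, hb0, hb1, hx⟩ := exists_lt_of_gauge_lt (absorb S hS h0) h
    obtain ⟨w, hw, hwx⟩ := Set.mem_smul_set.mp hx
    have h1 := hsc 0 (by simpa using hk) hw (sub_nonneg.mpr hb1.le) hb0.le (by ring)
    rw [smul_zero, zero_add, hwx] at h1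
    exact h1
  · intro h
    exact gauge_lt_one_of_mem_of_isOpen hS h

theorem lip (S : Set (ℝ × ℝ)) (k : ℝ) (hS : IsOpen S) (h0 : (0 : ℝ × ℝ) ∈ S)
    (hsc : SC S k) (x y : ℝ × ℝ) (s : ℝ) (hs : 0 < s) (hxy : ‖y - x‖ < s * k) :
    gauge S y ≤ gauge S x + s := by
  refine le_of_forall_pos_lt_add fun e he => ?_
  obtain ⟨t, ht0, ht1, hx⟩ := exists_lt_of_gauge_lt (absorb S hS h0)
    (show gauge S x < gauge S x + e by linarith)
  obtain ⟨w, hw, hwx⟩ := Set.mem_smul_set.mp hx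
  have hv : ‖s⁻¹ • (y - x)‖ < k := by
    rw [norm_smul, Real.norm_eq_abs, abs_of_pos (inv_pos.mpr hs)]
    rw [inv_mul_lt_iff₀ hs]
    exact hxy
  have hts : 0 < t + s := by linarith
  have h1 := hsc (s⁻¹ • (y - x)) hv hw (div_nonneg hs.le hts.le) (div_nonneg ht0.le hts.le)
    (by field_simp; ring)
  have h2 : y ∈ (t + s) • S := by
    refine Set.mem_smul_set.mpr ⟨_, h1, ?_⟩
    rw [smul_add, smul_smul, smul_smul, smul_smul]
    have e2 : (t + s) * (t / (t + s)) = t := by field_simp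
    have e3 : (t + s) * (s / (t + s)) * s⁻¹ = 1 := by field_simp
    rw [e3, e2, one_smul, hwx]
    abel
  have h3 := gauge_le_of_mem hts.le h2
  linarith

theorem cont (S : Set (ℝ × ℝ)) (k : ℝ) (hk : 0 < k) (hS : IsOpen S) (h0 : (0 : ℝ × ℝ) ∈ S)
    (hsc : SC S k) : Continuous (gauge S) := by
  rw [Metric.continuous_iff]
  intro x e he
  refine ⟨e / 2 * k, by positivity, fun y hy => ?_⟩
  rw [dist_eq_norm] at hy
  have h1 := lip S k hS h0 hsc x y (e / 2) (by linarith) hy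
  have h2 := lip S k hS h0 hsc y x (e / 2) (by linarith) (by rw [norm_sub_rev]; exact hy)
  rw [Real.dist_eq, abs_lt]
  constructor <;> linarith

theorem small (v : ℝ × ℝ) (κ : ℝ) (h : ‖v‖ < κ / 2) : v.1 ^ 2 + v.2 ^ 2 < κ ^ 2 := by
  have h1 : |v.1| ≤ ‖v‖ := norm_fst_le v
  have h2 : |v.2| ≤ ‖v‖ := norm_snd_le v
  have h3 : 0 ≤ ‖v‖ := norm_nonneg v
  have h4 : v.1 ^ 2 ≤ ‖v‖ ^ 2 := by
    rw [← sq_abs v.1]
    exact pow_le_pow_left₀ (abs_nonneg _) h1 2
  have h5 : v.2 ^ 2 ≤ ‖v‖ ^ 2 := by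
    rw [← sq_abs v.2]
    exact pow_le_pow_left₀ (abs_nonneg _) h2 2
  nlinarith

/-- unit vector -/
noncomputable def ev (t : ℝ) : ℝ × ℝ := (Real.cos t, Real.sin t)

end F1

open F1 in
theorem fRep : StFRep := by
  intro Om p κ r1 r2 hO hκ hr1 hst hin hout hr2
  have hS : IsOpen {w : ℝ × ℝ | p + w ∈ Om} := hO.preimage (by fun_prop)
  have hpin : p ∈ Om := hin (by
    show (p.1 - p.1) ^ 2 + (p.2 - p.2) ^ 2 < r1 ^ 2
    rw [sub_self, sub_self]
    have : 0 < r1 ^ 2 := by positivity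
    simpa using this)
  obtain ⟨S, hSdef⟩ : ∃ S : Set (ℝ × ℝ), S = {w : ℝ × ℝ | p + w ∈ Om} := ⟨_, rfl⟩
  rw [← hSdef] at hS
  have hmem : ∀ w : ℝ × ℝ, w ∈ S ↔ p + w ∈ Om := by
    intro w
    rw [hSdef]
    rfl
  have h0 : (0 : ℝ × ℝ) ∈ S := by
    rw [hmem, add_zero]
    exact hpin
  have hk : 0 < κ / 2 := by linarith
  have hsc : SC S (κ / 2) := by
    intro v hv w hw a b ha hb hab
    rw [hmem] at hw ⊢
    have h1 : p + v ∈ edisc p κ := by
      show ((p + v).1 - p.1) ^ 2 + ((p + v).2 - p.2) ^ 2 < κ ^ 2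
      have h2 := small v κ hv
      have e1 : (p + v).1 - p.1 = v.1 := by
        rw [Prod.fst_add]; ring
      have e2 : (p + v).2 - p.2 = v.2 := by
        rw [Prod.snd_add]; ring
      rw [e1, e2]
      exact h2
    have h3 := hst _ h1 hw ha hb hab
    have e3 : a • (p + v) + b • (p + w) = p + (a • v + b • w) := by
      have e4 : p = a • p + b • p := by
        rw [← add_smul, hab, one_smul]
      calc a • (p + v) + b • (p + w) = (a • p + b • p) + (a • v + b • w) := by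
            rw [smul_add, smul_add]; abel
        _ = p + (a • v + b • w) := by rw [← e4]
    rw [e3] at h3
    exact h3
  have hc := cont S (κ / 2) hk hS h0 hsc
  have hiff := lt_one_iff S (κ / 2) hk hS h0 hsc
  have hlow : ∀ t : ℝ, r2⁻¹ ≤ gauge S (ev t) := by
    intro t
    by_contra hcon
    push Not at hcon
    have h1 : gauge S (r2 • ev t) < 1 := by
      rw [gauge_smul_of_nonneg hr2.le, smul_eq_mul]
      have h2 := mul_lt_mul_of_pos_left hcon hr2
      rwa [mul_inv_cancel₀ hr2.ne'] at h2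
    rw [hiff, hmem] at h1
    have h3 : ((p + r2 • ev t).1 - p.1) ^ 2 + ((p + r2 • ev t).2 - p.2) ^ 2 < r2 ^ 2 := hout h1
    have e1 : (p + r2 • ev t).1 - p.1 = r2 * Real.cos t := by
      rw [Prod.fst_add, Prod.smul_fst]
      show p.1 + r2 * Real.cos t - p.1 = _
      ring
    have e2 : (p + r2 • ev t).2 - p.2 = r2 * Real.sin t := by
      rw [Prod.snd_add, Prod.smul_snd]
      show p.2 + r2 * Real.sin t - p.2 = _
      ring
    rw [e1, e2] at h3
    have h4 := Real.sin_sq_add_cos_sq t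
    nlinarith
  have hpos : ∀ t : ℝ, 0 < gauge S (ev t) := fun t => lt_of_lt_of_le (inv_pos.mpr hr2) (hlow t)
  have hup : ∀ t : ℝ, r1 ≤ (gauge S (ev t))⁻¹ := by
    intro t
    by_contra hcon
    push Not at hcon
    have hg := hpos t
    obtain ⟨s, hs⟩ : ∃ s : ℝ, s = (gauge S (ev t))⁻¹ := ⟨_, rfl⟩
    rw [← hs] at hcon
    have hs0 : 0 < s := by
      rw [hs]
      exact inv_pos.mpr hg
    have h1 : s • ev t ∈ S := by
      rw [hmem]
      apply hin
      show ((p + s • ev t).1 - p.1) ^ 2 + ((p + s • ev t).2 - p.2) ^ 2 < r1 ^ 2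
      have e1 : (p + s • ev t).1 - p.1 = s * Real.cos t := by
        rw [Prod.fst_add, Prod.smul_fst]
        show p.1 + s * Real.cos t - p.1 = _
        ring
      have e2 : (p + s • ev t).2 - p.2 = s * Real.sin t := by
        rw [Prod.snd_add, Prod.smul_snd]
        show p.2 + s * Real.sin t - p.2 = _
        ring
      rw [e1, e2]
      have h4 := Real.sin_sq_add_cos_sq t
      have h5 : (s * Real.cos t) ^ 2 + (s * Real.sin t) ^ 2 = s ^ 2 := by
        calc (s * Real.cos t) ^ 2 + (s * Real.sin t) ^ 2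
            = s ^ 2 * (Real.sin t ^ 2 + Real.cos t ^ 2) := by ring
          _ = s ^ 2 := by rw [h4, mul_one]
      rw [h5]
      exact pow_lt_pow_left₀ hcon hs0.le two_ne_zero
    rw [← hiff, gauge_smul_of_nonneg hs0.le, smul_eq_mul, hs, inv_mul_cancel₀ hg.ne'] at h1
    exact lt_irrefl _ h1
  refine ⟨fun t => (gauge S (ev t))⁻¹, ?_, ?_, ?_, ?_⟩
  · refine Continuous.inv₀ (hc.comp ?_) (fun t => (hpos t).ne')
    unfold ev
    fun_prop
  · intro t
    show (gauge S (ev (t + 2 * Real.pi)))⁻¹ = (gauge S (ev t))⁻¹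
    unfold ev
    rw [Real.cos_add_two_pi, Real.sin_add_two_pi]
  · intro t
    refine ⟨hup t, ?_⟩
    show (gauge S (ev t))⁻¹ ≤ r2
    have h1 := inv_anti₀ (inv_pos.mpr hr2) (hlow t)
    rwa [inv_inv] at h1
  · ext x
    have hx1 : x ∈ Om ↔ x - p ∈ S := by
      rw [hmem]
      rw [add_sub_cancel]
    rw [hx1, ← hiff]
    obtain ⟨z, hz⟩ : ∃ z : ℂ, z = (⟨x.1 - p.1, x.2 - p.2⟩ : ℂ) := ⟨_, rfl⟩
    have hzre : z.re = x.1 - p.1 := by rw [hz]
    have hzim : z.im = x.2 - p.2 := by rw [hz]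
    have hxz : x - p = ‖z‖ • ev (Complex.arg z) := by
      unfold ev
      refine Prod.ext ?_ ?_
      · rw [Prod.fst_sub, Prod.smul_fst, smul_eq_mul, Complex.norm_mul_cos_arg, hzre]
      · rw [Prod.snd_sub, Prod.smul_snd, smul_eq_mul, Complex.norm_mul_sin_arg, hzim]
    have hn : ‖z‖ ^ 2 = (x.1 - p.1) ^ 2 + (x.2 - p.2) ^ 2 := by
      rw [← hzre, ← hzim, ← Complex.normSq_eq_norm_sq, Complex.normSq_apply]
      ring
    have hgoal : x ∈ starDom p (fun t => (gauge S (ev t))⁻¹) ↔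
        (x.1 - p.1) ^ 2 + (x.2 - p.2) ^ 2 < ((gauge S (ev (Complex.arg z)))⁻¹) ^ 2 := by
      rw [hz]
      rfl
    rw [hgoal, ← hn, hxz, gauge_smul_of_nonneg (norm_nonneg z), smul_eq_mul]
    have hg := hpos (Complex.arg z)
    rw [pow_lt_pow_iff_left₀ (norm_nonneg z) (inv_pos.mpr hg).le two_ne_zero]
    rw [← one_div, lt_div_iff₀ hg]

end Pool.Agent.MFK
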