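import Pool.Agent.Work.MP_8826fd_mp.StmtsF
import Pool.Agent.Work.MP_8826fd_mp.StmtsU
import Pool.Agent.Work.MP_8826fd_mp.Sc

/-! # [8826fd F2] the local theorem for star-shaped domains of any size and position -/

set_option autoImplicit false

namespace Pool.Agent.MFK

open MeasureTheory Set Filter Topology

namespace F2

theorem star_image {R : ℝ} (hR : 0 < R) (a : ℝ × ℝ) (ρ : ℝ → ℝ) :
    starDom a ρ = Sc.aff a R '' polarDom (fun θ => ρ θ / R) := by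
  rw [Sc.aff_image hR]
  ext x
  show (x.1 - a.1) ^ 2 + (x.2 - a.2) ^ 2 < ρ (Complex.arg (⟨x.1 - a.1, x.2 - a.2⟩ : ℂ)) ^ 2 ↔
    (R⁻¹ * (x.1 - a.1)) ^ 2 + (R⁻¹ * (x.2 - a.2)) ^ 2 <
      (ρ (Complex.arg (⟨R⁻¹ * (x.1 - a.1), R⁻¹ * (x.2 - a.2)⟩ : ℂ)) / R) ^ 2
  have h1 : (⟨R⁻¹ * (x.1 - a.1), R⁻¹ * (x.2 - a.2)⟩ : ℂ) =
      ((R⁻¹ : ℝ) : ℂ) * (⟨x.1 - a.1, x.2 - a.2⟩ : ℂ) := by
    apply Complex.ext <;> simp
  rw [h1, Complex.arg_real_mul _ (inv_pos.2 hR)]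
  have h2 : (R⁻¹ * (x.1 - a.1)) ^ 2 + (R⁻¹ * (x.2 - a.2)) ^ 2 =
      ((x.1 - a.1) ^ 2 + (x.2 - a.2) ^ 2) / R ^ 2 := by
    field_simp
  rw [h2, div_pow, div_lt_div_iff_of_pos_right (by positivity)]

theorem disc_eq : disc = polarDom (fun _ => (1 : ℝ)) := by
  ext x
  show x.1 ^ 2 + x.2 ^ 2 < 1 ↔ x.1 ^ 2 + x.2 ^ 2 < (1 : ℝ) ^ 2
  rw [one_pow]

theorem edisc_eq (a : ℝ × ℝ) (R : ℝ) : edisc a R = starDom a (fun _ => R) := rfl

theorem edisc_image {R : ℝ} (hR : 0 < R) (a : ℝ × ℝ) : edisc a R = Sc.aff a R '' disc := by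
  rw [edisc_eq, star_image hR, disc_eq]
  congr 2
  funext θ
  exact div_self hR.ne'

theorem int_image {R : ℝ} (hR : 0 < R) (a : ℝ × ℝ) {Om : Set (ℝ × ℝ)} (hO : IsOpen Om)
    (g : ℝ × ℝ → ℝ) :
    ∫ x in Sc.aff a R '' Om, g x = R ^ 2 * ∫ y in Om, g (Sc.aff a R y) := by
  have h2 := integral_image_eq_integral_abs_det_fderiv_smul (volume : Measure (ℝ × ℝ))
    hO.measurableSet (fun x _ => Sc.hasFDeriv_aff a R Om x) (Sc.aff_inj hR a).injOn g
  simp only [Sc.det_aff R hR, smul_eq_mul] at h2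
  rw [h2, integral_const_mul]

theorem real_image {R : ℝ} (hR : 0 < R) (a : ℝ × ℝ) {Om : Set (ℝ × ℝ)} (hO : IsOpen Om) :
    volume.real (Sc.aff a R '' Om) = R ^ 2 * volume.real Om := by
  have h := int_image hR a hO (fun _ => (1 : ℝ))
  simpa using h

theorem integ {ρ : ℝ → ℝ} (h3 : UOpen) (hc : Continuous ρ) (hp : ∀ θ, 0 < ρ θ)
    (hper : ∀ θ, ρ (θ + 2 * Real.pi) = ρ θ) {f : ℝ × ℝ → ℝ} (hf : Continuous f) :
    IntegrableOn f (polarDom ρ) := by
  obtain ⟨-, hb⟩ := h3 ρ hc hp hper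
  have hcl : IsCompact (closure (polarDom ρ)) := hb.isCompact_closure
  exact (hf.continuousOn.integrableOn_compact hcl).mono_set subset_closure

theorem area {ρ : ℝ → ℝ} (h2 : PInt) (h3 : UOpen) (hc : Continuous ρ) (hp : ∀ θ, 0 < ρ θ)
    (hper : ∀ θ, ρ (θ + 2 * Real.pi) = ρ θ) :
    volume.real (polarDom ρ) = (1 / 2) * ∫ θ in (0 : ℝ)..(2 * Real.pi), ρ θ ^ 2 := by
  have h := (h2 ρ (fun _ => 1) hc hp hper (integ h3 hc hp hper continuous_const)).2.2
  have e1 : ∫ x in polarDom ρ, (1 : ℝ) = volume.real (polarDom ρ) := by simp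
  rw [e1] at h
  rw [h, ← intervalIntegral.integral_const_mul]
  refine intervalIntegral.integral_congr fun θ _ => ?_
  simp only [one_mul]
  rw [integral_id]
  ring

theorem bar1 {ρ : ℝ → ℝ} (h2 : PInt) (h3 : UOpen) (hc : Continuous ρ) (hp : ∀ θ, 0 < ρ θ)
    (hper : ∀ θ, ρ (θ + 2 * Real.pi) = ρ θ) :
    ∫ x in polarDom ρ, x.1 = (1 / 3) * ∫ θ in (0 : ℝ)..(2 * Real.pi), ρ θ ^ 3 * Real.cos θ := by
  have h := (h2 ρ (fun x => x.1) hc hp hper (integ h3 hc hp hper continuous_fst)).2.2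
  rw [h, ← intervalIntegral.integral_const_mul]
  refine intervalIntegral.integral_congr fun θ _ => ?_
  show (∫ r in (0 : ℝ)..(ρ θ), r * Real.cos θ * r) = _
  have e1 : (∫ r in (0 : ℝ)..(ρ θ), r * Real.cos θ * r) =
      ∫ r in (0 : ℝ)..(ρ θ), Real.cos θ * r ^ 2 :=
    intervalIntegral.integral_congr fun r _ => by ring
  rw [e1, intervalIntegral.integral_const_mul, integral_pow]
  push_cast
  ring

theorem bar2 {ρ : ℝ → ℝ} (h2 : PInt) (h3 : UOpen) (hc : Continuous ρ) (hp : ∀ θ, 0 < ρ θ)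
    (hper : ∀ θ, ρ (θ + 2 * Real.pi) = ρ θ) :
    ∫ x in polarDom ρ, x.2 = (1 / 3) * ∫ θ in (0 : ℝ)..(2 * Real.pi), ρ θ ^ 3 * Real.sin θ := by
  have h := (h2 ρ (fun x => x.2) hc hp hper (integ h3 hc hp hper continuous_snd)).2.2
  rw [h, ← intervalIntegral.integral_const_mul]
  refine intervalIntegral.integral_congr fun θ _ => ?_
  show (∫ r in (0 : ℝ)..(ρ θ), r * Real.sin θ * r) = _
  have e1 : (∫ r in (0 : ℝ)..(ρ θ), r * Real.sin θ * r) =
      ∫ r in (0 : ℝ)..(ρ θ), Real.sin θ * r ^ 2 :=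
    intervalIntegral.integral_congr fun r _ => by ring
  rw [e1, intervalIntegral.integral_const_mul, integral_pow]
  push_cast
  ring

end F2

theorem finA (h : StMain) (h2 : PInt) (h3 : UOpen) : StFA := by
  intro B R hB hR
  obtain ⟨ε1, hε1, c1, hc1, hmain⟩ := h (B * R ^ 2) (by positivity)
  refine ⟨min (R * ε1) (R / 2), lt_min (by positivity) (by positivity), c1 / R ^ 4,
    by positivity, ?_⟩
  intro a ρ hc hper hclose hvol hb1 hb2
  set ρ1 : ℝ → ℝ := fun θ => ρ θ / R with hρ1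
  have hc1' : Continuous ρ1 := hc.div_const R
  have hper1 : ∀ θ, ρ1 (θ + 2 * Real.pi) = ρ1 θ := fun θ => by simp only [hρ1, hper]
  have hpos1 : ∀ θ, 0 < ρ1 θ := by
    intro θ
    have h4 := (hclose θ).trans (min_le_right _ _)
    rw [abs_le] at h4
    exact div_pos (by linarith [h4.1]) hR
  have hone : ∀ θ : ℝ, (0 : ℝ) < (fun _ : ℝ => (1 : ℝ)) θ := fun _ => one_pos
  have hopen1 : IsOpen (polarDom ρ1) := (h3 ρ1 hc1' hpos1 hper1).1
  have hopenD : IsOpen disc := by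
    rw [F2.disc_eq]
    exact (h3 _ continuous_const hone (fun _ => rfl)).1
  have himg : starDom a ρ = Sc.aff a R '' polarDom ρ1 := F2.star_image hR a ρ
  have himgD : edisc a R = Sc.aff a R '' disc := F2.edisc_image hR a
  have hR2 : R ^ 2 ≠ 0 := by positivity
  -- area
  have harea : (∫ θ in (0 : ℝ)..(2 * Real.pi), ρ1 θ ^ 2) = 2 * Real.pi := by
    have e1 : volume.real (starDom a ρ) = volume.real (edisc a R) := by
      unfold Measure.real
      rw [hvol]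
    rw [himg, himgD, F2.real_image hR a hopen1, F2.real_image hR a hopenD] at e1
    have e2 := mul_left_cancel₀ hR2 e1
    rw [F2.disc_eq, F2.area h2 h3 hc1' hpos1 hper1,
      F2.area h2 h3 continuous_const hone (fun _ => rfl)] at e2
    have e3 : (∫ θ in (0 : ℝ)..(2 * Real.pi), (1 : ℝ) ^ 2) = 2 * Real.pi := by simp
    rw [e3] at e2
    linarith
  -- barycentre
  have hbar1 : (∫ θ in (0 : ℝ)..(2 * Real.pi), ρ1 θ ^ 3 * Real.cos θ) = 0 := by
    rw [himg, F2.int_image hR a hopen1] at hb1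
    have e1 : ∀ y : ℝ × ℝ, (Sc.aff a R y).1 - a.1 = R * y.1 := by
      intro y
      show a.1 + R * y.1 - a.1 = R * y.1
      ring
    simp only [e1] at hb1
    rw [integral_const_mul, F2.bar1 h2 h3 hc1' hpos1 hper1] at hb1
    have e2 : R ^ 2 * (R * (1 / 3)) * (∫ θ in (0 : ℝ)..(2 * Real.pi), ρ1 θ ^ 3 * Real.cos θ) = 0 := by
      linarith
    rcases mul_eq_zero.1 e2 with e3 | e3
    · exact absurd e3 (by positivity)
    · exact e3
  have hbar2 : (∫ θ in (0 : ℝ)..(2 * Real.pi), ρ1 θ ^ 3 * Real.sin θ) = 0 := by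
    rw [himg, F2.int_image hR a hopen1] at hb2
    have e1 : ∀ y : ℝ × ℝ, (Sc.aff a R y).2 - a.2 = R * y.2 := by
      intro y
      show a.2 + R * y.2 - a.2 = R * y.2
      ring
    simp only [e1] at hb2
    rw [integral_const_mul, F2.bar2 h2 h3 hc1' hpos1 hper1] at hb2
    have e2 : R ^ 2 * (R * (1 / 3)) * (∫ θ in (0 : ℝ)..(2 * Real.pi), ρ1 θ ^ 3 * Real.sin θ) = 0 := by
      linarith
    rcases mul_eq_zero.1 e2 with e3 | e3
    · exact absurd e3 (by positivity)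
    · exact e3
  have hnear : Near ρ1 ε1 := by
    refine ⟨hc1', hper1, ?_, harea, hbar1, hbar2⟩
    intro θ
    have h4 := (hclose θ).trans (min_le_left _ _)
    have e1 : ρ1 θ - 1 = (ρ θ - R) / R := by
      simp only [hρ1]
      field_simp
    rw [e1, abs_div, abs_of_pos hR, div_le_iff₀ hR]
    linarith
  have hkey := hmain ρ1 hnear
  have s1 : lamN B (starDom a ρ) = (R ^ 2)⁻¹ * lamN (B * R ^ 2) (polarDom ρ1) := by
    rw [himg]
    exact sc B R a _ hR hopen1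
  have s2 : lamN B (edisc a R) = (R ^ 2)⁻¹ * lamN (B * R ^ 2) disc := by
    rw [himgD]
    exact sc B R a _ hR hopenD
  have s3 : (∫ θ in (0 : ℝ)..(2 * Real.pi), (ρ1 θ - 1) ^ 2) =
      (R ^ 2)⁻¹ * ∫ θ in (0 : ℝ)..(2 * Real.pi), (ρ θ - R) ^ 2 := by
    rw [← intervalIntegral.integral_const_mul]
    refine intervalIntegral.integral_congr fun θ _ => ?_
    simp only [hρ1]
    field_simp
  rw [s3] at hkey
  rw [s1, s2]
  have h5 := mul_le_mul_of_nonneg_left hkey (inv_nonneg.2 (sq_nonneg R))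
  refine h5.trans (le_of_eq ?_)
  field_simp

end Pool.Agent.MFK
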