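import Pool.Agent.Work.MP_8826fd_mp.StmtsL

/-! # Final forms of the theorem (items F..) -/

set_option autoImplicit false

namespace Pool.Agent.MFK

open MeasureTheory Set Filter Topology

/-- the open disc `D(a, R)` (for `R ≥ 0`) -/
def edisc (a : ℝ × ℝ) (R : ℝ) : Set (ℝ × ℝ) := {x | (x.1 - a.1) ^ 2 + (x.2 - a.2) ^ 2 < R ^ 2}

/-- the domain `{a + r (cos θ, sin θ) : 0 ≤ r < ρ(θ)}` (for positive `2π`-periodic `ρ`) -/
noncomputable def starDom (a : ℝ × ℝ) (ρ : ℝ → ℝ) : Set (ℝ × ℝ) :=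
  {x | (x.1 - a.1) ^ 2 + (x.2 - a.2) ^ 2 < ρ (Complex.arg (⟨x.1 - a.1, x.2 - a.2⟩ : ℂ)) ^ 2}

/-- the disc is a strict local maximiser among domains that are star-shaped with continuous
radial function about their centre of mass -/
def StFA : Prop :=
  ∀ B R : ℝ, 0 < B → 0 < R → ∃ ε > (0 : ℝ), ∃ c > (0 : ℝ), ∀ (a : ℝ × ℝ) (ρ : ℝ → ℝ),
    Continuous ρ → (∀ θ, ρ (θ + 2 * Real.pi) = ρ θ) → (∀ θ, |ρ θ - R| ≤ ε) →
    volume (starDom a ρ) = volume (edisc a R) →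
    (∫ x in starDom a ρ, (x.1 - a.1)) = 0 → (∫ x in starDom a ρ, (x.2 - a.2)) = 0 →
    lamN B (starDom a ρ) ≤ lamN B (edisc a R) - c * ∫ θ in (0 : ℝ)..(2 * Real.pi), (ρ θ - R) ^ 2

/-- polar representation of an open set that is star-shaped with respect to a disc -/
def StFRep : Prop :=
  ∀ (Om : Set (ℝ × ℝ)) (p : ℝ × ℝ) (κ r1 r2 : ℝ), IsOpen Om → 0 < κ → 0 < r1 →
    (∀ q ∈ edisc p κ, StarConvex ℝ q Om) → edisc p r1 ⊆ Om → Om ⊆ edisc p r2 → 0 < r2 →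
    ∃ ρ : ℝ → ℝ, Continuous ρ ∧ (∀ θ, ρ (θ + 2 * Real.pi) = ρ θ) ∧ (∀ θ, r1 ≤ ρ θ ∧ ρ θ ≤ r2) ∧
      Om = starDom p ρ

/-- the disc is a strict local maximiser among open sets star-shaped with respect to a disc
(in particular among convex sets) -/
def StFB : Prop :=
  ∀ B R κ : ℝ, 0 < B → 0 < R → 0 < κ → ∃ ε > (0 : ℝ), ∃ c > (0 : ℝ), ∀ (Om : Set (ℝ × ℝ)) (p : ℝ × ℝ),
    IsOpen Om → (∀ q ∈ edisc p κ, StarConvex ℝ q Om) → volume Om = volume (edisc p R) →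
    edisc p (R - ε) ⊆ Om → Om ⊆ edisc p (R + ε) →
    ∃ x0 : ℝ × ℝ, lamN B Om ≤ lamN B (edisc p R) - c * (volume (symmDiff Om (edisc x0 R))).toReal ^ 2 ∧
      (lamN B Om = lamN B (edisc p R) → Om = edisc x0 R)

end Pool.Agent.MFK
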