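import Pool.Agent.Work.MP_8826fd_mp.Defs

/-! # Polar coordinates and the lower bound for the disc (items P.., L..) -/

set_option autoImplicit false

namespace Pool.Agent.MFK

open MeasureTheory Set Filter Topology

/-- regularity and basic properties of radial solutions -/
def RReg : Prop := ∀ (B lam : ℝ) (n : ℤ) (F : ℝ → ℝ), Rad B lam n F →
  (∀ r, HasDerivAt (radf n F) (deriv (radf n F) r) r) ∧ ContDiff ℝ 2 (radf n F) ∧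
  Continuous (deriv (radf n F)) ∧ (∀ r, 0 < r → 0 < radf n F r) ∧ radf n F 1 = F 1 ∧
  (∀ r, 0 < r → HasDerivAt (deriv (radf n F))
    (((qn B n r) ^ 2 - lam) * radf n F r - deriv (radf n F) r / r) r) ∧
  Tendsto (fun r => r * (deriv (radf n F) r / radf n F r)) (𝓝[>] 0) (𝓝 (n.natAbs : ℝ)) ∧
  (∃ C : ℝ, ∀ r ∈ Ioc (0 : ℝ) 1, |radf n F r| ≤ C ∧ |deriv (radf n F) r| ≤ C ∧ |(n / r) * radf n F r| ≤ C)

/-- the point with polar coordinates `(r, θ)` -/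
noncomputable def pt (r θ : ℝ) : ℝ × ℝ := (r * Real.cos θ, r * Real.sin θ)

/-- energy density in polar coordinates -/
def PDens : Prop := ∀ (B : ℝ) (u : ℝ × ℝ → ℂ) (r θ : ℝ), 0 < r → DifferentiableAt ℝ u (pt r θ) →
  HasDerivAt (fun t => u (pt t θ)) (deriv (fun t => u (pt t θ)) r) r ∧
  HasDerivAt (fun t => u (pt r t)) (deriv (fun t => u (pt r t)) θ) θ ∧
  eden B u (pt r θ) = ‖deriv (fun t => u (pt t θ)) r‖ ^ 2
    + ‖(1 / r : ℝ) * deriv (fun t => u (pt r t)) θ - Complex.I * ((B * r / 2 : ℝ) : ℂ) * u (pt r θ)‖ ^ 2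

/-- integration over a star-shaped domain in polar coordinates (nonnegative and integrable versions) -/
def PInt : Prop := ∀ (ρ : ℝ → ℝ) (f : ℝ × ℝ → ℝ), Continuous ρ → (∀ θ, 0 < ρ θ) →
  (∀ θ, ρ (θ + 2 * Real.pi) = ρ θ) → IntegrableOn f (polarDom ρ) →
  (∀ᵐ θ ∂(volume.restrict (Ioc 0 (2 * Real.pi))), IntegrableOn (fun r => f (pt r θ) * r) (Ioc 0 (ρ θ))) ∧
  IntegrableOn (fun θ => ∫ r in (0 : ℝ)..(ρ θ), f (pt r θ) * r) (Ioc 0 (2 * Real.pi)) ∧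
  (∫ x in polarDom ρ, f x) = ∫ θ in (0 : ℝ)..(2 * Real.pi), ∫ r in (0 : ℝ)..(ρ θ), f (pt r θ) * r

/-- the same for the disc, with the angular integral inside -/
def PIntD : Prop := ∀ (f : ℝ × ℝ → ℝ), IntegrableOn f disc →
  (∀ᵐ r ∂(volume.restrict (Ioc (0 : ℝ) 1)), IntegrableOn (fun θ => f (pt r θ)) (Ioc 0 (2 * Real.pi))) ∧
  IntegrableOn (fun r => (∫ θ in (0 : ℝ)..(2 * Real.pi), f (pt r θ)) * r) (Ioc 0 1) ∧
  (∫ x in disc, f x) = ∫ r in (0 : ℝ)..1, (∫ θ in (0 : ℝ)..(2 * Real.pi), f (pt r θ)) * r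

/-- `n`-th Fourier coefficient -/
noncomputable def fc (v : ℝ → ℂ) (n : ℤ) : ℂ :=
  (1 / (2 * Real.pi) : ℝ) * ∫ θ in (0 : ℝ)..(2 * Real.pi), v θ * Complex.exp (-(Complex.I * n * θ))

/-- Bessel and Parseval on the circle for continuous functions -/
def LBessel : Prop := ∀ (v : ℝ → ℂ) (S : Finset ℤ), Continuous v →
  ∑ n ∈ S, 2 * Real.pi * ‖fc v n‖ ^ 2 ≤ ∫ θ in (0 : ℝ)..(2 * Real.pi), ‖v θ‖ ^ 2

def LPars : Prop := ∀ (v : ℝ → ℂ), Continuous v → (∀ θ, v (θ + 2 * Real.pi) = v θ) →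
  HasSum (fun n : ℤ => 2 * Real.pi * ‖fc v n‖ ^ 2) (∫ θ in (0 : ℝ)..(2 * Real.pi), ‖v θ‖ ^ 2)

/-- Fourier coefficients of a `C¹` function on the punctured disc -/
def LCoef : Prop := ∀ (B : ℝ) (u : ℝ × ℝ → ℂ), ContDiffOn ℝ 1 u disc → ∀ (n : ℤ) (r : ℝ), 0 < r → r < 1 →
  HasDerivAt (fun t => fc (fun θ => u (pt t θ)) n) (fc (fun θ => deriv (fun t => u (pt t θ)) r) n) r ∧
  fc (fun θ => (1 / r : ℝ) * deriv (fun t => u (pt r t)) θ - Complex.I * ((B * r / 2 : ℝ) : ℂ) * u (pt r θ)) n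
    = Complex.I * ((qn B n r : ℝ) : ℂ) * fc (fun θ => u (pt r θ)) n ∧
  ContinuousOn (fun t => fc (fun θ => deriv (fun s => u (pt s θ)) t) n) (Ioo 0 1)

/-- behaviour of the coefficients at the centre -/
def LZero : Prop := ∀ (u : ℝ × ℝ → ℂ), ContDiffOn ℝ 1 u disc → ∀ n : ℤ,
  (n ≠ 0 → Tendsto (fun t => fc (fun θ => u (pt t θ)) n) (𝓝[>] 0) (𝓝 0)) ∧
  (∃ C : ℝ, ∀ᶠ t in 𝓝[>] (0 : ℝ), ‖fc (fun θ => u (pt t θ)) n‖ ≤ C)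

/-- Picone identity on a compact interval: `f` complex valued -/
def LPicone : Prop := ∀ (B lam : ℝ) (n : ℤ) (F : ℝ → ℝ) (f f' : ℝ → ℂ) (s t : ℝ), Rad B lam n F →
  0 < s → s ≤ t → (∀ r ∈ Icc s t, HasDerivAt f (f' r) r) → ContinuousOn f' (Icc s t) →
  t * (deriv (radf n F) t / radf n F t) * ‖f t‖ ^ 2 - s * (deriv (radf n F) s / radf n F s) * ‖f s‖ ^ 2
    ≤ ∫ r in s..t, (‖f' r‖ ^ 2 + (qn B n r ^ 2 - lam) * ‖f r‖ ^ 2) * r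

/-- radial inequality on `(0,1)` -/
def LRad : Prop := ∀ (B lam : ℝ) (n : ℤ) (F : ℝ → ℝ) (f f' : ℝ → ℂ), 0 < lam → Rad B lam n F →
  0 ≤ deriv (radf n F) 1 → (∀ r ∈ Ioo (0 : ℝ) 1, HasDerivAt f (f' r) r) → ContinuousOn f' (Ioo 0 1) →
  (n ≠ 0 → Tendsto f (𝓝[>] 0) (𝓝 0)) → (∃ C : ℝ, ∀ᶠ t in 𝓝[>] (0 : ℝ), ‖f t‖ ≤ C) →
  IntegrableOn (fun r => (‖f' r‖ ^ 2 + qn B n r ^ 2 * ‖f r‖ ^ 2) * r) (Ioc 0 1) →
  IntegrableOn (fun r => ‖f r‖ ^ 2 * r) (Ioc 0 1) →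
  lam * ∫ r in (0 : ℝ)..1, ‖f r‖ ^ 2 * r ≤ ∫ r in (0 : ℝ)..1, (‖f' r‖ ^ 2 + qn B n r ^ 2 * ‖f r‖ ^ 2) * r

/-- the inequality for one admissible function -/
def LFun : Prop := ∀ (B lam : ℝ) (m : ℕ) (F : ℤ → ℝ → ℝ) (u : ℝ × ℝ → ℂ), 0 < B → Data B lam m F →
  ContDiffOn ℝ 1 u disc → IntegrableOn (fun x => ‖u x‖ ^ 2) disc → IntegrableOn (fun x => eden B u x) disc →
  lam * ∫ x in disc, ‖u x‖ ^ 2 ≤ ∫ x in disc, eden B u x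

end Pool.Agent.MFK
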